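import Pool.Agent.helper6.Radon.SevenPts

/-!
The matroid of affine dependences of a finite set of points in a real vector space.
-/

open Set Matroid

namespace RadonMin

variable {V : Type*} [AddCommGroup V] [Module ℝ V] [DecidableEq V]

/-- A finite set of points is affinely independent: no nontrivial affine relation. -/
def AffInd (I : Finset V) : Prop :=
  ∀ f : V → ℝ, ∑ x ∈ I, f x = 0 → ∑ x ∈ I, f x • x = 0 → ∀ x ∈ I, f x = 0

/-- Lifting points to height one. -/
def lift1 (x : V) : ℝ × V := (1, x)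

lemma affInd_iff (I : Finset V) : AffInd I ↔ LinearIndepOn ℝ lift1 (I : Set V) := by
  rw [linearIndepOn_finset_iff]
  have key : ∀ f : V → ℝ, ∑ i ∈ I, f i • lift1 i = (∑ i ∈ I, f i, ∑ i ∈ I, f i • i) := by
    intro f
    rw [Prod.ext_iff]
    constructor
    · simp [lift1, Prod.fst_sum]
    · simp [lift1, Prod.snd_sum]
  constructor
  · intro h f hf
    rw [key, Prod.mk_eq_zero] at hf
    exact h f hf.1 hf.2
  · intro h f h1 h2
    apply h f
    rw [key, h1, h2]; rfl

lemma AffInd.subset {I J : Finset V} (h : AffInd J) (hIJ : I ⊆ J) : AffInd I := by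
  rw [affInd_iff] at *
  exact h.mono (by exact_mod_cast hIJ)

lemma affInd_aug {I J : Finset V} (hI : AffInd I) (hJ : AffInd J) (h : I.card < J.card) :
    ∃ e ∈ J, e ∉ I ∧ AffInd (insert e I) := by
  rw [affInd_iff] at hI hJ
  by_contra hcon
  push Not at hcon
  have h1 : ∀ e ∈ J, lift1 e ∈ Submodule.span ℝ (lift1 '' (I : Set V)) := by
    intro e he
    by_cases heI : e ∈ I
    · exact Submodule.subset_span ⟨e, heI, rfl⟩
    · by_contra hns
      apply hcon e he heI
      rw [affInd_iff, Finset.coe_insert]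
      exact hI.insert hns
  have h2 : Submodule.span ℝ (lift1 '' (J : Set V)) ≤ Submodule.span ℝ (lift1 '' (I : Set V)) := by
    rw [Submodule.span_le]
    rintro _ ⟨e, he, rfl⟩
    exact h1 e he
  have hfr : ∀ K : Finset V, LinearIndepOn ℝ lift1 (K : Set V) →
      Module.finrank ℝ (Submodule.span ℝ (lift1 '' (K : Set V))) = K.card := by
    intro K hK
    have h3 := finrank_span_eq_card (R := ℝ) (b := fun x : (K : Set V) => lift1 (x : V)) hK
    have h4 : Set.range (fun x : (K : Set V) => lift1 (x : V)) = lift1 '' (K : Set V) := by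
      ext y; simp
    rw [h4] at h3
    rw [h3]; simp
  have hfin : Module.Finite ℝ (Submodule.span ℝ (lift1 '' (I : Set V))) :=
    FiniteDimensional.span_of_finite ℝ ((Finset.finite_toSet I).image _)
  have h3 := Submodule.finrank_mono h2
  rw [hfr J hJ, hfr I hI] at h3
  omega

/-- The matroid of affine dependences of a finite point set. -/
noncomputable def affMat (S : Finset V) : Matroid V :=
  (IndepMatroid.ofFinset (S : Set V) (fun I : Finset V => I ⊆ S ∧ AffInd I)
    (indep_empty := ⟨Finset.empty_subset _, by intro f _ _ x hx; simp at hx⟩)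
    (indep_subset := fun I J hJ hIJ => ⟨hIJ.trans hJ.1, hJ.2.subset hIJ⟩)
    (indep_aug := fun I J hI hJ h => by
      obtain ⟨e, heJ, heI, he⟩ := affInd_aug hI.2 hJ.2 h
      exact ⟨e, heJ, heI, Finset.insert_subset (hJ.1 heJ) hI.1, he⟩)
    (subset_ground := fun I hI => by exact_mod_cast hI.1)).matroid

@[simp] lemma affMat_E (S : Finset V) : (affMat S).E = (S : Set V) := rfl

lemma affMat_indep (S I : Finset V) : (affMat S).Indep (I : Set V) ↔ I ⊆ S ∧ AffInd I := by
  unfold affMat
  rw [IndepMatroid.matroid_Indep]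
  exact IndepMatroid.ofFinset_indep _ _ _ _ _ _

instance affMat_finite (S : Finset V) : (affMat S).Finite := ⟨by simp⟩

lemma affMat_simp (S : Finset V) : Simp (affMat S) := by
  intro C hC
  have hCS := hC.subset_ground
  rw [affMat_E] at hCS
  have hfin : C.Finite := (Finset.finite_toSet S).subset hCS
  obtain ⟨C', rfl⟩ : ∃ C' : Finset V, (C' : Set V) = C := ⟨hfin.toFinset, by simp⟩
  rw [ncard_coe_finset]
  by_contra hlt
  push Not at hlt
  apply hC.not_indep
  rw [affMat_indep]
  refine ⟨by exact_mod_cast hCS, ?_⟩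
  intro f h1 h2
  have : C'.card = 0 ∨ C'.card = 1 ∨ C'.card = 2 := by omega
  rcases this with h | h | h
  · rw [Finset.card_eq_zero] at h
    subst h; intro x hx; simp at hx
  · obtain ⟨a, rfl⟩ := Finset.card_eq_one.mp h
    rw [Finset.sum_singleton] at h1
    intro x hx
    rw [Finset.mem_singleton] at hx
    rw [hx, h1]
  · obtain ⟨a, b, hab, rfl⟩ := Finset.card_eq_two.mp h
    rw [Finset.sum_pair hab] at h1 h2
    have h3 : f b = - f a := by linarith
    rw [h3, neg_smul, ← sub_eq_add_neg, ← smul_sub] at h2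
    have h4 : f a = 0 := by
      rcases smul_eq_zero.mp h2 with h | h
      · exact h
      · exact absurd (sub_eq_zero.mp h) hab
    intro x hx
    rw [Finset.mem_insert, Finset.mem_singleton] at hx
    rcases hx with rfl | rfl
    · exact h4
    · rw [h3, h4, neg_zero]

lemma affMat_restrict (S : Finset V) {R : Finset V} (hR : R ⊆ S) :
    (affMat S) ↾ (R : Set V) = affMat R := by
  have hE : ((affMat S) ↾ (R : Set V)).E = (affMat R).E := rfl
  refine ext_indep hE ?_
  intro I hI
  rw [restrict_ground_eq] at hI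
  have hfin : I.Finite := (Finset.finite_toSet R).subset hI
  obtain ⟨I', rfl⟩ : ∃ I' : Finset V, (I' : Set V) = I := ⟨hfin.toFinset, by simp⟩
  rw [restrict_indep_iff, affMat_indep, affMat_indep]
  have hIR : I' ⊆ R := by exact_mod_cast hI
  constructor
  · rintro ⟨⟨_, h2⟩, _⟩; exact ⟨hIR, h2⟩
  · rintro ⟨_, h2⟩; exact ⟨⟨hIR.trans hR, h2⟩, hI⟩

/-- relation witnessing a circuit of size three -/
lemma tri_relation {S : Finset V} {x y z : V} (h : Tri (affMat S) x y z) :
    ∃ r s : ℝ, r ≠ 0 ∧ s ≠ 0 ∧ lift1 z = r • lift1 x + s • lift1 y := by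
  have hne := h.ne (affMat_simp S)
  obtain ⟨hxy, hyz, hxz⟩ := hne
  have hsub := h.subset_ground
  rw [affMat_E] at hsub
  have hxS : x ∈ S := by exact_mod_cast hsub (by simp)
  have hyS : y ∈ S := by exact_mod_cast hsub (by simp)
  have hzS : z ∈ S := by exact_mod_cast hsub (by simp)
  have hnot : ¬ AffInd ({x, y, z} : Finset V) := by
    intro hind
    apply h.not_indep
    have h1 := (affMat_indep S {x, y, z}).mpr ⟨?_, hind⟩
    · simpa using h1
    · intro w hw
      simp only [Finset.mem_insert, Finset.mem_singleton] at hw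
      rcases hw with rfl | rfl | rfl <;> assumption
  unfold AffInd at hnot
  push Not at hnot
  obtain ⟨f, h1, h2, w, hw, hfw⟩ := hnot
  rw [Finset.sum_insert (by simp [hxy, hxz]), Finset.sum_pair hyz] at h1 h2
  -- two points independent
  have two : ∀ a b : V, a ≠ b → ∀ p q : ℝ, p + q = 0 → p • a + q • b = 0 → p = 0 ∧ q = 0 := by
    intro a b hab p q h1 h2
    have h3 : q = - p := by linarith
    rw [h3, neg_smul, ← sub_eq_add_neg, ← smul_sub] at h2
    rcases smul_eq_zero.mp h2 with h | h
    · exact ⟨h, by rw [h3, h, neg_zero]⟩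
    · exact absurd (sub_eq_zero.mp h) hab
  have hz0 : f z ≠ 0 := by
    intro h0
    rw [h0, add_zero] at h1
    rw [h0, zero_smul, add_zero] at h2
    obtain ⟨e1, e2⟩ := two x y hxy _ _ h1 h2
    simp only [Finset.mem_insert, Finset.mem_singleton] at hw
    rcases hw with rfl | rfl | rfl
    · exact hfw e1
    · exact hfw e2
    · exact hfw h0
  have hx0 : f x ≠ 0 := by
    intro h0
    rw [h0, zero_add] at h1
    rw [h0, zero_smul, zero_add] at h2
    exact hz0 (two y z hyz _ _ h1 h2).2
  have hy0 : f y ≠ 0 := by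
    intro h0
    rw [h0, zero_add] at h1
    rw [h0, zero_smul, zero_add] at h2
    exact hz0 (two x z hxz _ _ h1 h2).2
  refine ⟨- f x / f z, - f y / f z, by
    rw [neg_div]; exact neg_ne_zero.mpr (div_ne_zero hx0 hz0), by
    rw [neg_div]; exact neg_ne_zero.mpr (div_ne_zero hy0 hz0), ?_⟩
  have h3 : f z • lift1 z = (- f x) • lift1 x + (- f y) • lift1 y := by
    unfold lift1
    rw [Prod.smul_mk, Prod.smul_mk, Prod.smul_mk, Prod.mk_add_mk, Prod.mk.injEq]
    constructor
    · simp only [smul_eq_mul, mul_one]; linarith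
    · have h4 : f z • z + (f x • x + f y • y) = 0 := by rw [← h2]; abel
      rw [neg_smul, neg_smul, ← neg_add]
      exact eq_neg_of_add_eq_zero_left h4
  have h4 : lift1 z = (f z)⁻¹ • (f z • lift1 z) := by
    rw [smul_smul, inv_mul_cancel₀ hz0, one_smul]
  rw [h4, h3, smul_add, smul_smul, smul_smul]
  congr 2 <;> field_simp

/-- The Fano configuration is not realizable over the reals. -/
lemma not_fano (S : Finset V) : ¬ FanoConf (affMat S) := by
  rintro ⟨p, a, a', b, b', c, c', hpa, hpb, hab, hpE, haE, hbE, hpab, t1, t2, t3, t4, t5, t6, t7⟩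
  rw [affMat_E] at hpE haE hbE
  have hpS : p ∈ S := by exact_mod_cast hpE
  have haS : a ∈ S := by exact_mod_cast haE
  have hbS : b ∈ S := by exact_mod_cast hbE
  -- independence of `p, a, b`
  have hsubS : ({p, a, b} : Finset V) ⊆ S := by
    intro w hw
    simp only [Finset.mem_insert, Finset.mem_singleton] at hw
    rcases hw with rfl | rfl | rfl <;> assumption
  have hind : AffInd ({p, a, b} : Finset V) := by
    have h1 : (affMat S).Indep ((({p, a, b} : Finset V)) : Set V) := by
      apply indep_of_not_circuit (affMat_simp S)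
      · rw [affMat_E]; exact_mod_cast hsubS
      · rw [ncard_coe_finset]; exact Finset.card_le_three
      · intro h; apply hpab; unfold Tri; simpa using h
    exact ((affMat_indep S _).mp h1).2
  have key : ∀ x y z : ℝ, x • lift1 p + y • lift1 a + z • lift1 b = 0 → x = 0 ∧ y = 0 ∧ z = 0 := by
    intro x y z h
    have h1 := hind (fun w => if w = p then x else if w = a then y else z)
    rw [Finset.sum_insert (by simp [hpa, hpb]), Finset.sum_pair hab,
      Finset.sum_insert (by simp [hpa, hpb]), Finset.sum_pair hab] at h1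
    simp only [if_true, hpa.symm, if_false, hpb.symm, hab.symm] at h1
    unfold lift1 at h
    rw [Prod.smul_mk, Prod.smul_mk, Prod.smul_mk, Prod.mk_add_mk, Prod.mk_add_mk,
      Prod.mk_eq_zero] at h
    simp only [smul_eq_mul, mul_one] at h
    have h2 := h1 (by linarith [h.1]) (by rw [← h.2]; abel)
    refine ⟨?_, ?_, ?_⟩
    · simpa using h2 p (by simp)
    · simpa [hpa.symm] using h2 a (by simp)
    · simpa [hpb.symm, hab.symm] using h2 b (by simp)
  obtain ⟨a1, a2, ha1, ha2, ea⟩ := tri_relation t1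
  obtain ⟨b1, b2, hb1, hb2, eb⟩ := tri_relation t2
  obtain ⟨k, τ, hk, hτ, ec'1⟩ := tri_relation t3
  obtain ⟨g1, g2, hg1, hg2, ec⟩ := tri_relation t4
  obtain ⟨ρ, σ, hρ, hσ, ec'2⟩ := tri_relation t5
  obtain ⟨ρ', σ', hρ', hσ', ec'3⟩ := tri_relation t6
  obtain ⟨x, y, hx, hy, ec2⟩ := tri_relation t7
  -- `c = x a' + y b'`
  have r1 : (x * a1 + y * b1) • lift1 p + (x * a2 - g1) • lift1 a + (y * b2 - g2) • lift1 b = 0 := by
    have h : (x • lift1 a' + y • lift1 b') - (g1 • lift1 a + g2 • lift1 b) = 0 := by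
      rw [← ec2, ← ec, sub_self]
    rw [ea, eb] at h
    rw [← h]; module
  have r2 : (k - σ * b1) • lift1 p + (τ * g1 - ρ) • lift1 a + (τ * g2 - σ * b2) • lift1 b = 0 := by
    have h : (k • lift1 p + τ • lift1 c) - (ρ • lift1 a + σ • lift1 b') = 0 := by
      rw [← ec'1, ← ec'2, sub_self]
    rw [ec, eb] at h
    rw [← h]; module
  have r3 : (k - ρ' * a1) • lift1 p + (τ * g1 - ρ' * a2) • lift1 a + (τ * g2 - σ') • lift1 b
      = 0 := by
    have h : (k • lift1 p + τ • lift1 c) - (ρ' • lift1 a' + σ' • lift1 b) = 0 := by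
      rw [← ec'1, ← ec'3, sub_self]
    rw [ec, ea] at h
    rw [← h]; module
  obtain ⟨p1, p2, p3⟩ := key _ _ _ r1
  obtain ⟨q1, q2, q3⟩ := key _ _ _ r2
  obtain ⟨s1, s2, s3⟩ := key _ _ _ r3
  -- derive the contradiction
  have h1 : τ * (g2 * b1 * a2 - g1 * a1 * b2) = 0 := by
    have e1 : τ * g2 * b1 = k * b2 := by
      have : k = σ * b1 := by linarith
      have h2 : τ * g2 = σ * b2 := by linarith
      rw [this, h2]; ring
    have e2 : τ * g1 * a1 = k * a2 := by
      have : k = ρ' * a1 := by linarith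
      have h2 : τ * g1 = ρ' * a2 := by linarith
      rw [this, h2]; ring
    calc τ * (g2 * b1 * a2 - g1 * a1 * b2) = (τ * g2 * b1) * a2 - (τ * g1 * a1) * b2 := by ring
      _ = 0 := by rw [e1, e2]; ring
  have h2 : g2 * b1 * a2 = g1 * a1 * b2 := by
    rcases mul_eq_zero.mp h1 with h | h
    · exact absurd h hτ
    · linarith
  have h3 : g1 * a1 * b2 + g2 * b1 * a2 = 0 := by
    have e1 : g1 = x * a2 := by linarith
    have e2 : g2 = y * b2 := by linarith
    rw [e1, e2]
    have : x * a2 * a1 * b2 + y * b2 * b1 * a2 = (x * a1 + y * b1) * (a2 * b2) := by ring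
    rw [this, p1]; ring
  have h4 : g1 * a1 * b2 = 0 := by linarith
  have h5 : g1 * a1 * b2 ≠ 0 := mul_ne_zero (mul_ne_zero hg1 ha1) hb2
  exact h5 h4

/-- The real matroid of a point set satisfies the rank three bound. -/
theorem affMat_good (S : Finset V) : Good (affMat S) := by
  apply Good_of_seven (affMat_simp S)
  intro X hX hr h7
  rw [affMat_E] at hX
  have hfin : X.Finite := (Finset.finite_toSet S).subset hX
  obtain ⟨X', rfl⟩ : ∃ X' : Finset V, (X' : Set V) = X := ⟨hfin.toFinset, by simp⟩
  have hX' : X' ⊆ S := by exact_mod_cast hX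
  rw [affMat_restrict S hX']
  have hr' : rk (affMat X') (affMat X').E = 3 := by
    rw [affMat_E, ← rk_restrict (affMat S) (le_refl (X' : Set V)), affMat_restrict S hX'] at *
    exact hr
  rcases seven_or_fano (affMat X') (affMat_simp X') hr' (by rw [affMat_E]; exact h7) with h | h
  · exact h
  · exact absurd h (not_fano X')

end RadonMin
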