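import Mathlib

/-!
Arithmetic of binomial coefficients for the circuit counting problem.
-/

namespace RadonMin

lemma two_mul_choose_two (n : ℕ) : (2 : ℤ) * (n.choose 2 : ℤ) = n * (n - 1) := by
  induction n with
  | zero => simp
  | succ n ih =>
    have h : ((n + 1).choose 2 : ℤ) = n + n.choose 2 := by
      rw [Nat.choose_succ_succ' n 1]; simp
    rw [h]; push_cast; linarith

lemma six_mul_choose_three (n : ℕ) : (6 : ℤ) * (n.choose 3 : ℤ) = n * (n - 1) * (n - 2) := by
  induction n with
  | zero => simp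
  | succ n ih =>
    have h : ((n + 1).choose 3 : ℤ) = n.choose 2 + n.choose 3 := by
      rw [Nat.choose_succ_succ' n 2]; simp
    have h2 := two_mul_choose_two n
    rw [h]; push_cast; linarith

lemma choose_three_succ (n : ℕ) : ((n + 1).choose 3 : ℤ) = n.choose 2 + n.choose 3 := by
  rw [Nat.choose_succ_succ' n 2]; simp

lemma choose_two_succ (n : ℕ) : ((n + 1).choose 2 : ℤ) = n + n.choose 2 := by
  rw [Nat.choose_succ_succ' n 1]; simp

/-- The correction term. -/
def corr (L : ℕ) : ℕ := (L - 3) + (if L = 5 then 1 else 0)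

/-- The minimum number of circuits of a simple real matroid of rank three with `n` elements. -/
def hh (n : ℕ) : ℕ := (n - 1).choose 3 - corr (n - 1)

lemma corr_le (L : ℕ) : corr L ≤ L.choose 3 := by
  rcases Nat.lt_or_ge L 6 with h | h
  · interval_cases L <;> decide
  · have h1 : corr L = L - 3 := by
      unfold corr
      rw [if_neg (by omega)]; rfl
    rw [h1]
    have h2 := six_mul_choose_three L
    have h3 : (6 : ℤ) ≤ L := by exact_mod_cast h
    zify [show 3 ≤ L by omega]
    have h4 : (6 : ℤ) ≤ (L : ℤ) * (L - 1) := by nlinarith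
    have h5 := mul_le_mul_of_nonneg_right h4 (show (0 : ℤ) ≤ (L : ℤ) - 2 by linarith)
    linarith

lemma hh_cast (n : ℕ) : (hh n : ℤ) = (n - 1).choose 3 - corr (n - 1) := by
  unfold hh
  rw [Nat.cast_sub (corr_le _)]

/-- increments of `hh` -/
lemma hh_succ (n : ℕ) (hn : 1 ≤ n) :
    (hh (n + 1) : ℤ) = hh n + (n - 1).choose 2 - (corr n - corr (n - 1)) := by
  rw [hh_cast, hh_cast]
  obtain ⟨k, rfl⟩ : ∃ k, n = k + 1 := ⟨n - 1, by omega⟩
  simp only [Nat.add_sub_cancel]
  rw [choose_three_succ]
  ring

lemma corr_mono (n : ℕ) : corr n ≤ corr (n + 1) := by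
  rcases Nat.lt_or_ge n 6 with h | h
  · interval_cases n <;> decide
  · unfold corr
    rw [if_neg (by omega), if_neg (by omega)]
    omega

lemma corr_succ_le (n : ℕ) : corr (n + 1) ≤ corr n + 2 := by
  rcases Nat.lt_or_ge n 6 with h | h
  · interval_cases n <;> decide
  · unfold corr
    rw [if_neg (by omega), if_neg (by omega)]
    omega

lemma choose_two_mono {a b : ℕ} (h : a ≤ b) : (a.choose 2 : ℤ) ≤ b.choose 2 := by
  exact_mod_cast Nat.choose_le_choose 2 h

/-- `hh` lies above its tangent line with slope `C(q,2)` at `q + 2`. -/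
lemma hh_tangent (q n : ℕ) (hq : 2 ≤ q) (hn : 3 ≤ n) :
    (q.choose 2 : ℤ) * ((n : ℤ) - q - 2) + hh (q + 2) ≤ hh n := by
  rcases Nat.le_total (q + 2) n with h | h
  · -- increments at least `C(q,2)`
    induction n, h using Nat.le_induction with
    | base => push_cast; linarith
    | succ n hqn ih =>
      have ih := ih (by omega)
      have h1 := hh_succ n (by omega)
      have h2 : (corr n : ℤ) - corr (n - 1) ≤ 2 := by
        have := corr_succ_le (n - 1)
        rw [show n - 1 + 1 = n by omega] at this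
        have h3 : (corr n : ℤ) ≤ corr (n - 1) + 2 := by exact_mod_cast this
        linarith
      have h3 : ((q + 1).choose 2 : ℤ) ≤ (n - 1).choose 2 := choose_two_mono (by omega)
      have h4 := choose_two_succ q
      have h5 : (2 : ℤ) ≤ q := by exact_mod_cast hq
      push_cast
      linarith
  · -- decreasing direction
    obtain ⟨t, ht⟩ : ∃ t, q + 2 = n + t := ⟨q + 2 - n, by omega⟩
    induction t generalizing n with
    | zero =>
      have : n = q + 2 := by omega
      subst this; push_cast; linarith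
    | succ t ih =>
      have ih := ih (n + 1) (by omega) (by omega) (by omega)
      have h1 := hh_succ n (by omega)
      have h2 : (0 : ℤ) ≤ (corr n : ℤ) - corr (n - 1) := by
        have := corr_mono (n - 1)
        rw [show n - 1 + 1 = n by omega] at this
        have h3 : (corr (n - 1) : ℤ) ≤ corr n := by exact_mod_cast this
        linarith
      have h3 : ((n - 1).choose 2 : ℤ) ≤ q.choose 2 := choose_two_mono (by omega)
      push_cast at ih
      linarith

lemma choose_two_mul (m : ℕ) : (m.choose 2 : ℤ) * (m + 1) = 3 * (m + 1).choose 3 := by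
  have h1 := two_mul_choose_two m
  have h2 := six_mul_choose_three (m + 1)
  push_cast at h2
  nlinarith

lemma choose_two_le_hh (m : ℕ) (hm : 2 ≤ m) : (m.choose 2 : ℤ) ≤ hh (m + 2) := by
  rw [hh_cast, show m + 2 - 1 = m + 1 by omega, choose_three_succ]
  suffices (corr (m + 1) : ℤ) ≤ m.choose 3 by linarith
  rcases Nat.lt_or_ge m 6 with h | h
  · interval_cases m <;> decide
  · unfold corr
    rw [if_neg (by omega)]
    have h1 := six_mul_choose_three m
    have h2 : ((m + 1 - 3 + 0 : ℕ) : ℤ) = (m : ℤ) - 2 := by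
      rw [show m + 1 - 3 + 0 = m - 2 by omega, Nat.cast_sub (show 2 ≤ m by omega)]; rfl
    rw [h2]
    have h3 : (6 : ℤ) ≤ m := by exact_mod_cast h
    have h4 : (6 : ℤ) ≤ (m : ℤ) * (m - 1) := by nlinarith
    have h5 := mul_le_mul_of_nonneg_right h4 (show (0 : ℤ) ≤ (m : ℤ) - 2 by linarith)
    linarith

/-- The linear bounds of rank three. -/
lemma T_le_hh (m n : ℕ) (hn : 3 ≤ n) :
    (m.choose 2 : ℤ) * n - (m + 1).choose 3 * 3 ≤ hh n := by
  rcases Nat.lt_or_ge m 2 with h | h
  · have : m.choose 2 = 0 := Nat.choose_eq_zero_of_lt h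
    rw [this]
    push_cast
    have h1 : (0 : ℤ) ≤ (m + 1).choose 3 := by positivity
    have h2 : (0 : ℤ) ≤ hh n := by positivity
    linarith
  · have h1 := hh_tangent m n h hn
    have h2 := choose_two_mul m
    have h3 := choose_two_le_hh m h
    nlinarith

/-- The linear bounds of rank two. -/
lemma T_le_choose_three (m n : ℕ) :
    (m.choose 2 : ℤ) * n - (m + 1).choose 3 * 2 ≤ n.choose 3 := by
  have h1 := two_mul_choose_two m
  have h2 := six_mul_choose_three (m + 1)
  have h3 := six_mul_choose_three n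
  push_cast at h2
  rcases Nat.eq_zero_or_pos m with rfl | hm
  · simp
  -- 6 * (rhs - lhs) = (n - m)(n - m - 1)(n + 2m - 2)
  have h4 : (0 : ℤ) ≤ ((n : ℤ) - m) * ((n : ℤ) - m - 1) := by
    rcases lt_trichotomy (n : ℤ) m with h | h | h
    · nlinarith
    · rw [h]; simp
    · have : (0 : ℤ) ≤ (n : ℤ) - m - 1 := by linarith
      have h5 : (0 : ℤ) ≤ (n : ℤ) - m := by linarith
      exact mul_nonneg h5 this
  have h5 : (0 : ℤ) ≤ (n : ℤ) + 2 * m - 2 := by
    have h6 : (1 : ℤ) ≤ m := by exact_mod_cast hm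
    have h7 : (0 : ℤ) ≤ n := by positivity
    linarith
  have h6 := mul_nonneg h4 h5
  nlinarith

/-- numerical input for the deletion step, for the first family of bounds -/
lemma deletion_T (m N R : ℤ) (j : ℤ) (tj cm : ℤ) (hj : 0 ≤ j) (hR : 3 ≤ R)
    (hm : m = 2 * j ∨ m = 2 * j + 1) (htj : 2 * tj = j * (j + 1)) (hcm : 2 * cm = m * (m - 1))
    (hN : m * (R + 1) < 2 * (N + 1)) : cm ≤ j * N - tj * R := by
  rcases hm with rfl | rfl
  · have h1 : j * (R + 1) ≤ N := by nlinarith
    have h2 : j * (j * (R + 1)) ≤ j * N := mul_le_mul_of_nonneg_left h1 hj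
    have h3 : 0 ≤ j * (j - 1) := by
      rcases hj.lt_or_eq with h | h
      · exact mul_nonneg hj (by linarith)
      · rw [← h]; simp
    nlinarith
  · rcases Int.even_or_odd R with ⟨S, hS⟩ | ⟨S, hS⟩
    · have h1 : 2 * j * R + 2 * j + R ≤ 2 * N := by nlinarith
      have h2 : j * (2 * j * R + 2 * j + R) ≤ j * (2 * N) := mul_le_mul_of_nonneg_left h1 hj
      have h3 : 0 ≤ j * (j - 1) := by
        rcases hj.lt_or_eq with h | h
        · exact mul_nonneg hj (by linarith)
        · rw [← h]; simp
      have h4 : 4 ≤ R := by omega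
      nlinarith
    · have h1 : (2 * j + 1) * (R + 1) ≤ 2 * N := by
        have h5 : (2 * j + 1) * (R + 1) = 2 * ((2 * j + 1) * (S + 1)) := by rw [hS]; ring
        rw [h5] at hN ⊢
        omega
      have h2 : j * ((2 * j + 1) * (R + 1)) ≤ j * (2 * N) := mul_le_mul_of_nonneg_left h1 hj
      have h3 : 0 ≤ j * (j - 1) := by
        rcases hj.lt_or_eq with h | h
        · exact mul_nonneg hj (by linarith)
        · rw [← h]; simp
      nlinarith

/-- numerical input for the deletion step, for the second family of bounds -/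
lemma deletion_U (q N k : ℤ) (j : ℤ) (tj cq : ℤ) (hj : 0 ≤ j) (hk : 2 ≤ k)
    (hq : q = 2 * j ∨ q = 2 * j + 1) (htj : 2 * tj = j * (j + 1)) (hcq : 2 * cq = q * (q - 1))
    (hN : q * k + 1 ≤ N) : cq ≤ j * N - tj * (2 * k) := by
  have h2 : j * (q * k + 1) ≤ j * N := mul_le_mul_of_nonneg_left hN hj
  have h3 : 0 ≤ j * (j - 1) := by
    rcases hj.lt_or_eq with h | h
    · exact mul_nonneg hj (by linarith)
    · rw [← h]; simp
  rcases hq with rfl | rfl
  · nlinarith
  · nlinarith [mul_nonneg hj hj]

end RadonMin
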