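import Mathlib

/-!
Counting circuits of finite matroids: basic facts.
-/

open Set Matroid

namespace RadonMin

variable {α : Type*} {M : Matroid α} {e f : α} {A B X Y C D : Set α}

/-- The number of circuits. -/
noncomputable def cc (M : Matroid α) : ℕ := {C : Set α | M.IsCircuit C}.ncard

/-- The number of circuits through `e`. -/
noncomputable def ce (M : Matroid α) (e : α) : ℕ := {C : Set α | M.IsCircuit C ∧ e ∈ C}.ncard

/-- The number of circuits through `e` and `f`. -/
noncomputable def cef (M : Matroid α) (e f : α) : ℕ :=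
  {C : Set α | M.IsCircuit C ∧ e ∈ C ∧ f ∈ C}.ncard

/-- The rank function with natural number values. -/
noncomputable def rk (M : Matroid α) (X : Set α) : ℕ := (M.eRk X).toNat

/-- The matroid is simple: all circuits have at least three elements. -/
def Simp (M : Matroid α) : Prop := ∀ C, M.IsCircuit C → 3 ≤ C.ncard

/-- The matroid is connected. -/
def Conn (M : Matroid α) : Prop :=
  ∀ A ⊆ M.E, A.Nonempty → (M.E \ A).Nonempty → rk M M.E < rk M A + rk M (M.E \ A)

section rank

lemma coe_rk (M : Matroid α) [M.Finite] (X : Set α) : (rk M X : ℕ∞) = M.eRk X := by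
  unfold rk
  apply ENat.natCast_toNat
  rw [eRk_ne_top_iff]
  have : M.RankFinite := inferInstance
  exact M.isRkFinite_set X

lemma rk_mono (M : Matroid α) [M.Finite] (h : X ⊆ Y) : rk M X ≤ rk M Y := by
  have := M.eRk_mono h
  rw [← coe_rk, ← coe_rk] at this
  exact_mod_cast this

lemma rk_submod (M : Matroid α) [M.Finite] (X Y : Set α) :
    rk M (X ∩ Y) + rk M (X ∪ Y) ≤ rk M X + rk M Y := by
  have := M.eRk_submod X Y
  rw [← coe_rk, ← coe_rk, ← coe_rk, ← coe_rk] at this
  exact_mod_cast this

lemma rk_union_le (M : Matroid α) [M.Finite] (X Y : Set α) :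
    rk M (X ∪ Y) ≤ rk M X + rk M Y := by
  have := rk_submod M X Y
  omega

lemma finite_of_subset_ground [M.Finite] (h : X ⊆ M.E) : X.Finite :=
  M.ground_finite.subset h

lemma finite_circuits (M : Matroid α) [M.Finite] : {C : Set α | M.IsCircuit C}.Finite := by
  apply (M.ground_finite.finite_subsets).subset
  intro C hC
  exact hC.subset_ground

lemma finite_circuits_mem (M : Matroid α) [M.Finite] (e : α) :
    {C : Set α | M.IsCircuit C ∧ e ∈ C}.Finite :=
  (finite_circuits M).subset fun _ h => h.1

lemma finite_circuits_mem2 (M : Matroid α) [M.Finite] (e f : α) :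
    {C : Set α | M.IsCircuit C ∧ e ∈ C ∧ f ∈ C}.Finite :=
  (finite_circuits M).subset fun _ h => h.1

lemma rk_eq_ncard_of_isBasis [M.Finite] {I : Set α} (h : M.IsBasis I X) : rk M X = I.ncard := by
  have h1 := h.encard_eq_eRk
  rw [← coe_rk] at h1
  have hf : I.Finite := finite_of_subset_ground h.indep.subset_ground
  rw [← hf.cast_ncard_eq] at h1
  exact_mod_cast h1.symm

lemma rk_le_ncard [M.Finite] (h : X ⊆ M.E) : rk M X ≤ X.ncard := by
  have h1 := M.eRk_le_encard X
  rw [← coe_rk, ← (finite_of_subset_ground h).cast_ncard_eq] at h1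
  exact_mod_cast h1

lemma rk_indep [M.Finite] {I : Set α} (h : M.Indep I) : rk M I = I.ncard :=
  rk_eq_ncard_of_isBasis h.isBasis_self

lemma rk_circuit [M.Finite] (h : M.IsCircuit C) : rk M C + 1 = C.ncard := by
  have h1 := h.eRk_add_one_eq
  rw [← coe_rk, ← (finite_of_subset_ground h.subset_ground).cast_ncard_eq] at h1
  exact_mod_cast h1

lemma rk_insert_of_mem_closure [M.Finite] (h : e ∈ M.closure X) :
    rk M (insert e X) = rk M X := by
  have h1 : M.closure (insert e X) = M.closure X := closure_insert_eq_of_mem_closure h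
  have h2 : M.eRk (insert e X) = M.eRk X := by
    rw [← M.eRk_closure_eq (insert e X), h1, M.eRk_closure_eq]
  rw [← coe_rk, ← coe_rk] at h2
  exact_mod_cast h2

lemma rk_insert_of_notMem_closure [M.Finite] (he : e ∈ M.E) (h : e ∉ M.closure X) :
    rk M (insert e X) = rk M X + 1 := by
  have h1 := M.eRk_insert_eq_add_one (e := e) (X := X) ⟨he, h⟩
  rw [← coe_rk, ← coe_rk] at h1
  exact_mod_cast h1

lemma rk_insert_le [M.Finite] (e : α) (X : Set α) : rk M (insert e X) ≤ rk M X + 1 := by
  have h1 := M.eRk_insert_le_add_one e X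
  rw [← coe_rk, ← coe_rk] at h1
  exact_mod_cast h1

lemma indep_iff_rk [M.Finite] {I : Set α} (hI : I ⊆ M.E) : M.Indep I ↔ rk M I = I.ncard := by
  constructor
  · exact rk_indep
  · intro h
    rw [indep_iff_eRk_eq_encard_of_finite (finite_of_subset_ground hI), ← coe_rk, h,
      (finite_of_subset_ground hI).cast_ncard_eq]

end rank

section counting

lemma delete_finite (M : Matroid α) [M.Finite] (D : Set α) : (M ＼ D).Finite := inferInstance

lemma cc_eq_delete_add_ce (M : Matroid α) [M.Finite] (e : α) :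
    cc M = cc (M ＼ {e}) + ce M e := by
  unfold cc ce
  have h1 : {C : Set α | M.IsCircuit C} =
      {C : Set α | (M ＼ {e}).IsCircuit C} ∪ {C : Set α | M.IsCircuit C ∧ e ∈ C} := by
    ext C
    simp only [mem_ofPred_eq, mem_union, delete_isCircuit_iff, disjoint_singleton_right]
    tauto
  rw [h1, ncard_union_eq _ (finite_circuits _) (finite_circuits_mem _ _)]
  rw [Set.disjoint_left]
  rintro C hC hC'
  simp only [mem_ofPred_eq, delete_isCircuit_iff, disjoint_singleton_right] at hC hC'
  exact hC.2 hC'.2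

lemma ce_eq_delete_add_cef (M : Matroid α) [M.Finite] (e f : α) :
    ce M e = ce (M ＼ {f}) e + cef M e f := by
  unfold ce cef
  have h1 : {C : Set α | M.IsCircuit C ∧ e ∈ C} =
      {C : Set α | (M ＼ {f}).IsCircuit C ∧ e ∈ C} ∪
        {C : Set α | M.IsCircuit C ∧ e ∈ C ∧ f ∈ C} := by
    ext C
    simp only [mem_ofPred_eq, mem_union, delete_isCircuit_iff, disjoint_singleton_right]
    tauto
  rw [h1, ncard_union_eq _ (finite_circuits_mem _ _) (finite_circuits_mem2 _ _ _)]
  rw [Set.disjoint_left]
  rintro C hC hC'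
  simp only [mem_ofPred_eq, delete_isCircuit_iff, disjoint_singleton_right] at hC hC'
  exact hC.1.2 hC'.2.2

/-- Double counting of pairs (circuit through `e`, other element). -/
lemma two_mul_ce_le_sum_cef (M : Matroid α) [M.Finite] (hM : Simp M) (e : α) {E' : Finset α}
    (hE' : (E' : Set α) = M.E \ {e}) :
    2 * ce M e ≤ ∑ f ∈ E', cef M e f := by
  classical
  have hfin := finite_circuits_mem M e
  set S := hfin.toFinset with hS
  have hSmem : ∀ C, C ∈ S ↔ M.IsCircuit C ∧ e ∈ C := by
    intro C; simp [hS]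
  have h1 : ce M e = S.card := by
    unfold ce
    rw [ncard_eq_toFinset_card _ hfin]
  have h2 : ∀ f, cef M e f = (S.filter (fun C => f ∈ C)).card := by
    intro f
    unfold cef
    rw [← ncard_coe_finset]
    congr 1
    ext C
    simp [hSmem, and_assoc]
  have h3 : ∑ f ∈ E', cef M e f = ∑ C ∈ S, (E'.filter (fun f => f ∈ C)).card := by
    simp_rw [h2, Finset.card_filter]
    rw [Finset.sum_comm]
  rw [h3, h1, mul_comm, ← smul_eq_mul, ← Finset.sum_const]
  apply Finset.sum_le_sum
  intro C hC
  rw [hSmem] at hC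
  have h4 : ((E'.filter (fun f => f ∈ C) : Finset α) : Set α) = C \ {e} := by
    ext x
    have hx : x ∈ E' ↔ x ∈ M.E \ {e} := by rw [← hE']; simp
    simp only [Finset.coe_filter, mem_ofPred_eq, hx, mem_sdiff, mem_singleton_iff]
    constructor
    · rintro ⟨⟨_, h⟩, h'⟩; exact ⟨h', h⟩
    · rintro ⟨h, h'⟩; exact ⟨⟨hC.1.subset_ground h, h'⟩, h⟩
  have h5 := hM C hC.1
  rw [← ncard_coe_finset, h4, ncard_sdiff_singleton_of_mem hC.2]
  omega

end counting

end RadonMin
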