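import Pool.Agent.helper6.Radon.Basic

/-!
Connectivity of finite matroids.
-/

open Set Matroid

namespace RadonMin

variable {α : Type*} {M : Matroid α} {e f : α} {A B X Y C D : Set α}

lemma rk_restrict (M : Matroid α) {R X : Set α} (h : X ⊆ R) : rk (M ↾ R) X = rk M X := by
  unfold rk
  rw [restrict_eRk_eq _ h]

lemma rk_delete (M : Matroid α) {D X : Set α} (h : X ⊆ M.E \ D) : rk (M ＼ D) X = rk M X := by
  rw [delete_eq_restrict]
  exact rk_restrict M h

/-- Restricting the ground set gives simple matroids. -/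
lemma Simp.delete (hM : Simp M) (D : Set α) : Simp (M ＼ D) := by
  intro C hC
  rw [delete_isCircuit_iff] at hC
  exact hM C hC.1

lemma Simp.restrict (hM : Simp M) {R : Set α} (hR : R ⊆ M.E) : Simp (M ↾ R) := by
  intro C hC
  rw [restrict_isCircuit_iff hR] at hC
  exact hM C hC.1

lemma subset_or_subset_of_rk [M.Finite] (hA : A ⊆ M.E) (h : rk M A + rk M (M.E \ A) ≤ rk M M.E)
    (hC : M.IsCircuit C) : C ⊆ A ∨ C ⊆ M.E \ A := by
  by_contra hcon
  push Not at hcon
  obtain ⟨h1, h2⟩ := hcon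
  have hCE := hC.subset_ground
  have hi1 : M.Indep (C ∩ A) := by
    apply hC.ssubset_indep
    refine ssubset_of_subset_of_ne inter_subset_left ?_
    intro heq
    exact h1 (inter_eq_left.mp heq)
  have hi2 : M.Indep (C ∩ (M.E \ A)) := by
    apply hC.ssubset_indep
    refine ssubset_of_subset_of_ne inter_subset_left ?_
    intro heq
    exact h2 (inter_eq_left.mp heq)
  obtain ⟨I, hI, hCI⟩ := hi1.subset_isBasis_of_subset inter_subset_right hA
  obtain ⟨J, hJ, hCJ⟩ := hi2.subset_isBasis_of_subset inter_subset_right sdiff_subset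
  have hr1 := rk_eq_ncard_of_isBasis hI
  have hr2 := rk_eq_ncard_of_isBasis hJ
  have hIE := hI.indep.subset_ground
  have hJE := hJ.indep.subset_ground
  have hr3 : M.eRk (I ∪ J) = M.eRk M.E := by
    rw [hI.eRk_eq_eRk_union, union_comm, hJ.eRk_eq_eRk_union, sdiff_union_self,
      union_eq_self_of_subset_right hA]
  have hr4 : rk M (I ∪ J) = rk M M.E := by
    rw [← coe_rk, ← coe_rk] at hr3
    exact_mod_cast hr3
  have hle := ncard_union_le I J
  have hle2 := rk_le_ncard (M := M) (union_subset hIE hJE)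
  have hind : M.Indep (I ∪ J) := by
    rw [indep_iff_rk (union_subset hIE hJE)]
    omega
  apply hC.not_indep
  apply hind.subset
  intro x hx
  by_cases hxA : x ∈ A
  · exact Or.inl (hCI ⟨hx, hxA⟩)
  · exact Or.inr (hCJ ⟨hx, hCE hx, hxA⟩)

lemma rk_of_subset_or_subset [M.Finite] (hA : A ⊆ M.E)
    (h : ∀ C, M.IsCircuit C → C ⊆ A ∨ C ⊆ M.E \ A) : rk M A + rk M (M.E \ A) ≤ rk M M.E := by
  obtain ⟨I, hI⟩ := M.exists_isBasis A
  obtain ⟨J, hJ⟩ := M.exists_isBasis (M.E \ A) sdiff_subset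
  have hr1 := rk_eq_ncard_of_isBasis hI
  have hr2 := rk_eq_ncard_of_isBasis hJ
  have hIE := hI.indep.subset_ground
  have hJE := hJ.indep.subset_ground
  have hdisj : Disjoint I J := by
    rw [Set.disjoint_left]
    intro x hx hx'
    exact (hJ.subset hx').2 (hI.subset hx)
  have hind : M.Indep (I ∪ J) := by
    rw [indep_iff_forall_subset_not_isCircuit (union_subset hIE hJE)]
    intro C hCs hC
    rcases h C hC with h1 | h1
    · apply hC.not_indep
      apply hI.indep.subset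
      intro x hx
      rcases hCs hx with h2 | h2
      · exact h2
      · exact absurd (h1 hx) (hJ.subset h2).2
    · apply hC.not_indep
      apply hJ.indep.subset
      intro x hx
      rcases hCs hx with h2 | h2
      · exact absurd (hI.subset h2) (h1 hx).2
      · exact h2
  have h3 := rk_indep hind
  have h4 : rk M (I ∪ J) ≤ rk M M.E := rk_mono M (union_subset hIE hJE)
  rw [ncard_union_eq hdisj (finite_of_subset_ground hIE) (finite_of_subset_ground hJE)] at h3
  omega

lemma Conn.exists_circuit [M.Finite] (hM : Conn M) (hA : A ⊆ M.E) (h1 : A.Nonempty)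
    (h2 : (M.E \ A).Nonempty) : ∃ C, M.IsCircuit C ∧ ¬ C ⊆ A ∧ ¬ C ⊆ M.E \ A := by
  by_contra hcon
  push Not at hcon
  have := rk_of_subset_or_subset hA (fun C hC => by
    by_cases h : C ⊆ A
    · exact Or.inl h
    · exact Or.inr (hcon C hC h))
  have := hM A hA h1 h2
  omega

/-- In a connected matroid any two elements lie in a common circuit. -/
lemma Conn.exists_common_circuit [M.Finite] (hM : Conn M) (he : e ∈ M.E) (hf : f ∈ M.E)
    (hef : e ≠ f) : ∃ C, M.IsCircuit C ∧ e ∈ C ∧ f ∈ C := by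
  set K : Set α := {x | x ∈ M.E ∧ (x = e ∨ ∃ C, M.IsCircuit C ∧ e ∈ C ∧ x ∈ C)} with hK
  have hKE : K ⊆ M.E := fun x hx => hx.1
  by_contra hcon
  have hfK : f ∈ M.E \ K := by
    refine ⟨hf, fun h => ?_⟩
    rcases h.2 with h | h
    · exact hef h.symm
    · exact hcon h
  have heK : e ∈ K := ⟨he, Or.inl rfl⟩
  obtain ⟨C, hC, hC1, hC2⟩ := hM.exists_circuit hKE ⟨e, heK⟩ ⟨f, hfK⟩
  obtain ⟨y, hyC, hyK⟩ := not_subset.mp hC1
  have : ∃ x ∈ C, x ∈ K := by
    obtain ⟨x, hxC, hx⟩ := not_subset.mp hC2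
    refine ⟨x, hxC, ?_⟩
    by_contra h
    exact hx ⟨hC.subset_ground hxC, h⟩
  obtain ⟨x, hxC, hxK⟩ := this
  have hyE := hC.subset_ground hyC
  -- no circuit through `e` and `y`
  have hy : ∀ C', M.IsCircuit C' → e ∈ C' → y ∉ C' := by
    intro C' hC' h1 h2
    exact hyK ⟨hyE, Or.inr ⟨C', hC', h1, h2⟩⟩
  -- minimal pair
  have key : ∀ n : ℕ, ∀ C₁ C₂ : Set α, (C₁ ∪ C₂).ncard = n → M.IsCircuit C₁ → M.IsCircuit C₂ →
      e ∈ C₁ → y ∈ C₂ → ∀ z, z ∈ C₁ → z ∈ C₂ → False := by
    intro n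
    induction n using Nat.strong_induction_on with
    | _ n ih =>
      intro C₁ C₂ hn hC₁ hC₂ he1 hy2 z hz1 hz2
      have hfin : (C₁ ∪ C₂).Finite :=
        finite_of_subset_ground (union_subset hC₁.subset_ground hC₂.subset_ground)
      have he2 : e ∉ C₂ := fun h => hy C₂ hC₂ h hy2
      have hy1 : y ∉ C₁ := hy C₁ hC₁ he1
      obtain ⟨C₃, hC₃s, hC₃, he3⟩ := hC₁.strong_elimination hC₂ hz1 hz2 he1 he2
      obtain ⟨C₄, hC₄s, hC₄, hy4⟩ := hC₂.strong_elimination hC₁ hz2 hz1 hy2 hy1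
      have hz3 : z ∉ C₃ := fun h => (hC₃s h).2 rfl
      have hz4 : z ∉ C₄ := fun h => (hC₄s h).2 rfl
      -- an element of `C₃` in `C₂ \ C₁`
      have h3 : ∃ w ∈ C₃, w ∈ C₂ ∧ w ∉ C₁ := by
        by_contra hno
        push Not at hno
        have hsub : C₃ ⊆ C₁ := by
          intro w hw
          by_contra hw1
          rcases (hC₃s hw).1 with h | h
          · exact hw1 h
          · exact hw1 (hno w hw h)
        have := hC₁.eq_of_superset_isCircuit hC₃ hsub
        rw [this] at hz1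
        exact hz3 hz1
      have h4 : ∃ w ∈ C₄, w ∈ C₁ ∧ w ∉ C₂ := by
        by_contra hno
        push Not at hno
        have hsub : C₄ ⊆ C₂ := by
          intro w hw
          by_contra hw1
          rcases (hC₄s hw).1 with h | h
          · exact hw1 h
          · exact hw1 (hno w hw h)
        have := hC₂.eq_of_superset_isCircuit hC₄ hsub
        rw [this] at hz2
        exact hz4 hz2
      obtain ⟨w3, hw3, hw32, hw31⟩ := h3
      obtain ⟨w4, hw4, hw41, hw42⟩ := h4
      -- minimality forces equality of unions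
      have hu3 : C₃ ∪ C₂ = C₁ ∪ C₂ := by
        have hsub : C₃ ∪ C₂ ⊆ C₁ ∪ C₂ :=
          union_subset (fun w hw => (hC₃s hw).1) subset_union_right
        by_contra hne
        have hlt : (C₃ ∪ C₂).ncard < (C₁ ∪ C₂).ncard :=
          ncard_lt_ncard (ssubset_of_subset_of_ne hsub hne) hfin
        exact ih _ (hn ▸ hlt) C₃ C₂ rfl hC₃ hC₂ he3 hy2 w3 hw3 hw32
      have hu4 : C₁ ∪ C₄ = C₁ ∪ C₂ := by
        have hsub : C₁ ∪ C₄ ⊆ C₁ ∪ C₂ :=
          union_subset subset_union_left (fun w hw => (hC₄s hw).1.symm)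
        by_contra hne
        have hlt : (C₁ ∪ C₄).ncard < (C₁ ∪ C₂).ncard :=
          ncard_lt_ncard (ssubset_of_subset_of_ne hsub hne) hfin
        exact ih _ (hn ▸ hlt) C₁ C₄ rfl hC₁ hC₄ he1 hy4 w4 hw41 hw4
      -- `w3 ∈ C₂ \ C₁ ⊆ C₄`
      have hw34 : w3 ∈ C₄ := by
        have : w3 ∈ C₁ ∪ C₄ := by rw [hu4]; exact Or.inr hw32
        rcases this with h | h
        · exact absurd h hw31
        · exact h
      have hlt : (C₃ ∪ C₄).ncard < (C₁ ∪ C₂).ncard := by
        apply ncard_lt_ncard _ hfin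
        refine ssubset_of_subset_of_ne
          (union_subset (fun w hw => (hC₃s hw).1) (fun w hw => (hC₄s hw).1.symm)) ?_
        intro heq
        have : z ∈ C₃ ∪ C₄ := by rw [heq]; exact Or.inl hz1
        rcases this with h | h
        · exact hz3 h
        · exact hz4 h
      exact ih _ (hn ▸ hlt) C₃ C₄ rfl hC₃ hC₄ he3 hy4 w3 hw3 hw34
  rcases hxK.2 with rfl | ⟨C', hC', heC', hxC'⟩
  · exact hy C hC hxC hyC
  · exact key _ C' C rfl hC' hC heC' hyC x hxC' hxC

end RadonMin
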