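import Pool.Agent.helper6.Radon.Conn

/-!
Contraction of one element and connectivity.
-/

open Set Matroid

namespace RadonMin

variable {α : Type*} {M : Matroid α} {e f : α} {A B X Y C D : Set α}

lemma Simp.isNonloop (hM : Simp M) (he : e ∈ M.E) : M.IsNonloop e := by
  rw [← not_isLoop_iff]
  intro h
  rw [← singleton_isCircuit] at h
  have := hM _ h
  simp at this

lemma rk_contract [M.Finite] (hf : M.IsNonloop f) (hX : X ⊆ M.E \ {f}) :
    rk (M ／ {f}) X + 1 = rk M (insert f X) := by
  have hfE := hf.mem_ground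
  have hXE : insert f X ⊆ M.E := insert_subset hfE (hX.trans sdiff_subset)
  have hfX : f ∉ X := fun h => (hX h).2 rfl
  obtain ⟨J, hJ, hfJ⟩ := hf.indep.subset_isBasis_of_subset
    (singleton_subset_iff.mpr (mem_insert f X)) hXE
  have h1 := hJ.contract_isBasis_sdiff_sdiff_of_subset hfJ
  have h2 : insert f X \ {f} = X := by
    rw [insert_sdiff_of_mem _ (mem_singleton f), sdiff_singleton_eq_self hfX]
  rw [h2] at h1
  rw [rk_eq_ncard_of_isBasis h1, rk_eq_ncard_of_isBasis hJ]
  have hfJ' : f ∈ J := hfJ rfl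
  rw [ncard_sdiff_singleton_of_mem hfJ']
  have : 0 < J.ncard := by
    rw [ncard_pos (finite_of_subset_ground hJ.indep.subset_ground)]
    exact ⟨f, hfJ'⟩
  omega

/-- A circuit of `M ／ {f}` is a circuit of `M`, possibly after adding `f`. -/
lemma circuit_of_contract (hC : (M ／ {f}).IsCircuit C) :
    M.IsCircuit C ∨ M.IsCircuit (insert f C) := by
  obtain ⟨C', hC', h1, h2⟩ := hC.exists_subset_isCircuit_of_contract
  by_cases hf : f ∈ C'
  · right
    have : C' = insert f C := by
      apply Subset.antisymm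
      · intro x hx
        rcases h2 hx with h | h
        · exact Or.inr h
        · exact Or.inl h
      · exact insert_subset hf h1
    rwa [← this]
  · left
    have : C' = C := by
      apply Subset.antisymm _ h1
      intro x hx
      rcases h2 hx with h | h
      · exact h
      · rw [mem_singleton_iff] at h
        rw [h] at hx
        exact absurd hx hf
    rwa [← this]

lemma notMem_of_contract_circuit (hC : (M ／ {f}).IsCircuit C) : f ∉ C := by
  intro h
  have := hC.subset_ground h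
  rw [contract_ground] at this
  exact this.2 rfl

lemma ce_contract_le (M : Matroid α) [M.Finite] (e f : α) :
    ce (M ／ {f}) e ≤ ce M e := by
  classical
  unfold ce
  have key : ∀ C ∈ {C : Set α | (M ／ {f}).IsCircuit C ∧ e ∈ C},
      (if M.IsCircuit C then C else insert f C) ∈ {C : Set α | M.IsCircuit C ∧ e ∈ C} := by
    intro C hC
    split_ifs with h
    · exact ⟨h, hC.2⟩
    · exact ⟨(circuit_of_contract hC.1).resolve_left h, Or.inr hC.2⟩
  apply ncard_le_ncard_of_injOn (fun C => if M.IsCircuit C then C else insert f C) key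
    (ht := finite_circuits_mem M e)
  · intro C hC C' hC' h
    have h1 := notMem_of_contract_circuit hC.1
    have h2 := notMem_of_contract_circuit hC'.1
    have h3 : ∀ D : Set α, f ∉ D → (if M.IsCircuit D then D else insert f D) \ {f} = D := by
      intro D hD
      split_ifs
      · exact sdiff_singleton_eq_self hD
      · rw [insert_sdiff_of_mem _ (mem_singleton f), sdiff_singleton_eq_self hD]
    rw [← h3 C h1, ← h3 C' h2]
    exact congrArg (· \ {f}) h

/-- Rank of the complement of an element in a circuit. -/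
lemma rk_sdiff_singleton_of_circuit [M.Finite] (hC : M.IsCircuit C) (hf : f ∈ C) :
    rk M (M.E \ {f}) = rk M M.E := by
  have h1 : f ∈ M.closure (C \ {f}) := hC.mem_closure_sdiff_singleton_of_mem hf
  have h2 : f ∈ M.closure (M.E \ {f}) :=
    M.closure_mono (sdiff_subset_sdiff_left hC.subset_ground) h1
  have h3 := rk_insert_of_mem_closure h2
  rw [insert_sdiff_singleton, insert_eq_of_mem (hC.subset_ground hf)] at h3
  exact h3.symm

lemma rk_insert_le_of_rk (M : Matroid α) [M.Finite] (hX : f ∈ M.E) (h : rk M (insert f X) ≤ rk M X)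
    (hXY : X ⊆ Y) : rk M (insert f Y) ≤ rk M Y := by
  have : f ∈ M.closure X := by
    by_contra hcon
    have := rk_insert_of_notMem_closure hX hcon
    omega
  rw [rk_insert_of_mem_closure (M.closure_mono hXY this)]

/-- If `M` is connected and `M ＼ {f}` is not, then `M ／ {f}` is. -/
lemma Conn.contract [M.Finite] (hM : Conn M) (hs : M.IsNonloop f)
    (hnc : ¬ Conn (M ＼ {f})) (hrk : rk M (M.E \ {f}) = rk M M.E) : Conn (M ／ {f}) := by
  have hfE := hs.mem_ground
  intro P hP hP1 hQ1
  rw [contract_ground] at hP hQ1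
  rw [contract_ground]
  unfold Conn at hnc
  push Not at hnc
  obtain ⟨A, hA, hA1, hB1, hAB⟩ := hnc
  rw [delete_ground] at hA hB1
  rw [delete_ground] at hAB
  rw [rk_delete M le_rfl, rk_delete M hA, rk_delete M sdiff_subset, hrk] at hAB
  set B := (M.E \ {f}) \ A with hB
  set Q := (M.E \ {f}) \ P with hQ
  have hBE : B ⊆ M.E \ {f} := sdiff_subset
  have hQE : Q ⊆ M.E \ {f} := sdiff_subset
  have hPrk := rk_contract hs hP
  have hQrk := rk_contract hs hQE
  have hErk := rk_contract hs (le_refl (M.E \ {f}))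
  rw [insert_sdiff_singleton, insert_eq_of_mem hfE] at hErk
  -- general connectivity consequence
  have hcon : ∀ S : Set α, S ⊆ M.E \ {f} → S.Nonempty →
      rk M M.E < rk M S + rk M (insert f ((M.E \ {f}) \ S)) := by
    intro S hS hSne
    have h1 : M.E \ S = insert f ((M.E \ {f}) \ S) := by
      ext x
      simp only [mem_sdiff, mem_singleton_iff, mem_insert_iff]
      constructor
      · rintro ⟨h1, h2⟩
        by_cases hx : x = f
        · exact Or.inl hx
        · exact Or.inr ⟨⟨h1, hx⟩, h2⟩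
      · rintro (rfl | ⟨⟨h1, h2⟩, h3⟩)
        · exact ⟨hfE, fun h => (hS h).2 rfl⟩
        · exact ⟨h1, h3⟩
    have h2 := hM S (hS.trans sdiff_subset) hSne (by rw [h1]; exact ⟨f, Or.inl rfl⟩)
    rwa [h1] at h2
  by_contra hcontra
  push Not at hcontra
  -- the uncrossing inequality
  have unc : ∀ A B P Q : Set α, A ⊆ M.E \ {f} → P ⊆ M.E \ {f} → B = (M.E \ {f}) \ A →
      Q = (M.E \ {f}) \ P → rk M A + rk M B ≤ rk M M.E →
      rk M (insert f P) + rk M (insert f Q) ≤ rk M M.E + 1 →
      (B ∩ Q).Nonempty → (A ∩ P).Nonempty → False := by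
    intro A B P Q hA hP hB hQ h1 h2 h3 h4
    have s1 := rk_submod M A (insert f P)
    have s2 := rk_submod M B (insert f Q)
    have e1 : A ∩ insert f P = A ∩ P := by
      ext x; simp only [mem_inter_iff, mem_insert_iff]
      constructor
      · rintro ⟨h, rfl | h'⟩
        · exact absurd rfl (hA h).2
        · exact ⟨h, h'⟩
      · rintro ⟨h, h'⟩; exact ⟨h, Or.inr h'⟩
    have e2 : B ∩ insert f Q = B ∩ Q := by
      ext x; simp only [mem_inter_iff, mem_insert_iff]
      constructor
      · rintro ⟨h, rfl | h'⟩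
        · rw [hB] at h; exact absurd rfl h.1.2
        · exact ⟨h, h'⟩
      · rintro ⟨h, h'⟩; exact ⟨h, Or.inr h'⟩
    rw [e1] at s1
    rw [e2] at s2
    have c1 := hcon (B ∩ Q) (inter_subset_right.trans (by rw [hQ]; exact sdiff_subset)) h3
    have c2 := hcon (A ∩ P) (inter_subset_left.trans hA) h4
    have e3 : insert f ((M.E \ {f}) \ (B ∩ Q)) = A ∪ insert f P := by
      ext x
      simp only [mem_insert_iff, mem_sdiff, mem_singleton_iff, mem_inter_iff, mem_union, hB, hQ]
      constructor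
      · rintro (h | ⟨⟨hxE, hxf⟩, hx⟩)
        · exact Or.inr (Or.inl h)
        · by_cases hxA : x ∈ A
          · exact Or.inl hxA
          · by_cases hxP : x ∈ P
            · exact Or.inr (Or.inr hxP)
            · exact absurd ⟨⟨⟨hxE, hxf⟩, hxA⟩, ⟨⟨hxE, hxf⟩, hxP⟩⟩ hx
      · rintro (h | h | h)
        · exact Or.inr ⟨⟨(hA h).1, (hA h).2⟩, fun hx => hx.1.2 h⟩
        · exact Or.inl h
        · exact Or.inr ⟨⟨(hP h).1, (hP h).2⟩, fun hx => hx.2.2 h⟩
    have e4 : insert f ((M.E \ {f}) \ (A ∩ P)) = B ∪ insert f Q := by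
      ext x
      simp only [mem_insert_iff, mem_sdiff, mem_singleton_iff, mem_inter_iff, mem_union, hB, hQ]
      constructor
      · rintro (h | ⟨⟨hxE, hxf⟩, hx⟩)
        · exact Or.inr (Or.inl h)
        · by_cases hxA : x ∈ A
          · exact Or.inr (Or.inr ⟨⟨hxE, hxf⟩, fun h => hx ⟨hxA, h⟩⟩)
          · exact Or.inl ⟨⟨hxE, hxf⟩, hxA⟩
      · rintro (h | h | h)
        · exact Or.inr ⟨h.1, fun hx => h.2 hx.1⟩
        · exact Or.inl h
        · exact Or.inr ⟨h.1, fun hx => h.2 hx.2⟩
    rw [e3] at c1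
    rw [e4] at c2
    omega
  have hPQ : rk M (insert f P) + rk M (insert f Q) ≤ rk M M.E + 1 := by omega
  have hBA : A = (M.E \ {f}) \ B := by
    rw [hB, sdiff_sdiff_cancel_left hA]
  have hQP : P = (M.E \ {f}) \ Q := by
    rw [hQ, sdiff_sdiff_cancel_left hP]
  have u1 := unc A B P Q hA hP hB hQ hAB hPQ
  have u2 := unc A B Q P hA hQE hB hQP hAB (by omega)
  have u3 := unc B A P Q hBE hP hBA hQ (by omega) hPQ
  have u4 := unc B A Q P hBE hQE hBA hQP (by omega) (by omega)
  -- points
  obtain ⟨a, ha⟩ := hA1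
  obtain ⟨b, hb⟩ := hB1
  obtain ⟨p, hp⟩ := hP1
  obtain ⟨q, hq⟩ := hQ1
  have hcase : ∀ x ∈ M.E \ {f}, (x ∈ A ∨ x ∈ B) ∧ (x ∈ P ∨ x ∈ Q) := by
    intro x hx
    refine ⟨?_, ?_⟩
    · by_cases h : x ∈ A
      · exact Or.inl h
      · exact Or.inr ⟨hx, h⟩
    · by_cases h : x ∈ P
      · exact Or.inl h
      · exact Or.inr ⟨hx, h⟩
  have ca := (hcase a (hA ha)).2
  have cb := (hcase b (hBE hb)).2
  have cp := (hcase p (hP hp)).1
  have cq := (hcase q (hQE hq)).1
  -- u1: not both `B ∩ Q` and `A ∩ P`; u2: not both `B ∩ P` and `A ∩ Q`;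
  rcases ca with ca | ca <;> rcases cb with cb | cb
  · -- a ∈ A ∩ P, b ∈ B ∩ P ; q ∈ A or B
    rcases cq with cq | cq
    · exact u2 ⟨b, hb, cb⟩ ⟨q, cq, hq⟩
    · exact u1 ⟨q, cq, hq⟩ ⟨a, ha, ca⟩
  · exact u1 ⟨b, hb, cb⟩ ⟨a, ha, ca⟩
  · exact u2 ⟨b, hb, cb⟩ ⟨a, ha, ca⟩
  · rcases cp with cp | cp
    · exact u1 ⟨b, hb, cb⟩ ⟨p, cp, hp⟩
    · exact u2 ⟨p, cp, hp⟩ ⟨a, ha, ca⟩

end RadonMin
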