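import Pool.Agent.helper6.Radon.Quad

/-!
The minimum is attained in every dimension.
-/

open Set Matroid

namespace RadonMin

lemma exists_odd (k : ℕ) : ∀ s, HasSet' (2 * k + 1) s (bal (k + 1) s) := by
  induction k with
  | zero =>
    intro s
    have h : bal (0 + 1) s = s.choose 3 := by
      unfold bal
      simp [Nat.mod_one]
    rw [h]
    exact hasSet'_one s
  | succ k ih =>
    intro s
    have hst := Nat.div_add_mod s (k + 2)
    have hmod := Nat.mod_lt s (show k + 2 > 0 by omega)
    set q := s / (k + 2) with hq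
    set t := s % (k + 2) with ht
    have hsq : s = q * (k + 1 + 1) + t := by rw [← hst]; ring
    have hsq' : s = (q * (k + 1) + t) + q := by rw [hsq]; ring
    have h1 := (ih (q * (k + 1) + t)).step q
    rw [bal_eq (k + 1) q t (by omega) (by omega)] at h1
    rw [← hsq'] at h1
    have e1 : 2 * (k + 1) + 1 = 2 * k + 1 + 2 := by ring
    rw [e1]
    refine h1.mono ?_
    rw [hsq, bal_eq (k + 1 + 1) q t (by omega) (by omega)]
    apply le_of_eq
    ring

lemma exists_even_aux (q : ℕ) (hq : 2 ≤ q) (k : ℕ) : ∀ t, 1 ≤ t → t ≤ k + 1 →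
    HasSet' (2 * (k + 1)) (q * (k + 1) + t + 1)
      ((k + 1) * q.choose 3 + t * q.choose 2 - corr (q + 1)) := by
  have hch : (q + 1).choose 3 = q.choose 2 + q.choose 3 := Nat.choose_succ_succ' q 2
  have hcl : corr (q + 1) ≤ q.choose 2 + q.choose 3 := by
    have := corr_le (q + 1)
    rwa [hch] at this
  induction k with
  | zero =>
    intro t h1 h2
    have ht : t = 1 := by omega
    subst ht
    have h := hasSet'_two (q + 2) (by omega)
    have e : hh (q + 2) = (0 + 1) * q.choose 3 + 1 * q.choose 2 - corr (q + 1) := by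
      unfold hh
      rw [show q + 2 - 1 = q + 1 by omega, hch]
      congr 1
      ring
    rw [e] at h
    have e2 : q * (0 + 1) + 1 + 1 = q + 2 := by ring
    rw [e2]
    exact h
  | succ k ih =>
    intro t h1 h2
    have e1 : 2 * (k + 1 + 1) = 2 * (k + 1) + 2 := by ring
    rw [e1]
    rcases Nat.lt_or_ge k.succ t with hlt | hge
    · have ht : t = k + 2 := by omega
      have h := (ih (k + 1) (by omega) le_rfl).step (q + 1)
      have e2 : q * (k + 1) + (k + 1) + 1 + (q + 1) = q * (k + 1 + 1) + t + 1 := by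
        rw [ht]; ring
      rw [e2] at h
      refine h.mono ?_
      rw [ht, hch]
      have h3 : q.choose 2 + q.choose 3 ≤ (k + 1) * q.choose 3 + (k + 1) * q.choose 2 := by
        nlinarith [Nat.zero_le (k * q.choose 3), Nat.zero_le (k * q.choose 2)]
      have h4 : (k + 1 + 1) * q.choose 3 + (k + 2) * q.choose 2 =
        ((k + 1) * q.choose 3 + (k + 1) * q.choose 2) + (q.choose 2 + q.choose 3) := by ring
      rw [h4]
      omega
    · have h := (ih t h1 hge).step q
      have e2 : q * (k + 1) + t + 1 + q = q * (k + 1 + 1) + t + 1 := by ring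
      rw [e2] at h
      refine h.mono ?_
      have h3 : q.choose 2 + q.choose 3 ≤ (k + 1) * q.choose 3 + t * q.choose 2 := by
        have h5 : q.choose 2 ≤ t * q.choose 2 := Nat.le_mul_of_pos_left _ h1
        have h6 : q.choose 3 ≤ (k + 1) * q.choose 3 := Nat.le_mul_of_pos_left _ (by omega)
        omega
      have h4 : (k + 1 + 1) * q.choose 3 + t * q.choose 2 =
        ((k + 1) * q.choose 3 + t * q.choose 2) + q.choose 3 := by ring
      rw [h4]
      omega

lemma exists_even (k s : ℕ) (hs : 2 * (k + 1) + 2 ≤ s) :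
    HasSet' (2 * (k + 1)) s (bal (k + 1) (s - 1) - corr ((s - 1 + (k + 1) - 1) / (k + 1))) := by
  set x := s - 1 with hx
  have hL := Nat.div_add_mod (x + (k + 1) - 1) (k + 1)
  have hmod := Nat.mod_lt (x + (k + 1) - 1) (show k + 1 > 0 by omega)
  set L := (x + (k + 1) - 1) / (k + 1) with hLdef
  have hL3 : 3 ≤ L := by
    by_contra hlt
    have : L ≤ 2 := by omega
    have h1 : (k + 1) * L ≤ (k + 1) * 2 := Nat.mul_le_mul_left (k + 1) this
    omega
  obtain ⟨q, hq⟩ : ∃ q, L = q + 1 := ⟨L - 1, by omega⟩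
  have hq2 : 2 ≤ q := by omega
  have hqk : (k + 1) * L = q * (k + 1) + (k + 1) := by rw [hq]; ring
  obtain ⟨t, ht⟩ : ∃ t, x = q * (k + 1) + t := ⟨x - q * (k + 1), by omega⟩
  have ht1 : 1 ≤ t := by omega
  have htk : t ≤ k + 1 := by omega
  have hs' : s = q * (k + 1) + t + 1 := by omega
  rw [ht, bal_eq (k + 1) q t (by omega) htk, hq, hs']
  exact exists_even_aux q hq2 k t ht1 htk

theorem exists_min (d s : ℕ) (hd : 1 ≤ d) (hs : d + 2 ≤ s) : HasSet' d s (radonMin d s) := by
  unfold radonMin
  split_ifs with h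
  · obtain ⟨k, rfl⟩ : ∃ k, d = 2 * k + 1 := ⟨d / 2, by omega⟩
    have e : (2 * k + 1 + 1) / 2 = k + 1 := by omega
    rw [e]
    exact exists_odd k s
  · obtain ⟨k, rfl⟩ : ∃ k, d = 2 * (k + 1) := ⟨d / 2 - 1, by omega⟩
    have e : 2 * (k + 1) / 2 = k + 1 := by omega
    rw [e]
    exact exists_even k s hs

end RadonMin
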