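import Pool.Agent.helper6.Radon.Contr

/-!
A sharp lower bound for the number of circuits through an element of a connected simple matroid.
-/

open Set Matroid

namespace RadonMin

variable {α : Type*} {M : Matroid α} {e f : α} {A B X Y C D : Set α}

lemma two_choose (j : ℕ) : (2 : ℤ) * ((j + 1).choose 2 : ℤ) = j * (j + 1) := by
  have h : (j + 1).choose 2 * 2 = (j + 1) * j := by
    rw [Nat.choose_two_right, Nat.add_sub_cancel]
    exact Nat.div_mul_cancel (Nat.even_mul_pred_self (j + 1)).two_dvd
  have h' : (((j + 1).choose 2 * 2 : ℕ) : ℤ) = (((j + 1) * j : ℕ) : ℤ) := by rw [h]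
  push_cast at h'
  linarith

lemma rk_ground_pos [M.Finite] (hs : Simp M) (he : e ∈ M.E) : 1 ≤ rk M M.E := by
  have h1 := rk_indep (hs.isNonloop he).indep
  rw [ncard_singleton] at h1
  rw [← h1]
  exact rk_mono M (singleton_subset_iff.mpr he)

lemma rk_ground_le [M.Finite] : rk M M.E ≤ M.E.ncard := rk_le_ncard le_rfl

/-- Deleting a parallel element keeps connectivity. -/
lemma Conn.delete_parallel [M.Finite] (hM : Conn M) {x y : α} (hx : x ∈ M.E) (hy : y ∈ M.E)
    (hxy : x ≠ y) (hpar : y ∈ M.closure {x}) : Conn (M ＼ {y}) := by
  intro A hA hA1 hB1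
  rw [delete_ground] at hA hB1
  rw [delete_ground, rk_delete M le_rfl, rk_delete M hA, rk_delete M sdiff_subset]
  have hle : rk M (M.E \ {y}) ≤ rk M M.E := rk_mono M sdiff_subset
  set B := (M.E \ {y}) \ A with hB
  have key : ∀ A B : Set α, A ⊆ M.E \ {y} → B = (M.E \ {y}) \ A → A.Nonempty → B.Nonempty →
      x ∈ A → rk M M.E < rk M A + rk M B := by
    intro A B hA hB hA1 hB1 hxA
    have h1 : M.E \ insert y A = B := by
      rw [hB]; ext z
      simp only [mem_sdiff, mem_insert_iff, mem_singleton_iff]
      tauto
    have h2 := hM (insert y A) (insert_subset hy (hA.trans sdiff_subset)) (insert_nonempty _ _)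
      (by rw [h1]; exact hB1)
    rw [h1] at h2
    have h3 : rk M (insert y A) = rk M A :=
      rk_insert_of_mem_closure (M.closure_mono (singleton_subset_iff.mpr hxA) hpar)
    omega
  by_cases hxA : x ∈ A
  · have := key A B hA hB hA1 hB1 hxA
    omega
  · have := key B A sdiff_subset (by rw [hB, sdiff_sdiff_cancel_left hA]) hB1 hA1
      ⟨⟨hx, by simpa using hxy⟩, hxA⟩
    omega

theorem ce_lower_aux (n : ℕ) : ∀ (M : Matroid α) [M.Finite], Simp M → Conn M → M.E.ncard = n →
    ∀ e ∈ M.E, ∀ j : ℕ, (j : ℤ) * ((n : ℤ) - 1) - ((j + 1).choose 2 : ℤ) * ((rk M M.E : ℤ) - 1)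
      ≤ ce M e := by
  induction n using Nat.strong_induction_on with
  | _ n ih =>
  intro M _ hs hc hn e he j
  have hEfin : M.E.Finite := M.ground_finite
  have hr1 : 1 ≤ rk M M.E := rk_ground_pos hs he
  have hn1 : 1 ≤ n := by
    rw [← hn, Nat.one_le_iff_ne_zero, Ne, ncard_eq_zero hEfin]
    intro h; rw [h] at he; exact he
  -- trivial case `n = 1`
  rcases Nat.eq_or_lt_of_le hn1 with hn1' | hn2
  · subst hn1'
    have h2 : 0 ≤ ((j + 1).choose 2 : ℤ) := by positivity
    have h3 : (0 : ℤ) ≤ (rk M M.E : ℤ) - 1 := by
      have : (1 : ℤ) ≤ (rk M M.E : ℤ) := by exact_mod_cast hr1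
      linarith
    have h4 : (0 : ℤ) ≤ ce M e := by positivity
    have h5 := mul_nonneg h2 h3
    push_cast
    linarith
  -- every element lies in a circuit
  have hother : ∃ g ∈ M.E, g ≠ e := by
    by_contra hcon
    push Not at hcon
    have : M.E ⊆ {e} := fun g hg => hcon g hg
    have := ncard_le_ncard this (finite_singleton e)
    rw [ncard_singleton] at this
    omega
  obtain ⟨g, hg, hge⟩ := hother
  obtain ⟨Cg, hCg, heCg, -⟩ := hc.exists_common_circuit he hg hge.symm
  have hce1 : 1 ≤ ce M e := by
    unfold ce
    rw [Nat.one_le_iff_ne_zero, Ne, ncard_eq_zero (finite_circuits_mem M e)]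
    intro h
    have : Cg ∈ {C : Set α | M.IsCircuit C ∧ e ∈ C} := ⟨hCg, heCg⟩
    rw [h] at this
    exact this
  by_cases hcase : ∃ f ∈ M.E, f ≠ e ∧ ¬ Conn (M ＼ {f})
  · -- Case 1
    obtain ⟨f, hf, hfe, hnc⟩ := hcase
    obtain ⟨C0, hC0, he0, hf0⟩ := hc.exists_common_circuit he hf hfe.symm
    have hrk := rk_sdiff_singleton_of_circuit hC0 hf0
    have hfl := hs.isNonloop hf
    have hcN := hc.contract hfl hnc hrk
    have hNE : (M ／ {f}).E = M.E \ {f} := contract_ground M {f}
    have hNn : (M ／ {f}).E.ncard = n - 1 := by
      rw [hNE, ncard_sdiff_singleton_of_mem hf, hn]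
    have hNr : rk (M ／ {f}) (M ／ {f}).E + 1 = rk M M.E := by
      rw [hNE, rk_contract hfl le_rfl, insert_sdiff_singleton, insert_eq_of_mem hf]
    have htri : (j : ℤ) ≤ ((j + 1).choose 2 : ℤ) := by
      have := two_choose j
      nlinarith [sq_nonneg ((j : ℤ) - 1)]
    by_cases htr : ∃ C, M.IsCircuit C ∧ f ∈ C ∧ C.ncard = 3
    · -- Case 1b: a triangle through `f`
      obtain ⟨C, hC, hfC, hC3⟩ := htr
      have hC2 : (C \ {f}).ncard = 2 := by
        rw [ncard_sdiff_singleton_of_mem hfC]; omega
      have : ∃ x y, x ≠ y ∧ C \ {f} = {x, y} ∧ y ≠ e := by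
        obtain ⟨x, y, hxy, hCxy⟩ := ncard_eq_two.mp hC2
        by_cases hye : y = e
        · exact ⟨y, x, hxy.symm, by rw [hCxy, pair_comm], fun h => hxy (h.trans hye.symm)⟩
        · exact ⟨x, y, hxy, hCxy, hye⟩
      obtain ⟨x, y, hxy, hCxy, hye⟩ := this
      have hxC : x ∈ C \ {f} := by rw [hCxy]; simp
      have hyC : y ∈ C \ {f} := by rw [hCxy]; simp
      have hxE : x ∈ M.E := hC.subset_ground hxC.1
      have hyE : y ∈ M.E := hC.subset_ground hyC.1
      have hxf : x ≠ f := hxC.2
      have hyf : y ≠ f := hyC.2
      -- the separation of `M ＼ {f}`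
      have hnc' := hnc
      unfold Conn at hnc'
      push Not at hnc'
      obtain ⟨A, hA, hA1, hB1, hAB⟩ := hnc'
      have hsep := fun D (hD : (M ＼ {f}).IsCircuit D) => subset_or_subset_of_rk hA hAB hD
      rw [delete_ground] at hA hB1 hAB hsep
      rw [rk_delete M le_rfl, rk_delete M hA, rk_delete M sdiff_subset, hrk] at hAB
      set B := (M.E \ {f}) \ A with hB
      have hnot : ∀ (A B : Set α), A ⊆ M.E \ {f} → B = (M.E \ {f}) \ A → B.Nonempty →
          rk M A + rk M B ≤ rk M M.E → ∀ C', M.IsCircuit C' → f ∈ C' → ¬ (C' \ {f} ⊆ A) := by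
        intro A B hA hB hBne hAB C' hC' hfC' hsub
        have h1 : f ∈ M.closure A := M.closure_mono hsub (hC'.mem_closure_sdiff_singleton_of_mem hfC')
        have h2 := rk_insert_of_mem_closure h1
        have h3 : M.E \ insert f A = B := by
          rw [hB]; ext z
          simp only [mem_sdiff, mem_insert_iff, mem_singleton_iff]
          tauto
        have h4 := hc (insert f A) (insert_subset hf (hA.trans sdiff_subset)) (insert_nonempty _ _)
          (by rw [h3]; exact hBne)
        rw [h3] at h4
        omega
      have hnotA := hnot A B hA hB hB1 hAB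
      have hnotB := hnot B A sdiff_subset (by rw [hB, sdiff_sdiff_cancel_left hA]) hA1 (by omega)
      -- `x` and `y` are parallel in the contraction
      have hparC : (M ／ {f}).IsCircuit {x, y} := by
        have h1 := hC.contract_sdiff_isCircuit (K := {x, y}) (by simp)
          (by rw [← hCxy]; exact sdiff_subset)
        have h2 : C \ {x, y} = {f} := by
          rw [← hCxy, sdiff_sdiff_cancel_left (singleton_subset_iff.mpr hfC)]
        rwa [h2] at h1
      have hpar : y ∈ (M ／ {f}).closure {x} := by
        have h1 := hparC.mem_closure_sdiff_singleton_of_mem (e := y) (by simp)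
        have h2 : ({x, y} : Set α) \ {y} = {x} := by
          ext z
          simp only [mem_sdiff, mem_insert_iff, mem_singleton_iff]
          constructor
          · rintro ⟨rfl | rfl, h⟩
            · rfl
            · exact absurd rfl h
          · rintro rfl; exact ⟨Or.inl rfl, hxy⟩
        rwa [h2] at h1
      have hxN : x ∈ (M ／ {f}).E := by rw [hNE]; exact ⟨hxE, hxf⟩
      have hyN : y ∈ (M ／ {f}).E := by rw [hNE]; exact ⟨hyE, hyf⟩
      have hcN1 : Conn (M ／ {f} ＼ {y}) := hcN.delete_parallel hxN hyN hxy hpar
      have hsN1 : Simp (M ／ {f} ＼ {y}) := by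
        intro D hD
        rw [delete_isCircuit_iff] at hD
        obtain ⟨hD1, hD2⟩ := hD
        have hfD := notMem_of_contract_circuit hD1
        have hyD : y ∉ D := by
          rw [disjoint_singleton_right] at hD2; exact hD2
        have hDfin : D.Finite := (M ／ {f}).ground_finite.subset hD1.subset_ground
        rcases circuit_of_contract hD1 with h | h
        · exact hs D h
        · by_contra hlt
          push Not at hlt
          have h3 := hs _ h
          rw [ncard_insert_of_notMem hfD hDfin] at h3
          have hD2' : D.ncard = 2 := by omega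
          obtain ⟨a, b, hab, hDab⟩ := ncard_eq_two.mp hD2'
          have hne : C ≠ insert f D := by
            intro heq
            have h5 := hyC.1
            rw [heq] at h5
            rcases h5 with h6 | h6
            · exact hyf h6
            · exact hyD h6
          obtain ⟨C'', hC''s, hC''⟩ := hC.elimination h hne f
          have hC''d : (M ＼ {f}).IsCircuit C'' := by
            rw [delete_isCircuit_iff]
            refine ⟨hC'', ?_⟩
            rw [disjoint_singleton_right]
            intro h6; exact (hC''s h6).2 rfl
          have hsub : C'' ⊆ {x, y, a, b} := by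
            intro z hz
            have h6 := hC''s hz
            rcases h6.1 with h7 | h7
            · have : z ∈ C \ {f} := ⟨h7, h6.2⟩
              rw [hCxy] at this
              rcases this with h8 | h8
              · simp [h8]
              · rw [mem_singleton_iff] at h8; simp [h8]
            · rcases h7 with h8 | h8
              · exact absurd h8 h6.2
              · rw [hDab] at h8
                rcases h8 with h9 | h9
                · simp [h9]
                · rw [mem_singleton_iff] at h9; simp [h9]
          have hDf : insert f D \ {f} = {a, b} := by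
            rw [insert_sdiff_of_mem _ (mem_singleton f), sdiff_singleton_eq_self hfD, hDab]
          have hcard := hs _ hC''
          -- a general bound
          have hbound : ∀ A : Set α, ¬ (C \ {f} ⊆ A) → ¬ (insert f D \ {f} ⊆ A) → ¬ (C'' ⊆ A) := by
            intro A h1 h2 h4
            rw [hCxy] at h1
            rw [hDf] at h2
            have h1' : ∃ p ∈ ({x, y} : Set α), p ∉ A := not_subset.mp h1
            have h2' : ∃ p ∈ ({a, b} : Set α), p ∉ A := not_subset.mp h2
            obtain ⟨p, hp, hpA⟩ := h1'
            obtain ⟨q, hq, hqA⟩ := h2'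
            have h5 : ∃ p' q' : α, C'' ⊆ {p', q'} := by
              rcases hp with rfl | hp
              · rcases hq with rfl | hq
                · refine ⟨y, b, fun z hz => ?_⟩
                  have := hsub hz
                  have hzA := h4 hz
                  simp only [mem_insert_iff, mem_singleton_iff] at this ⊢
                  rcases this with rfl | h | rfl | h
                  · exact absurd hzA hpA
                  · exact Or.inl h
                  · exact absurd hzA hqA
                  · exact Or.inr h
                · rw [mem_singleton_iff] at hq; subst hq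
                  refine ⟨y, a, fun z hz => ?_⟩
                  have := hsub hz
                  have hzA := h4 hz
                  simp only [mem_insert_iff, mem_singleton_iff] at this ⊢
                  rcases this with rfl | h | h | rfl
                  · exact absurd hzA hpA
                  · exact Or.inl h
                  · exact Or.inr h
                  · exact absurd hzA hqA
              · rw [mem_singleton_iff] at hp; subst hp
                rcases hq with rfl | hq
                · refine ⟨x, b, fun z hz => ?_⟩
                  have := hsub hz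
                  have hzA := h4 hz
                  simp only [mem_insert_iff, mem_singleton_iff] at this ⊢
                  rcases this with h | rfl | rfl | h
                  · exact Or.inl h
                  · exact absurd hzA hpA
                  · exact absurd hzA hqA
                  · exact Or.inr h
                · rw [mem_singleton_iff] at hq; subst hq
                  refine ⟨x, a, fun z hz => ?_⟩
                  have := hsub hz
                  have hzA := h4 hz
                  simp only [mem_insert_iff, mem_singleton_iff] at this ⊢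
                  rcases this with h | rfl | h | rfl
                  · exact Or.inl h
                  · exact absurd hzA hpA
                  · exact Or.inr h
                  · exact absurd hzA hqA
            obtain ⟨p', q', h6⟩ := h5
            have h7 := ncard_le_ncard h6 (by simp)
            have h8 : ({p', q'} : Set α).ncard ≤ 2 := by
              have h9 := ncard_insert_le p' {q'}
              rw [ncard_singleton] at h9
              exact h9
            omega
          rcases hsep C'' hC''d with h6 | h6
          · exact hbound A (hnotA C hC hfC) (hnotA _ h (mem_insert _ _)) h6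
          · exact hbound B (hnotB C hC hfC) (hnotB _ h (mem_insert _ _)) h6
      have hN1E : (M ／ {f} ＼ {y}).E = (M.E \ {f}) \ {y} := by
        rw [delete_ground, hNE]
      have hN1n : (M ／ {f} ＼ {y}).E.ncard = n - 2 := by
        rw [hN1E, ncard_sdiff_singleton_of_mem (show y ∈ M.E \ {f} from ⟨hyE, hyf⟩),
          ncard_sdiff_singleton_of_mem hf, hn]
        omega
      have heN1 : e ∈ (M ／ {f} ＼ {y}).E := by
        rw [hN1E]; exact ⟨⟨he, fun h => hfe h.symm⟩, fun h => hye h.symm⟩
      have hn3 : 3 ≤ n := by
        rw [← hn]
        calc 3 = C.ncard := hC3.symm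
          _ ≤ M.E.ncard := ncard_le_ncard hC.subset_ground hEfin
      have hN1r : rk (M ／ {f} ＼ {y}) (M ／ {f} ＼ {y}).E = rk (M ／ {f}) (M ／ {f}).E := by
        have h0 : (M ／ {f} ＼ {y}).E = (M ／ {f}).E \ {y} := delete_ground _ _
        rw [h0, rk_delete _ le_rfl]
        exact rk_sdiff_singleton_of_circuit hparC (by simp)
      have h1 := ih (n - 2) (by omega) (M ／ {f} ＼ {y}) hsN1 hcN1 hN1n e heN1 j
      rw [hN1r] at h1
      have h2 : ce (M ／ {f} ＼ {y}) e ≤ ce (M ＼ {y}) e := by
        rw [contract_delete_comm M (by
          rw [disjoint_singleton]; exact hyf.symm)]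
        exact ce_contract_le (M ＼ {y}) e f
      have h3 := ce_eq_delete_add_cef M e y
      have h4 : 1 ≤ cef M e y := by
        obtain ⟨C', hC', h5, h6⟩ := hc.exists_common_circuit he hyE hye.symm
        unfold cef
        rw [Nat.one_le_iff_ne_zero, Ne, ncard_eq_zero (finite_circuits_mem2 M e y)]
        intro h
        have : C' ∈ {C : Set α | M.IsCircuit C ∧ e ∈ C ∧ y ∈ C} := ⟨hC', h5, h6⟩
        rw [h] at this
        exact this
      have h5 : (ce (M ／ {f} ＼ {y}) e : ℤ) + 1 ≤ ce M e := by
        have : ce (M ／ {f} ＼ {y}) e + 1 ≤ ce M e := by omega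
        exact_mod_cast this
      have h6 : ((n - 2 : ℕ) : ℤ) = (n : ℤ) - 2 := by
        push_cast [Nat.cast_sub (show 2 ≤ n by omega)]; ring
      have h7 : (rk (M ／ {f}) (M ／ {f}).E : ℤ) = (rk M M.E : ℤ) - 1 := by
        have : ((rk (M ／ {f}) (M ／ {f}).E + 1 : ℕ) : ℤ) = (rk M M.E : ℤ) := by rw [hNr]
        push_cast at this; linarith
      rw [h6, h7] at h1
      have h8 := two_choose j
      have h9 : (0 : ℤ) ≤ ((j : ℤ) - 1) * ((j : ℤ) - 2) := by
        rcases lt_trichotomy (j : ℤ) 1 with h | h | h
        · nlinarith
        · rw [h]; norm_num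
        · have : (2 : ℤ) ≤ j := by linarith
          nlinarith
      nlinarith
    · -- Case 1a: no triangle through `f`
      push Not at htr
      have hsN : Simp (M ／ {f}) := by
        intro D hD
        have hfD := notMem_of_contract_circuit hD
        have hDfin : D.Finite := (M ／ {f}).ground_finite.subset hD.subset_ground
        rcases circuit_of_contract hD with h | h
        · exact hs D h
        · have h1 := hs _ h
          have h2 := htr _ h (mem_insert _ _)
          rw [ncard_insert_of_notMem hfD hDfin] at h1 h2
          omega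
      have heN : e ∈ (M ／ {f}).E := by rw [hNE]; exact ⟨he, fun h => hfe h.symm⟩
      have h1 := ih (n - 1) (by omega) (M ／ {f}) hsN hcN hNn e heN j
      have h2 := ce_contract_le M e f
      have h5 : (ce (M ／ {f}) e : ℤ) ≤ ce M e := by exact_mod_cast h2
      have h6 : ((n - 1 : ℕ) : ℤ) = (n : ℤ) - 1 := by
        push_cast [Nat.cast_sub (show 1 ≤ n by omega)]; ring
      have h7 : (rk (M ／ {f}) (M ／ {f}).E : ℤ) = (rk M M.E : ℤ) - 1 := by
        have : ((rk (M ／ {f}) (M ／ {f}).E + 1 : ℕ) : ℤ) = (rk M M.E : ℤ) := by rw [hNr]
        push_cast at this; linarith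
      rw [h6, h7] at h1
      nlinarith
  · -- Case 2: all deletions are connected
    push Not at hcase
    induction j with
    | zero => simp
    | succ j ihj =>
      have t1 := two_choose j
      have t2 := two_choose (j + 1)
      push_cast at t2
      by_cases hsmall : ((n : ℤ) - 1) ≤ (j + 1) * ((rk M M.E : ℤ) - 1)
      · push_cast
        nlinarith
      · push Not at hsmall
        obtain ⟨E', hE'⟩ : ∃ E' : Finset α, (E' : Set α) = M.E \ {e} :=
          ⟨(hEfin.subset (sdiff_subset (t := {e}))).toFinset, by simp⟩
        have hE'card : E'.card = n - 1 := by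
          rw [← ncard_coe_finset, hE', ncard_sdiff_singleton_of_mem he, hn]
        have hsum := two_mul_ce_le_sum_cef M hs e hE'
        have hexf : ∃ f ∈ E', j + 1 ≤ cef M e f := by
          by_contra hcon
          push Not at hcon
          have h1 : ∑ f ∈ E', cef M e f ≤ ∑ f ∈ E', j := by
            apply Finset.sum_le_sum
            intro f hf
            have := hcon f hf
            omega
          rw [Finset.sum_const, hE'card, smul_eq_mul] at h1
          have h2 : 2 * ce M e ≤ (n - 1) * j := hsum.trans h1
          have h3 : (2 : ℤ) * ce M e ≤ ((n : ℤ) - 1) * j := by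
            have h4 : ((2 * ce M e : ℕ) : ℤ) ≤ (((n - 1) * j : ℕ) : ℤ) := by exact_mod_cast h2
            have h6 : ((n - 1 : ℕ) : ℤ) = (n : ℤ) - 1 := by
              push_cast [Nat.cast_sub (show 1 ≤ n by omega)]; ring
            push_cast at h4
            rw [← h6]
            push_cast
            exact h4
          rcases Nat.eq_zero_or_pos j with hj0 | hjpos
          · subst hj0
            have : (1 : ℤ) ≤ ce M e := by exact_mod_cast hce1
            push_cast at h3
            linarith
          · have hj1 : (1 : ℤ) ≤ j := by exact_mod_cast hjpos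
            -- 2 * (j (n-1) - C(j+1,2) (r-1)) ≤ 2 ce ≤ (n-1) j
            have h7 : (j : ℤ) * ((n : ℤ) - 1) ≤ j * ((j + 1) * ((rk M M.E : ℤ) - 1)) := by
              nlinarith
            have h8 := le_of_mul_le_mul_left h7 (by linarith)
            linarith
        obtain ⟨f, hf, hcef⟩ := hexf
        have hf' : f ∈ M.E \ {e} := by rw [← hE']; exact_mod_cast hf
        have hfE : f ∈ M.E := hf'.1
        have hfe : f ≠ e := hf'.2
        have hcd := hcase f hfE hfe
        have hrk : rk M (M.E \ {f}) = rk M M.E := by
          obtain ⟨C0, hC0, -, hf0⟩ := hc.exists_common_circuit he hfE hfe.symm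
          exact rk_sdiff_singleton_of_circuit hC0 hf0
        have h1 := ih (n - 1) (by omega) (M ＼ {f}) (hs.delete _) hcd
          (by rw [delete_ground, ncard_sdiff_singleton_of_mem hfE, hn]) e
          (by rw [delete_ground]; exact ⟨he, fun h => hfe h.symm⟩) (j + 1)
        rw [delete_ground, rk_delete M le_rfl, hrk] at h1
        have h2 := ce_eq_delete_add_cef M e f
        have h6 : ((n - 1 : ℕ) : ℤ) = (n : ℤ) - 1 := by
          push_cast [Nat.cast_sub (show 1 ≤ n by omega)]; ring
        rw [h6] at h1
        have h3 : (ce M e : ℤ) = ce (M ＼ {f}) e + cef M e f := by exact_mod_cast h2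
        have h4 : ((j + 1 : ℕ) : ℤ) ≤ (cef M e f : ℤ) := by exact_mod_cast hcef
        rw [h3]
        linarith

/-- **Main counting lemma.** In a connected simple matroid with `n` elements and rank `r`, each
element lies in at least `j (n-1) - C(j+1,2) (r-1)` circuits, for every natural number `j`. -/
theorem ce_lower [M.Finite] (hs : Simp M) (hc : Conn M) (he : e ∈ M.E) (j : ℕ) :
    (j : ℤ) * ((M.E.ncard : ℤ) - 1) - ((j + 1).choose 2 : ℤ) * ((rk M M.E : ℤ) - 1) ≤ ce M e :=
  ce_lower_aux M.E.ncard M hs hc rfl e he j

end RadonMin
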