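import Pool.Agent.helper6.Radon.Formula

/-!
Primitive Radon partitions correspond to circuits of the affine matroid.
-/

open Set Matroid

namespace RadonMin

section defs

variable {V : Type*} [AddCommGroup V] [Module ℝ V]

/-- The unordered pair `P` is a Radon partition in `S`: it consists of two disjoint subsets of `S`
whose convex hulls meet. -/
def IsRadonIn (S : Finset V) (P : Sym2 (Finset V)) : Prop :=
  ∃ T₁ T₂ : Finset V, P = s(T₁, T₂) ∧ Disjoint T₁ T₂ ∧ T₁ ⊆ S ∧ T₂ ⊆ S ∧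
    (convexHull ℝ (T₁ : Set V) ∩ convexHull ℝ (T₂ : Set V)).Nonempty

/-- The unordered pair `P` extends the unordered pair `Q`. -/
def Extends (P Q : Sym2 (Finset V)) : Prop :=
  ∃ S₁ S₂ T₁ T₂ : Finset V, P = s(S₁, S₂) ∧ Q = s(T₁, T₂) ∧ T₁ ⊆ S₁ ∧ T₂ ⊆ S₂

/-- `P` is a primitive Radon partition in `S`: a Radon partition in `S` that extends no Radon
partition in `S` other than itself. -/
def IsPrimitiveIn (S : Finset V) (P : Sym2 (Finset V)) : Prop :=
  IsRadonIn S P ∧ ∀ Q : Sym2 (Finset V), IsRadonIn S Q → Extends P Q → Q = P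

end defs

variable {V : Type*} [AddCommGroup V] [Module ℝ V] [DecidableEq V]

/-- A signed affine relation. -/
def Rel (T₁ T₂ : Finset V) (f : V → ℝ) : Prop :=
  (∀ x ∈ T₁, 0 ≤ f x) ∧ (∀ x ∈ T₂, f x ≤ 0) ∧ ∑ x ∈ T₁ ∪ T₂, f x = 0 ∧
    ∑ x ∈ T₁ ∪ T₂, f x • x = 0 ∧ ∃ x ∈ T₁ ∪ T₂, f x ≠ 0

lemma radon_iff_rel {T₁ T₂ : Finset V} (hd : Disjoint T₁ T₂) :
    (convexHull ℝ (T₁ : Set V) ∩ convexHull ℝ (T₂ : Set V)).Nonempty ↔ ∃ f, Rel T₁ T₂ f := by
  constructor
  · rintro ⟨p, h1, h2⟩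
    rw [Finset.mem_convexHull'] at h1 h2
    obtain ⟨w1, w1n, w1s, w1p⟩ := h1
    obtain ⟨w2, w2n, w2s, w2p⟩ := h2
    have e1 : ∀ x ∈ T₁, (if x ∈ T₁ then w1 x else - w2 x) = w1 x := by
      intro x hx; rw [if_pos hx]
    have e2 : ∀ x ∈ T₂, (if x ∈ T₁ then w1 x else - w2 x) = - w2 x := by
      intro x hx; rw [if_neg (fun h => Finset.disjoint_left.mp hd h hx)]
    refine ⟨fun x => if x ∈ T₁ then w1 x else - w2 x, ?_, ?_, ?_, ?_, ?_⟩
    · intro x hx; beta_reduce; rw [e1 x hx]; exact w1n x hx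
    · intro x hx; beta_reduce; rw [e2 x hx]; have := w2n x hx; linarith
    · rw [Finset.sum_union hd, Finset.sum_congr rfl e1, Finset.sum_congr rfl e2,
        Finset.sum_neg_distrib, w1s, w2s]; ring
    · rw [Finset.sum_union hd]
      have s1 : ∑ x ∈ T₁, (if x ∈ T₁ then w1 x else - w2 x) • x = p := by
        rw [← w1p]; apply Finset.sum_congr rfl; intro x hx; rw [e1 x hx]
      have s2 : ∑ x ∈ T₂, (if x ∈ T₁ then w1 x else - w2 x) • x = - p := by
        rw [← w2p, ← Finset.sum_neg_distrib]; apply Finset.sum_congr rfl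
        intro x hx; rw [e2 x hx, neg_smul]
      rw [s1, s2]; abel
    · by_contra hcon
      push Not at hcon
      have : ∑ x ∈ T₁, w1 x = 0 := by
        apply Finset.sum_eq_zero
        intro x hx
        have := hcon x (Finset.mem_union_left _ hx)
        rwa [e1 x hx] at this
      rw [w1s] at this
      exact one_ne_zero this
  · rintro ⟨f, f1, f2, fs, fp, x0, hx0, hfx0⟩
    rw [Finset.sum_union hd] at fs fp
    have hσ : 0 < ∑ x ∈ T₁, f x := by
      rcases (Finset.sum_nonneg f1).lt_or_eq with h | h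
      · exact h
      · exfalso
        have z1 : ∀ x ∈ T₁, f x = 0 := (Finset.sum_eq_zero_iff_of_nonneg f1).mp h.symm
        have h2 : ∑ x ∈ T₂, f x = 0 := by linarith
        have z2 : ∀ x ∈ T₂, f x = 0 := (Finset.sum_eq_zero_iff_of_nonpos f2).mp h2
        rcases Finset.mem_union.mp hx0 with h' | h'
        · exact hfx0 (z1 _ h')
        · exact hfx0 (z2 _ h')
    set σ := ∑ x ∈ T₁, f x with hσdef
    refine ⟨∑ x ∈ T₁, (f x / σ) • x, ?_, ?_⟩
    · rw [Finset.mem_convexHull']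
      refine ⟨fun x => f x / σ, fun x hx => div_nonneg (f1 x hx) hσ.le, ?_, rfl⟩
      rw [← Finset.sum_div, ← hσdef, div_self hσ.ne']
    · rw [Finset.mem_convexHull']
      refine ⟨fun x => - f x / σ, fun x hx => div_nonneg (by have := f2 x hx; linarith) hσ.le,
        ?_, ?_⟩
      · rw [← Finset.sum_div, Finset.sum_neg_distrib]
        have : - ∑ x ∈ T₂, f x = σ := by linarith
        rw [this, div_self hσ.ne']
      · have h1 : ∀ T : Finset V, ∑ x ∈ T, (f x / σ) • x = σ⁻¹ • ∑ x ∈ T, f x • x := by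
          intro T
          rw [Finset.smul_sum]
          apply Finset.sum_congr rfl
          intro x _
          rw [smul_smul, div_eq_inv_mul]
        have h2 : ∑ x ∈ T₂, (- f x / σ) • x = - (σ⁻¹ • ∑ x ∈ T₂, f x • x) := by
          rw [← h1, ← Finset.sum_neg_distrib]
          apply Finset.sum_congr rfl
          intro x _
          rw [neg_div, neg_smul]
        rw [h2, h1, ← smul_neg]
        congr 1
        exact (eq_neg_of_add_eq_zero_left fp).symm

/-- circuits of the affine matroid as finite sets -/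
def FCircuit (C : Finset V) : Prop := ¬ AffInd C ∧ ∀ x ∈ C, AffInd (C.erase x)

lemma fcircuit_iff {S C : Finset V} (hCS : C ⊆ S) :
    (affMat S).IsCircuit (C : Set V) ↔ FCircuit C := by
  rw [isCircuit_iff_dep_forall_sdiff_singleton_indep]
  unfold FCircuit
  constructor
  · rintro ⟨⟨h1, h2⟩, h3⟩
    refine ⟨fun h => h1 ((affMat_indep S C).mpr ⟨hCS, h⟩), ?_⟩
    intro x hx
    have := h3 x (by exact_mod_cast hx)
    rw [← Finset.coe_erase, affMat_indep] at this
    exact this.2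
  · rintro ⟨h1, h2⟩
    refine ⟨⟨fun h => h1 ((affMat_indep S C).mp h).2, by rw [affMat_E]; exact_mod_cast hCS⟩, ?_⟩
    intro x hx
    rw [← Finset.coe_erase, affMat_indep]
    exact ⟨(Finset.erase_subset _ _).trans hCS, h2 x (by exact_mod_cast hx)⟩

lemma AffInd.union_rel_false {T₁ T₂ : Finset V} {f : V → ℝ} (h : AffInd (T₁ ∪ T₂))
    (hf : Rel T₁ T₂ f) : False := by
  obtain ⟨_, _, fs, fp, x, hx, hfx⟩ := hf
  exact hfx (h f fs fp x hx)

/-- Every signed relation contains a conformal circuit. -/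
lemma exists_conformal (n : ℕ) : ∀ (T₁ T₂ : Finset V) (f : V → ℝ), Disjoint T₁ T₂ →
    (T₁ ∪ T₂).card = n → Rel T₁ T₂ f →
    ∃ U₁ U₂ : Finset V, ∃ g, U₁ ⊆ T₁ ∧ U₂ ⊆ T₂ ∧ Rel U₁ U₂ g ∧ FCircuit (U₁ ∪ U₂) := by
  induction n using Nat.strong_induction_on with
  | _ n ih =>
  intro T₁ T₂ f hd hn hf
  -- removing an element where the relation vanishes
  have step : ∀ (g : V → ℝ) (x0 : V), Rel T₁ T₂ g → x0 ∈ T₁ ∪ T₂ → g x0 = 0 →
      ∃ U₁ U₂ : Finset V, ∃ g, U₁ ⊆ T₁ ∧ U₂ ⊆ T₂ ∧ Rel U₁ U₂ g ∧ FCircuit (U₁ ∪ U₂) := by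
    intro g x0 hg hx0 hgx0
    obtain ⟨g1, g2, gs, gp, y, hy, hgy⟩ := hg
    have hun : T₁.erase x0 ∪ T₂.erase x0 = (T₁ ∪ T₂).erase x0 := by
      ext z; simp only [Finset.mem_union, Finset.mem_erase]; tauto
    have hrel : Rel (T₁.erase x0) (T₂.erase x0) g := by
      refine ⟨fun x hx => g1 x (Finset.mem_of_mem_erase hx),
        fun x hx => g2 x (Finset.mem_of_mem_erase hx), ?_, ?_, y, ?_, hgy⟩
      · rw [hun, ← gs, ← Finset.add_sum_erase _ _ hx0, hgx0, zero_add]
      · rw [hun, ← gp, ← Finset.add_sum_erase _ _ hx0, hgx0, zero_smul, zero_add]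
      · rw [hun, Finset.mem_erase]
        exact ⟨fun h => hgy (h ▸ hgx0), hy⟩
    have hlt : (T₁.erase x0 ∪ T₂.erase x0).card < n := by
      rw [hun, Finset.card_erase_of_mem hx0, hn]
      have : 0 < (T₁ ∪ T₂).card := Finset.card_pos.mpr ⟨x0, hx0⟩
      omega
    have hd' : Disjoint (T₁.erase x0) (T₂.erase x0) :=
      Finset.disjoint_of_subset_left (Finset.erase_subset _ _)
        (Finset.disjoint_of_subset_right (Finset.erase_subset _ _) hd)
    obtain ⟨U₁, U₂, g', h1, h2, h3, h4⟩ := ih _ hlt _ _ g hd' rfl hrel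
    exact ⟨U₁, U₂, g', h1.trans (Finset.erase_subset _ _), h2.trans (Finset.erase_subset _ _),
      h3, h4⟩
  by_cases hz : ∃ x0 ∈ T₁ ∪ T₂, f x0 = 0
  · obtain ⟨x0, hx0, h0⟩ := hz
    exact step f x0 hf hx0 h0
  push Not at hz
  by_cases hc : FCircuit (T₁ ∪ T₂)
  · exact ⟨T₁, T₂, f, le_rfl, le_rfl, hf, hc⟩
  -- a smaller dependent set
  have hdep : ¬ AffInd (T₁ ∪ T₂) := fun h => h.union_rel_false hf
  have hex : ∃ y ∈ T₁ ∪ T₂, ¬ AffInd ((T₁ ∪ T₂).erase y) := by
    by_contra hcon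
    push Not at hcon
    exact hc ⟨hdep, hcon⟩
  obtain ⟨y, hy, hyd⟩ := hex
  unfold AffInd at hyd
  push Not at hyd
  obtain ⟨h0, hs0, hp0, z, hz', hz0⟩ := hyd
  -- extend by zero at `y`
  obtain ⟨h, hh0, hhs, hhp, z1, hz1, hz1n⟩ : ∃ h : V → ℝ, h y = 0 ∧ ∑ x ∈ T₁ ∪ T₂, h x = 0 ∧
      ∑ x ∈ T₁ ∪ T₂, h x • x = 0 ∧ ∃ z ∈ T₁ ∪ T₂, 0 < h z / f z := by
    have main : ∀ h0 : V → ℝ, ∑ x ∈ (T₁ ∪ T₂).erase y, h0 x = 0 →
        ∑ x ∈ (T₁ ∪ T₂).erase y, h0 x • x = 0 → (0 < h0 z / f z) →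
        ∃ h : V → ℝ, h y = 0 ∧ ∑ x ∈ T₁ ∪ T₂, h x = 0 ∧
        ∑ x ∈ T₁ ∪ T₂, h x • x = 0 ∧ ∃ z ∈ T₁ ∪ T₂, 0 < h z / f z := by
      intro h0 hs0 hp0 hpos
      have hzy : z ≠ y := (Finset.mem_erase.mp hz').1
      refine ⟨fun x => if x = y then 0 else h0 x, by simp, ?_, ?_, z,
        Finset.mem_of_mem_erase hz', by simp [hzy, hpos]⟩
      · rw [← Finset.add_sum_erase _ _ hy, if_pos rfl, zero_add, ← hs0]
        apply Finset.sum_congr rfl
        intro x hx
        rw [if_neg (Finset.mem_erase.mp hx).1]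
      · rw [← Finset.add_sum_erase _ _ hy]
        beta_reduce
        rw [if_pos rfl, zero_smul, zero_add, ← hp0]
        apply Finset.sum_congr rfl
        intro x hx
        rw [if_neg (Finset.mem_erase.mp hx).1]
    have hfz : f z ≠ 0 := hz z (Finset.mem_of_mem_erase hz')
    rcases lt_trichotomy (h0 z / f z) 0 with hlt | heq | hgt
    · apply main (fun x => - h0 x)
      · rw [Finset.sum_neg_distrib, hs0, neg_zero]
      · simp_rw [neg_smul]
        rw [Finset.sum_neg_distrib, hp0, neg_zero]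
      · rw [neg_div]; linarith
    · rcases div_eq_zero_iff.mp heq with h | h
      · exact absurd h hz0
      · exact absurd h hfz
    · exact main h0 hs0 hp0 hgt
  -- maximal ratio
  obtain ⟨x0, hx0, hmax⟩ := Finset.exists_max_image (T₁ ∪ T₂) (fun x => h x / f x) ⟨y, hy⟩
  have hr : 0 < h x0 / f x0 := lt_of_lt_of_le hz1n (hmax z1 hz1)
  set r := h x0 / f x0 with hrdef
  have hfx0 : f x0 ≠ 0 := hz x0 hx0
  -- `f - h / r`
  have hfac : ∀ x ∈ T₁ ∪ T₂, f x - r⁻¹ * h x = f x * (1 - r⁻¹ * (h x / f x)) := by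
    intro x hx
    have := hz x hx
    field_simp
  have hfac' : ∀ x ∈ T₁ ∪ T₂, 0 ≤ 1 - r⁻¹ * (h x / f x) := by
    intro x hx
    have h1 : h x / f x ≤ r := hmax x hx
    have h2 : r⁻¹ * (h x / f x) ≤ r⁻¹ * r := mul_le_mul_of_nonneg_left h1 (inv_nonneg.mpr hr.le)
    rw [inv_mul_cancel₀ hr.ne'] at h2
    linarith
  apply step (fun x => f x - r⁻¹ * h x) x0
  · obtain ⟨f1, f2, fs, fp, _⟩ := hf
    refine ⟨?_, ?_, ?_, ?_, y, hy, ?_⟩
    · intro x hx
      have hx' : x ∈ T₁ ∪ T₂ := Finset.mem_union_left _ hx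
      beta_reduce
      rw [hfac x hx']
      exact mul_nonneg (f1 x hx) (hfac' x hx')
    · intro x hx
      have hx' : x ∈ T₁ ∪ T₂ := Finset.mem_union_right _ hx
      beta_reduce
      rw [hfac x hx']
      exact mul_nonpos_of_nonpos_of_nonneg (f2 x hx) (hfac' x hx')
    · rw [Finset.sum_sub_distrib, ← Finset.mul_sum, hhs, fs]; simp
    · simp_rw [sub_smul, mul_smul]
      rw [Finset.sum_sub_distrib, ← Finset.smul_sum, hhp, fp]; simp
    · beta_reduce
      rw [hh0, mul_zero, sub_zero]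
      exact hz y hy
  · exact hx0
  · have : h x0 = r * f x0 := by rw [hrdef, div_mul_cancel₀ _ hfx0]
    beta_reduce
    rw [this, ← mul_assoc, inv_mul_cancel₀ hr.ne', one_mul, sub_self]

/-- On a circuit, all relations are proportional and nowhere zero. -/
lemma circuit_rel_ne {C : Finset V} (hC : FCircuit C) {f : V → ℝ} (fs : ∑ x ∈ C, f x = 0)
    (fp : ∑ x ∈ C, f x • x = 0) {x0 : V} (hx0 : x0 ∈ C) (hf0 : f x0 = 0) : ∀ x ∈ C, f x = 0 := by
  intro x hx
  by_cases hxx : x = x0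
  · rw [hxx, hf0]
  · have h1 := hC.2 x0 hx0 f (by rw [← fs, ← Finset.add_sum_erase _ _ hx0, hf0, zero_add])
      (by rw [← fp, ← Finset.add_sum_erase _ _ hx0, hf0, zero_smul, zero_add])
    exact h1 x (Finset.mem_erase.mpr ⟨hxx, hx⟩)

lemma circuit_rel_prop {C : Finset V} (hC : FCircuit C) {f g : V → ℝ} (fs : ∑ x ∈ C, f x = 0)
    (fp : ∑ x ∈ C, f x • x = 0) (gs : ∑ x ∈ C, g x = 0) (gp : ∑ x ∈ C, g x • x = 0)
    (hf : ∃ x ∈ C, f x ≠ 0) : ∃ c : ℝ, ∀ x ∈ C, g x = c * f x := by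
  obtain ⟨x0, hx0, hfx0⟩ := hf
  refine ⟨g x0 / f x0, ?_⟩
  have h1 : ∀ x ∈ C, g x - (g x0 / f x0) * f x = 0 := by
    apply circuit_rel_ne hC (f := fun x => g x - (g x0 / f x0) * f x) _ _ hx0
    · beta_reduce; field_simp; ring
    · rw [Finset.sum_sub_distrib, ← Finset.mul_sum, fs, gs]; simp
    · simp_rw [sub_smul, mul_smul]
      rw [Finset.sum_sub_distrib, ← Finset.smul_sum, fp, gp]; simp
  intro x hx
  have := h1 x hx
  linarith

lemma isRadonIn_mk {S T₁ T₂ : Finset V} : IsRadonIn S s(T₁, T₂) ↔ Disjoint T₁ T₂ ∧ T₁ ⊆ S ∧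
    T₂ ⊆ S ∧ ∃ f, Rel T₁ T₂ f := by
  constructor
  · rintro ⟨U₁, U₂, hU, h1, h2, h3, h4⟩
    rw [radon_iff_rel h1] at h4
    rw [Sym2.eq_iff] at hU
    rcases hU with ⟨rfl, rfl⟩ | ⟨rfl, rfl⟩
    · exact ⟨h1, h2, h3, h4⟩
    · refine ⟨h1.symm, h3, h2, ?_⟩
      obtain ⟨f, f1, f2, f3, f4, x, hx, hfx⟩ := h4
      refine ⟨fun x => - f x, fun x hx => by have := f2 x hx; linarith,
        fun x hx => by have := f1 x hx; linarith, ?_, ?_, x, ?_, ?_⟩
      · rw [Finset.union_comm, Finset.sum_neg_distrib, f3, neg_zero]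
      · simp_rw [neg_smul]
        rw [Finset.union_comm, Finset.sum_neg_distrib, f4, neg_zero]
      · rw [Finset.union_comm]; exact hx
      · exact neg_ne_zero.mpr hfx
  · rintro ⟨h1, h2, h3, h4⟩
    exact ⟨T₁, T₂, rfl, h1, h2, h3, (radon_iff_rel h1).mpr h4⟩

/-- The union of the two parts. -/
def unionOf (P : Sym2 (Finset V)) : Finset V :=
  Sym2.lift ⟨fun A B => A ∪ B, fun A B => Finset.union_comm A B⟩ P

@[simp] lemma unionOf_mk (A B : Finset V) : unionOf s(A, B) = A ∪ B := rfl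

/-- Primitive Radon partitions have circuits as unions. -/
lemma circuit_of_primitive {S T₁ T₂ : Finset V} (h : IsPrimitiveIn S s(T₁, T₂)) :
    FCircuit (T₁ ∪ T₂) := by
  obtain ⟨h1, h2⟩ := h
  rw [isRadonIn_mk] at h1
  obtain ⟨hd, hs1, hs2, f, hf⟩ := h1
  obtain ⟨U₁, U₂, g, hU1, hU2, hg, hc⟩ := exists_conformal _ T₁ T₂ f hd rfl hf
  have h3 : IsRadonIn S s(U₁, U₂) := by
    rw [isRadonIn_mk]
    exact ⟨Finset.disjoint_of_subset_left hU1 (Finset.disjoint_of_subset_right hU2 hd),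
      hU1.trans hs1, hU2.trans hs2, g, hg⟩
  have h4 := h2 _ h3 ⟨T₁, T₂, U₁, U₂, rfl, rfl, hU1, hU2⟩
  have h5 := congrArg unionOf h4
  simp only [unionOf_mk] at h5
  rw [← h5]; exact hc

/-- A Radon partition of a circuit is primitive. -/
lemma primitive_of_circuit {S T₁ T₂ : Finset V} (hc : FCircuit (T₁ ∪ T₂))
    (h : IsRadonIn S s(T₁, T₂)) : IsPrimitiveIn S s(T₁, T₂) := by
  refine ⟨h, ?_⟩
  intro Q hQ hext
  rw [isRadonIn_mk] at h
  obtain ⟨hd, hs1, hs2, -⟩ := h
  obtain ⟨S₁, S₂, U₁, U₂, hS, rfl, h1, h2⟩ := hext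
  rw [isRadonIn_mk] at hQ
  obtain ⟨hdU, -, -, g, hg⟩ := hQ
  -- the union of `U` is dependent, hence everything
  have key : ∀ A B : Finset V, Disjoint A B → U₁ ⊆ A → U₂ ⊆ B → FCircuit (A ∪ B) →
      U₁ = A ∧ U₂ = B := by
    intro A B hAB hA hB hcAB
    have hsub : U₁ ∪ U₂ ⊆ A ∪ B := Finset.union_subset_union hA hB
    have heq : U₁ ∪ U₂ = A ∪ B := by
      by_contra hne
      obtain ⟨x, hx, hxU⟩ := Finset.exists_of_ssubset (Finset.ssubset_iff_subset_ne.mpr ⟨hsub, hne⟩)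
      have h3 := hcAB.2 x hx
      have h4 : U₁ ∪ U₂ ⊆ (A ∪ B).erase x := by
        intro y hy
        rw [Finset.mem_erase]
        exact ⟨fun h => hxU (h ▸ hy), hsub hy⟩
      exact (h3.subset h4).union_rel_false hg
    constructor
    · apply Finset.Subset.antisymm hA
      intro x hx
      have : x ∈ U₁ ∪ U₂ := by rw [heq]; exact Finset.mem_union_left _ hx
      rcases Finset.mem_union.mp this with h | h
      · exact h
      · exact absurd (hB h) (Finset.disjoint_left.mp hAB hx)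
    · apply Finset.Subset.antisymm hB
      intro x hx
      have : x ∈ U₁ ∪ U₂ := by rw [heq]; exact Finset.mem_union_right _ hx
      rcases Finset.mem_union.mp this with h | h
      · exact absurd hx (Finset.disjoint_left.mp hAB (hA h))
      · exact h
  rw [Sym2.eq_iff] at hS
  rcases hS with ⟨rfl, rfl⟩ | ⟨rfl, rfl⟩
  · obtain ⟨e1, e2⟩ := key _ _ hd h1 h2 hc
    rw [e1, e2]
  · rw [Finset.union_comm] at hc
    obtain ⟨e1, e2⟩ := key _ _ hd.symm h1 h2 hc
    rw [e1, e2]; exact Sym2.eq_swap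

/-- The number of primitive Radon partitions equals the number of circuits. -/
theorem ncard_primitive_eq (S : Finset V) :
    {P : Sym2 (Finset V) | IsPrimitiveIn S P}.ncard = cc (affMat S) := by
  unfold cc
  -- the map `P ↦ union`
  have himage : (fun P : Sym2 (Finset V) => ((unionOf P : Finset V) : Set V)) ''
      {P : Sym2 (Finset V) | IsPrimitiveIn S P} = {C : Set V | (affMat S).IsCircuit C} := by
    ext C
    constructor
    · rintro ⟨P, hP, rfl⟩
      induction P using Sym2.ind with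
      | _ A B =>
        have hP' : IsPrimitiveIn S s(A, B) := hP
        have h1 := circuit_of_primitive hP'
        have h2 := (isRadonIn_mk.mp hP'.1)
        simp only [unionOf_mk, mem_ofPred_eq]
        rw [fcircuit_iff (Finset.union_subset h2.2.1 h2.2.2.1)]
        exact h1
    · intro hC
      have hCS := hC.subset_ground
      rw [affMat_E] at hCS
      have hfin : C.Finite := (Finset.finite_toSet S).subset hCS
      obtain ⟨C', rfl⟩ : ∃ C' : Finset V, (C' : Set V) = C := ⟨hfin.toFinset, by simp⟩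
      have hC'S : C' ⊆ S := by exact_mod_cast hCS
      have hfc : FCircuit C' := (fcircuit_iff hC'S).mp hC
      have hnd := hfc.1
      unfold AffInd at hnd
      push Not at hnd
      obtain ⟨f, fs, fp, z, hz, hfz⟩ := hnd
      have hun : C'.filter (fun x => 0 ≤ f x) ∪ C'.filter (fun x => ¬ 0 ≤ f x) = C' :=
        Finset.filter_union_filter_not_eq _ _
      have hdis : Disjoint (C'.filter (fun x => 0 ≤ f x)) (C'.filter (fun x => ¬ 0 ≤ f x)) :=
        Finset.disjoint_filter_filter_not _ _ _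
      have hrel : Rel (C'.filter (fun x => 0 ≤ f x)) (C'.filter (fun x => ¬ 0 ≤ f x)) f := by
        refine ⟨fun x hx => (Finset.mem_filter.mp hx).2, fun x hx => ?_, ?_, ?_, ?_⟩
        · have := (Finset.mem_filter.mp hx).2
          push Not at this; exact this.le
        · rw [hun]; exact fs
        · rw [hun]; exact fp
        · rw [hun]; exact ⟨z, hz, hfz⟩
      refine ⟨s(C'.filter (fun x => 0 ≤ f x), C'.filter (fun x => ¬ 0 ≤ f x)), ?_, ?_⟩
      · apply primitive_of_circuit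
        · rw [hun]; exact hfc
        · rw [isRadonIn_mk]
          exact ⟨hdis, (Finset.filter_subset _ _).trans hC'S, (Finset.filter_subset _ _).trans hC'S,
            f, hrel⟩
      · simp only [unionOf_mk, hun]
  have hinj : Set.InjOn (fun P : Sym2 (Finset V) => ((unionOf P : Finset V) : Set V))
      {P : Sym2 (Finset V) | IsPrimitiveIn S P} := by
    intro P hP Q hQ hPQ
    induction P using Sym2.ind with
    | _ A B =>
    induction Q using Sym2.ind with
    | _ A' B' =>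
    have hP' : IsPrimitiveIn S s(A, B) := hP
    have hQ' : IsPrimitiveIn S s(A', B') := hQ
    have hu : A ∪ B = A' ∪ B' := by
      have : ((A ∪ B : Finset V) : Set V) = ((A' ∪ B' : Finset V) : Set V) := hPQ
      exact_mod_cast this
    have hc := circuit_of_primitive hP'
    obtain ⟨hd, -, -, f, f1, f2, fs, fp, hf⟩ := isRadonIn_mk.mp hP'.1
    obtain ⟨hd', -, -, g, g1, g2, gs, gp, hg⟩ := isRadonIn_mk.mp hQ'.1
    rw [← hu] at gs gp hg
    obtain ⟨c, hcg⟩ := circuit_rel_prop hc fs fp gs gp hf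
    -- nowhere zero
    have hfne : ∀ x ∈ A ∪ B, f x ≠ 0 := by
      intro x hx h0
      obtain ⟨y, hy, hfy⟩ := hf
      exact hfy (circuit_rel_ne hc fs fp hx h0 y hy)
    have hc0 : c ≠ 0 := by
      rintro rfl
      obtain ⟨y, hy, hgy⟩ := hg
      exact hgy (by rw [hcg y hy, zero_mul])
    have hAB : ∀ (A B A' B' : Finset V) (f g : V → ℝ), Disjoint A B → Disjoint A' B' →
        A ∪ B = A' ∪ B' → (∀ x ∈ A, 0 < f x) → (∀ x ∈ B, f x < 0) →
        (∀ x ∈ A', 0 ≤ g x) → (∀ x ∈ B', g x ≤ 0) → (∃ c : ℝ, 0 < c ∧ ∀ x ∈ A ∪ B, g x = c * f x) →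
        A = A' ∧ B = B' := by
      intro A B A' B' f g hd hd' hu hA hB hA' hB' ⟨c, hc, hcf⟩
      have k1 : ∀ x ∈ A, x ∈ A' := by
        intro x hx
        have hx' : x ∈ A ∪ B := Finset.mem_union_left _ hx
        have hgx : 0 < g x := by rw [hcf x hx']; exact mul_pos hc (hA x hx)
        have : x ∈ A' ∪ B' := hu ▸ hx'
        rcases Finset.mem_union.mp this with h | h
        · exact h
        · have := hB' x h; linarith
      have k2 : ∀ x ∈ B, x ∈ B' := by
        intro x hx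
        have hx' : x ∈ A ∪ B := Finset.mem_union_right _ hx
        have hgx : g x < 0 := by rw [hcf x hx']; exact mul_neg_of_pos_of_neg hc (hB x hx)
        have : x ∈ A' ∪ B' := hu ▸ hx'
        rcases Finset.mem_union.mp this with h | h
        · have := hA' x h; linarith
        · exact h
      constructor
      · apply Finset.Subset.antisymm k1
        intro x hx
        have : x ∈ A ∪ B := hu.symm ▸ Finset.mem_union_left _ hx
        rcases Finset.mem_union.mp this with h | h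
        · exact h
        · exact absurd (k2 x h) (Finset.disjoint_left.mp hd' hx)
      · apply Finset.Subset.antisymm k2
        intro x hx
        have : x ∈ A ∪ B := hu.symm ▸ Finset.mem_union_right _ hx
        rcases Finset.mem_union.mp this with h | h
        · exact absurd hx (Finset.disjoint_left.mp hd' (k1 x h))
        · exact h
    have fA : ∀ x ∈ A, 0 < f x := fun x hx =>
      lt_of_le_of_ne (f1 x hx) (hfne x (Finset.mem_union_left _ hx)).symm
    have fB : ∀ x ∈ B, f x < 0 := fun x hx =>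
      lt_of_le_of_ne (f2 x hx) (hfne x (Finset.mem_union_right _ hx))
    rcases lt_or_gt_of_ne hc0 with hneg | hpos
    · obtain ⟨e1, e2⟩ := hAB A B B' A' f (fun x => - g x) hd hd'.symm
        (by rw [hu, Finset.union_comm]) fA fB
        (fun x hx => by have := g2 x hx; linarith) (fun x hx => by have := g1 x hx; linarith)
        ⟨-c, by linarith, fun x hx => by rw [hcg x hx]; ring⟩
      rw [e1, e2]; exact Sym2.eq_swap
    · obtain ⟨e1, e2⟩ := hAB A B A' B' f g hd hd' hu fA fB g1 g2 ⟨c, hpos, hcg⟩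
      rw [e1, e2]
  rw [← himage, hinj.ncard_image]

end RadonMin
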