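import Pool.Agent.helper6.Radon.LemmaA
import Pool.Agent.helper6.Radon.Arith

/-!
Lower bounds for the number of circuits of a simple matroid of given rank.
-/

open Set Matroid

namespace RadonMin

variable {α : Type*} {M : Matroid α} {e f : α} {A B X Y C D : Set α}

/-- All restrictions of rank three satisfy the sharp real bound. -/
def Good (M : Matroid α) : Prop := ∀ X ⊆ M.E, rk M X = 3 → hh X.ncard ≤ cc (M ↾ X)

lemma Good.restrict (h : Good M) {R : Set α} (hR : R ⊆ M.E) : Good (M ↾ R) := by
  intro X hX hr
  rw [restrict_ground_eq] at hX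
  rw [rk_restrict M hX] at hr
  rw [restrict_restrict_eq M hX]
  exact h X (hX.trans hR) hr

lemma Good.delete (h : Good M) (D : Set α) : Good (M ＼ D) := by
  rw [delete_eq_restrict]
  exact h.restrict sdiff_subset

lemma finite_restrict [M.Finite] (h : A ⊆ M.E) : (M ↾ A).Finite :=
  restrict_finite (finite_of_subset_ground h)

lemma cc_add_le [M.Finite] (hA : A ⊆ M.E) (hB : B ⊆ M.E) (hAB : Disjoint A B) :
    cc (M ↾ A) + cc (M ↾ B) ≤ cc M := by
  have := finite_restrict hA
  have := finite_restrict hB
  unfold cc
  rw [← ncard_union_eq _ (finite_circuits _) (finite_circuits _)]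
  · apply ncard_le_ncard _ (finite_circuits M)
    rintro C (hC | hC)
    · rw [mem_ofPred_eq, restrict_isCircuit_iff hA] at hC; exact hC.1
    · rw [mem_ofPred_eq, restrict_isCircuit_iff hB] at hC; exact hC.1
  · rw [Set.disjoint_left]
    intro C hC hC'
    rw [mem_ofPred_eq, restrict_isCircuit_iff hA] at hC
    rw [mem_ofPred_eq, restrict_isCircuit_iff hB] at hC'
    obtain ⟨x, hx⟩ := hC.1.nonempty
    exact Set.disjoint_left.mp hAB (hC.2 hx) (hC'.2 hx)

lemma card_le_cc [M.Finite] (S : Finset (Finset α)) (h : ∀ s ∈ S, M.IsCircuit (s : Set α)) :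
    S.card ≤ cc M := by
  unfold cc
  rw [← ncard_coe_finset]
  apply ncard_le_ncard_of_injOn (fun s : Finset α => (s : Set α)) (fun s hs => h s hs)
    (ht := finite_circuits M)
  intro s _ t _ hst
  exact Finset.coe_injective hst

lemma card_le_ce [M.Finite] (S : Finset (Finset α)) (h : ∀ s ∈ S, M.IsCircuit (s : Set α))
    (he : ∀ s ∈ S, e ∈ s) : S.card ≤ ce M e := by
  unfold ce
  rw [← ncard_coe_finset]
  have key : ∀ s ∈ (S : Set (Finset α)), (s : Set α) ∈ {C : Set α | M.IsCircuit C ∧ e ∈ C} :=
    fun s hs => ⟨h s hs, by exact_mod_cast he s hs⟩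
  apply ncard_le_ncard_of_injOn (fun s : Finset α => (s : Set α)) key
    (ht := finite_circuits_mem M e)
  intro s _ t _ hst
  exact Finset.coe_injective hst

lemma Simp.indep_of_ncard_le [M.Finite] (hs : Simp M) (hX : X ⊆ M.E) (h : X.ncard ≤ 2) :
    M.Indep X := by
  rw [indep_iff_forall_subset_not_isCircuit hX]
  intro C hCX hC
  have h1 := hs C hC
  have h2 := ncard_le_ncard hCX (finite_of_subset_ground hX)
  omega

lemma ncard_le_one_of_rk [M.Finite] (hs : Simp M) (hr : rk M M.E ≤ 1) : M.E.ncard ≤ 1 := by
  by_contra h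
  push Not at h
  obtain ⟨X, hX, hX2⟩ := exists_subset_card_eq (s := M.E) (n := 2) (by omega)
  have h1 := hs.indep_of_ncard_le hX (by omega)
  have h2 := rk_indep h1
  have h3 := rk_mono M hX
  omega

/-- A three element subset of rank at most two is a circuit. -/
lemma isCircuit_of_rk_le_two [M.Finite] (hs : Simp M) (hX : X ⊆ M.E) (h3 : X.ncard = 3)
    (hr : rk M X ≤ 2) : M.IsCircuit X := by
  rw [isCircuit_iff_dep_forall_sdiff_singleton_indep]
  refine ⟨⟨?_, hX⟩, ?_⟩
  · intro h
    have := rk_indep h
    omega
  · intro e he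
    apply hs.indep_of_ncard_le (sdiff_subset.trans hX)
    rw [ncard_sdiff_singleton_of_mem he]
    omega

lemma choose_three_le_cc [M.Finite] (hs : Simp M) (hr : rk M M.E ≤ 2) :
    M.E.ncard.choose 3 ≤ cc M := by
  classical
  set E' := M.ground_finite.toFinset with hE'
  have hcoe : (E' : Set α) = M.E := by simp [hE']
  have h1 : M.E.ncard = E'.card := by rw [← ncard_coe_finset, hcoe]
  rw [h1, ← Finset.card_powersetCard]
  apply card_le_cc
  intro s hs'
  rw [Finset.mem_powersetCard] at hs'
  have hsub : (s : Set α) ⊆ M.E := by rw [← hcoe]; exact_mod_cast hs'.1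
  apply isCircuit_of_rk_le_two hs hsub
  · rw [ncard_coe_finset]; exact hs'.2
  · exact (rk_mono M hsub).trans hr

/-- The first family of linear lower bounds (all ranks). -/
theorem T_bound_aux (n : ℕ) : ∀ (M : Matroid α) [M.Finite], Simp M → Good M → M.E.ncard = n →
    ∀ m : ℕ, (m.choose 2 : ℤ) * n - ((m + 1).choose 3 : ℤ) * rk M M.E ≤ cc M := by
  induction n using Nat.strong_induction_on with
  | _ n ih =>
  intro M _ hs hg hn m
  have hEfin : M.E.Finite := M.ground_finite
  by_cases hc : Conn M
  · rcases Nat.lt_or_ge (rk M M.E) 2 with hr | hr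
    · -- rank at most one
      have h1 := ncard_le_one_of_rk hs (by omega)
      rcases Nat.eq_zero_or_pos n with h0 | h0
      · subst h0
        have : (0 : ℤ) ≤ ((m + 1).choose 3 : ℤ) * rk M M.E := by positivity
        have h2 : (0 : ℤ) ≤ cc M := by positivity
        push_cast; linarith
      · have hn1 : n = 1 := by omega
        have hr1 : rk M M.E = 1 := by
          have hne : M.E.Nonempty := by
            rw [← ncard_pos hEfin]; omega
          obtain ⟨e, he⟩ := hne
          have := rk_ground_pos hs he
          omega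
        rw [hn1, hr1, choose_three_succ]
        have h2 : (0 : ℤ) ≤ cc M := by positivity
        have h3 : (0 : ℤ) ≤ (m.choose 3 : ℤ) := by positivity
        push_cast; linarith
    rcases Nat.lt_or_ge (rk M M.E) 3 with hr2 | hr2
    · have hr' : rk M M.E = 2 := by omega
      have h1 := choose_three_le_cc hs (by omega)
      rw [hn] at h1
      have h2 := T_le_choose_three m n
      rw [hr']
      have h3 : (n.choose 3 : ℤ) ≤ cc M := by exact_mod_cast h1
      push_cast; linarith
    rcases Nat.lt_or_ge (rk M M.E) 4 with hr3 | hr3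
    · have hr' : rk M M.E = 3 := by omega
      have h1 := hg M.E le_rfl hr'
      rw [restrict_ground_eq_self, hn] at h1
      have hn3 : 3 ≤ n := by
        rw [← hn, ← hr']; exact rk_le_ncard le_rfl
      have h2 := T_le_hh m n hn3
      have h3 : (hh n : ℤ) ≤ cc M := by exact_mod_cast h1
      rw [hr']
      push_cast; linarith
    · -- rank at least four, connected
      induction m with
      | zero => simp
      | succ m ihm =>
        have c3 := choose_three_succ (m + 1)
        have c2 := choose_two_succ m
        have hm2 := two_mul_choose_two m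
        have hm2' := two_mul_choose_two (m + 1)
        by_cases hsmall : 2 * n ≤ (m + 1) * rk M M.E
        · -- reduce to `m`
          have h1 : (2 : ℤ) * n ≤ (m + 1) * rk M M.E := by exact_mod_cast hsmall
          have h2 : (m : ℤ) * (2 * n) ≤ m * ((m + 1) * rk M M.E) :=
            mul_le_mul_of_nonneg_left h1 (by positivity)
          rw [c3]
          push_cast at hm2' ⊢
          nlinarith
        · push Not at hsmall
          have hn4 : 4 ≤ n := by
            rw [← hn]; exact hr3.trans (rk_le_ncard le_rfl)
          obtain ⟨X, hX, hX2⟩ := exists_subset_card_eq (s := M.E) (n := 2) (by omega)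
          obtain ⟨e, g, heg, hXeg⟩ := ncard_eq_two.mp hX2
          have heE : e ∈ M.E := hX (by rw [hXeg]; simp)
          have hgE : g ∈ M.E := hX (by rw [hXeg]; simp)
          obtain ⟨C0, hC0, he0, -⟩ := hc.exists_common_circuit heE hgE heg
          have hrk := rk_sdiff_singleton_of_circuit hC0 he0
          have h1 := ih (n - 1) (by omega) (M ＼ {e}) (hs.delete _) (hg.delete _)
            (by rw [delete_ground, ncard_sdiff_singleton_of_mem heE, hn]) (m + 1)
          rw [delete_ground, rk_delete M le_rfl, hrk] at h1
          have h2 := cc_eq_delete_add_ce M e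
          have h3 := ce_lower hs hc heE ((m + 1) / 2)
          have h4 : ((m + 1).choose 2 : ℤ) ≤ (((m + 1) / 2 : ℕ) : ℤ) * ((M.E.ncard : ℤ) - 1)
              - (((m + 1) / 2 + 1).choose 2 : ℤ) * ((rk M M.E : ℤ) - 1) := by
            apply deletion_T (m := ((m + 1 : ℕ) : ℤ)) (N := (M.E.ncard : ℤ) - 1)
              (R := (rk M M.E : ℤ) - 1) (j := (((m + 1) / 2 : ℕ) : ℤ))
            · positivity
            · have : (4 : ℤ) ≤ rk M M.E := by exact_mod_cast hr3
              linarith
            · have := Nat.div_add_mod (m + 1) 2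
              have h5 := Nat.mod_lt (m + 1) (show 2 > 0 by norm_num)
              omega
            · exact two_choose _
            · exact two_mul_choose_two (m + 1)
            · rw [hn]
              have : (((m + 1) * rk M M.E : ℕ) : ℤ) < ((2 * n : ℕ) : ℤ) := by exact_mod_cast hsmall
              push_cast at this ⊢
              linarith
          have h5 : (cc M : ℤ) = cc (M ＼ {e}) + ce M e := by exact_mod_cast h2
          have h6 : ((n - 1 : ℕ) : ℤ) = (n : ℤ) - 1 := by
            push_cast [Nat.cast_sub (show 1 ≤ n by omega)]; ring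
          rw [h6] at h1
          rw [h5]
          linarith
  · -- disconnected
    unfold Conn at hc
    push Not at hc
    obtain ⟨A, hA, hA1, hB1, hAB⟩ := hc
    set B := M.E \ A with hB
    have hBE : B ⊆ M.E := sdiff_subset
    have hfA := finite_restrict hA
    have hfB := finite_restrict hBE
    have hcard : A.ncard + B.ncard = n := by
      rw [← hn, hB]
      have := ncard_sdiff_add_ncard_of_subset hA hEfin
      omega
    have hA0 : 0 < A.ncard := by rw [ncard_pos (finite_of_subset_ground hA)]; exact hA1
    have hB0 : 0 < B.ncard := by rw [ncard_pos (finite_of_subset_ground hBE)]; exact hB1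
    have h1 := ih A.ncard (by omega) (M ↾ A) (hs.restrict hA) (hg.restrict hA) rfl m
    have h2 := ih B.ncard (by omega) (M ↾ B) (hs.restrict hBE) (hg.restrict hBE) rfl m
    rw [restrict_ground_eq, rk_restrict M le_rfl] at h1 h2
    have h3 := cc_add_le hA hBE disjoint_sdiff_right
    have h4 : (cc (M ↾ A) : ℤ) + cc (M ↾ B) ≤ cc M := by exact_mod_cast h3
    have h5 : (A.ncard : ℤ) + B.ncard = n := by exact_mod_cast hcard
    have h6 : (rk M A : ℤ) + rk M B ≤ rk M M.E := by exact_mod_cast hAB
    have h7 : (0 : ℤ) ≤ ((m + 1).choose 3 : ℤ) := by positivity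
    have h8 := mul_le_mul_of_nonneg_left h6 h7
    rw [← h5]
    linarith

theorem T_bound [M.Finite] (hs : Simp M) (hg : Good M) (m : ℕ) :
    (m.choose 2 : ℤ) * M.E.ncard - ((m + 1).choose 3 : ℤ) * rk M M.E ≤ cc M :=
  T_bound_aux M.E.ncard M hs hg rfl m

/-- The second family of linear lower bounds (odd rank at least three). -/
theorem U_bound_aux (n : ℕ) : ∀ (M : Matroid α) [M.Finite], Simp M → Good M → M.E.ncard = n →
    ∀ k : ℕ, 1 ≤ k → rk M M.E = 2 * k + 1 → ∀ q : ℕ, 2 ≤ q →
      (q.choose 2 : ℤ) * ((n : ℤ) - q - 2) + hh (q + 2) - (2 * k - 2) * ((q + 1).choose 3 : ℤ)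
        ≤ cc M := by
  induction n using Nat.strong_induction_on with
  | _ n ih =>
  intro M _ hs hg hn k hk hrkM q hq
  have hEfin : M.E.Finite := M.ground_finite
  by_cases hc : Conn M
  · have hn3 : 3 ≤ n := by
      rw [← hn]; exact le_trans (by omega) (rk_le_ncard (M := M) le_rfl)
    rcases Nat.lt_or_ge k 2 with hk2 | hk2
    · -- rank three
      have hk1 : k = 1 := by omega
      subst hk1
      have h1 := hg M.E le_rfl hrkM
      rw [restrict_ground_eq_self, hn] at h1
      have h2 := hh_tangent q n hq hn3
      have h3 : (hh n : ℤ) ≤ cc M := by exact_mod_cast h1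
      push_cast
      linarith
    · -- rank at least five, connected
      induction q, hq using Nat.le_induction with
      | base =>
        have h1 := T_bound hs hg 2
        rw [hn, hrkM] at h1
        have h2 : Nat.choose 2 2 = 1 := by decide
        have h3 : Nat.choose (2 + 1) 3 = 1 := by decide
        have h4 : hh (2 + 2) = 1 := by decide
        rw [h2, h3] at h1
        rw [h2, h3, h4]
        push_cast at h1 ⊢
        linarith
      | succ q hq2 ihq =>
        have c3 := choose_three_succ (q + 1)
        have c2 := choose_two_succ q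
        have hq2' := two_mul_choose_two q
        have hhs := hh_succ (q + 2) (by omega)
        have hcor : (0 : ℤ) ≤ (corr (q + 2) : ℤ) - corr (q + 2 - 1) := by
          have := corr_mono (q + 1)
          have h3 : (corr (q + 1) : ℤ) ≤ corr (q + 1 + 1) := by exact_mod_cast this
          have h4 : q + 2 - 1 = q + 1 := by omega
          rw [h4]; linarith
        by_cases hsmall : n ≤ (q + 1) * k + 1
        · -- reduce to `q`
          have h1 : (n : ℤ) ≤ (q + 1) * k + 1 := by exact_mod_cast hsmall
          have h2 : (q : ℤ) * n ≤ q * ((q + 1) * k + 1) :=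
            mul_le_mul_of_nonneg_left h1 (by positivity)
          have e1 : q + 2 - 1 = q + 1 := by omega
          rw [e1] at hhs
          rw [show q + 1 + 2 = q + 2 + 1 by ring, hhs, c3]
          push_cast at ihq ⊢
          rw [e1] at hcor
          nlinarith
        · push Not at hsmall
          obtain ⟨X, hX, hX2⟩ := exists_subset_card_eq (s := M.E) (n := 2) (by omega)
          obtain ⟨e, g, heg, hXeg⟩ := ncard_eq_two.mp hX2
          have heE : e ∈ M.E := hX (by rw [hXeg]; simp)
          have hgE : g ∈ M.E := hX (by rw [hXeg]; simp)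
          obtain ⟨C0, hC0, he0, -⟩ := hc.exists_common_circuit heE hgE heg
          have hrk := rk_sdiff_singleton_of_circuit hC0 he0
          have h1 := ih (n - 1) (by omega) (M ＼ {e}) (hs.delete _) (hg.delete _)
            (by rw [delete_ground, ncard_sdiff_singleton_of_mem heE, hn]) k hk
            (by rw [delete_ground, rk_delete M le_rfl, hrk, hrkM]) (q + 1) (by omega)
          have h2 := cc_eq_delete_add_ce M e
          have h3 := ce_lower hs hc heE ((q + 1) / 2)
          have h4 : ((q + 1).choose 2 : ℤ) ≤ (((q + 1) / 2 : ℕ) : ℤ) * ((M.E.ncard : ℤ) - 1)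
              - (((q + 1) / 2 + 1).choose 2 : ℤ) * ((rk M M.E : ℤ) - 1) := by
            have h5 : ((rk M M.E : ℤ) - 1) = 2 * (k : ℤ) := by
              rw [hrkM]; push_cast; ring
            rw [h5]
            apply deletion_U (q := ((q + 1 : ℕ) : ℤ)) (N := (M.E.ncard : ℤ) - 1)
              (k := (k : ℤ)) (j := (((q + 1) / 2 : ℕ) : ℤ))
            · positivity
            · exact_mod_cast hk2
            · have := Nat.div_add_mod (q + 1) 2
              have h5 := Nat.mod_lt (q + 1) (show 2 > 0 by norm_num)
              omega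
            · exact two_choose _
            · exact two_mul_choose_two (q + 1)
            · rw [hn]
              have : (((q + 1) * k + 1 : ℕ) : ℤ) < (n : ℤ) := by exact_mod_cast hsmall
              push_cast at this ⊢
              linarith
          have h5 : (cc M : ℤ) = cc (M ＼ {e}) + ce M e := by exact_mod_cast h2
          have h6 : ((n - 1 : ℕ) : ℤ) = (n : ℤ) - 1 := by
            push_cast [Nat.cast_sub (show 1 ≤ n by omega)]; ring
          rw [h6] at h1
          rw [h5]
          linarith
  · -- disconnected
    unfold Conn at hc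
    push Not at hc
    obtain ⟨A₀, hA₀, hA1₀, hB1₀, hAB₀⟩ := hc
    -- choose the side of odd rank
    have hex : ∃ A B : Set α, A ⊆ M.E ∧ B ⊆ M.E ∧ A.Nonempty ∧ B.Nonempty ∧ Disjoint A B ∧
        A.ncard + B.ncard = n ∧ rk M A + rk M B = rk M M.E ∧ ∃ a, rk M A = 2 * a + 1 := by
      have hcard : A₀.ncard + (M.E \ A₀).ncard = n := by
        rw [← hn]
        have := ncard_sdiff_add_ncard_of_subset hA₀ hEfin
        omega
      have hrr : rk M A₀ + rk M (M.E \ A₀) = rk M M.E := by
        have := rk_union_le M A₀ (M.E \ A₀)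
        rw [union_sdiff_cancel hA₀] at this
        omega
      rcases Nat.even_or_odd' (rk M A₀) with ⟨a, ha | ha⟩
      · refine ⟨M.E \ A₀, A₀, sdiff_subset, hA₀, hB1₀, hA1₀, disjoint_sdiff_left, by omega,
          by omega, k - a, by omega⟩
      · exact ⟨A₀, M.E \ A₀, hA₀, sdiff_subset, hA1₀, hB1₀, disjoint_sdiff_right, hcard, hrr,
          a, ha⟩
    obtain ⟨A, B, hA, hBE, hA1, hB1, hdisj, hcard, hrr, a, ha⟩ := hex
    have hfA := finite_restrict hA
    have hfB := finite_restrict hBE
    have hA0 : 0 < A.ncard := by rw [ncard_pos (finite_of_subset_ground hA)]; exact hA1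
    have hB0 : 0 < B.ncard := by rw [ncard_pos (finite_of_subset_ground hBE)]; exact hB1
    have h2 := T_bound (hs.restrict hBE) (hg.restrict hBE) q
    rw [restrict_ground_eq, rk_restrict M le_rfl] at h2
    have h3 := cc_add_le hA hBE hdisj
    have h4 : (cc (M ↾ A) : ℤ) + cc (M ↾ B) ≤ cc M := by exact_mod_cast h3
    have h5 : (A.ncard : ℤ) + B.ncard = n := by exact_mod_cast hcard
    have h6 : (rk M A : ℤ) + rk M B = 2 * k + 1 := by
      have : rk M A + rk M B = 2 * k + 1 := by omega
      exact_mod_cast this
    rcases Nat.eq_zero_or_pos a with ha0 | ha0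
    · -- rank one: a coloop
      subst ha0
      have h7 := ncard_le_one_of_rk (hs.restrict hA) (by
        rw [restrict_ground_eq, rk_restrict M le_rfl]; omega)
      rw [restrict_ground_eq] at h7
      have h8 : A.ncard = 1 := by omega
      have h9 : rk M A = 1 := by omega
      rw [h8] at h5
      rw [h9] at h6
      have h10 : (0 : ℤ) ≤ cc (M ↾ A) := by positivity
      have h11 : (hh (q + 2) : ℤ) ≤ (q + 1).choose 3 := by
        rw [hh_cast, show q + 2 - 1 = q + 1 by omega]
        have : (0 : ℤ) ≤ corr (q + 1) := by positivity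
        linarith
      have h12 := choose_two_mul q
      have h13 : (B.ncard : ℤ) = n - 1 := by push_cast at h5; linarith
      have h14 : (rk M B : ℤ) = 2 * k := by push_cast at h6; linarith
      rw [h13, h14] at h2
      nlinarith
    · have h7 := ih A.ncard (by omega) (M ↾ A) (hs.restrict hA) (hg.restrict hA) rfl a ha0
        (by rw [restrict_ground_eq, rk_restrict M le_rfl, ha]) q hq
      have h8 : (rk M A : ℤ) = 2 * a + 1 := by exact_mod_cast ha
      have h9 : (rk M B : ℤ) = 2 * k - 2 * a := by linarith
      rw [h9] at h2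
      have h10 : (B.ncard : ℤ) = n - A.ncard := by linarith
      rw [h10] at h2
      nlinarith

theorem U_bound [M.Finite] (hs : Simp M) (hg : Good M) (k : ℕ) (hk : 1 ≤ k)
    (hr : rk M M.E = 2 * k + 1) (q : ℕ) (hq : 2 ≤ q) :
    (q.choose 2 : ℤ) * ((M.E.ncard : ℤ) - q - 2) + hh (q + 2)
      - (2 * k - 2) * ((q + 1).choose 3 : ℤ) ≤ cc M :=
  U_bound_aux M.E.ncard M hs hg rfl k hk hr q hq

end RadonMin
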