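import Pool.Agent.helper6.Radon.Upper

/-!
Planar point sets with few circuits.
-/

open Set Matroid

namespace RadonMin

lemma rel_fst {C : Finset (ℝ × ℝ)} {f : ℝ × ℝ → ℝ} (fp : ∑ x ∈ C, f x • x = 0) :
    ∑ x ∈ C, f x * x.1 = 0 := by
  have h := congrArg Prod.fst fp
  rw [Prod.fst_sum] at h
  simpa using h

lemma rel_snd {C : Finset (ℝ × ℝ)} {f : ℝ × ℝ → ℝ} (fp : ∑ x ∈ C, f x • x = 0) :
    ∑ x ∈ C, f x * x.2 = 0 := by
  have h := congrArg Prod.snd fp
  rw [Prod.snd_sum] at h
  simpa using h

lemma circuit_avoids {C : Finset (ℝ × ℝ)} (hC : FCircuit C) {y : ℝ × ℝ} (hy : y.2 ≠ 0)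
    (h : ∀ x ∈ C, x ≠ y → x.2 = 0) : y ∉ C := by
  intro hyC
  have hnd := hC.1
  unfold AffInd at hnd
  push Not at hnd
  obtain ⟨f, fs, fp, x0, hx0, hf0⟩ := hnd
  have h1 := rel_snd fp
  rw [Finset.sum_eq_single_of_mem y hyC (fun x hx hxy => by rw [h x hx hxy, mul_zero])] at h1
  have h2 : f y = 0 := by
    rcases mul_eq_zero.mp h1 with h | h
    · exact h
    · exact absurd h hy
  exact hf0 (circuit_rel_ne hC fs fp hyC h2 x0 hx0)

lemma plane_few (n : ℕ) : ∃ S : Finset (ℝ × ℝ), S.card = n + 3 ∧
    Few S ((n + 1).choose 3 + 1 + n.choose 2) := by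
  let φ : ℝ →ₗ[ℝ] ℝ × ℝ := LinearMap.inl ℝ ℝ ℝ
  have hφ : Function.Injective φ := LinearMap.inl_injective
  have hL := (few_line (n + 1)).image φ 0 hφ
  set L := ((Finset.range (n + 1)).image (fun i : ℕ => (i : ℝ))).image (fun x => φ x + 0) with hLdef
  have hLcard : L.card = n + 1 := by
    rw [hLdef, Finset.card_image_of_injective _ (fun a b h => hφ (add_right_cancel h)), card_line]
  have hLmem : ∀ x ∈ L, x.2 = 0 := by
    intro y hy
    obtain ⟨x, _, rfl⟩ := Finset.mem_image.mp hy
    simp [φ]
  have h0L : (0 : ℝ × ℝ) ∈ L := by
    rw [hLdef, Finset.mem_image]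
    refine ⟨0, ?_, by simp [φ]⟩
    rw [Finset.mem_image]
    exact ⟨0, by simp, by simp⟩
  set y1 : ℝ × ℝ := (0, 1) with hy1
  set y2 : ℝ × ℝ := (0, 2) with hy2
  have hy1L : y1 ∉ L := fun h => by have := hLmem _ h; simp [hy1] at this
  have hy2L : y2 ∉ L := fun h => by have := hLmem _ h; simp [hy2] at this
  have hy12 : y1 ≠ y2 := by simp [hy1, hy2]
  have h0y1 : (0 : ℝ × ℝ) ≠ y1 := fun h => hy1L (h ▸ h0L)
  have h0y2 : (0 : ℝ × ℝ) ≠ y2 := fun h => hy2L (h ▸ h0L)
  have hdisj : Disjoint L {y1, y2} := by
    rw [Finset.disjoint_right]
    intro y hy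
    rw [Finset.mem_insert, Finset.mem_singleton] at hy
    rcases hy with rfl | rfl
    · exact hy1L
    · exact hy2L
  refine ⟨L ∪ {y1, y2}, ?_, ?_⟩
  · rw [Finset.card_union_of_disjoint hdisj, hLcard, Finset.card_pair hy12]
  obtain ⟨F, hF, hFc⟩ := hL
  refine ⟨F ∪ {{0, y1, y2}} ∪ ((L.erase 0).powersetCard 2).image (fun T => T ∪ {y1, y2}), ?_, ?_⟩
  · intro C hC hCc
    by_cases hboth : y1 ∈ C ∧ y2 ∈ C
    · obtain ⟨h1, h2⟩ := hboth
      by_cases h0 : (0 : ℝ × ℝ) ∈ C
      · -- the small circuit
        have hD : ({0, y1, y2} : Finset (ℝ × ℝ)) = C := by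
          apply hCc.eq_of_subset
          · intro x hx
            simp only [Finset.mem_insert, Finset.mem_singleton] at hx
            rcases hx with rfl | rfl | rfl <;> assumption
          · intro hind
            have := hind (fun x => if x = 0 then 1 else if x = y1 then -2 else 1) ?_ ?_ 0 (by simp)
            · simp at this
            · rw [Finset.sum_insert (by simp [h0y1, h0y2]), Finset.sum_pair hy12]
              simp only [if_true, h0y1.symm, h0y2.symm, if_false, hy12.symm]
              norm_num
            · rw [Finset.sum_insert (by simp [h0y1, h0y2]), Finset.sum_pair hy12]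
              simp only [if_true, h0y1.symm, h0y2.symm, if_false, hy12.symm]
              simp [hy1, hy2]
        rw [← hD]
        apply Finset.mem_union_left
        apply Finset.mem_union_right
        rw [Finset.mem_singleton]
      · apply Finset.mem_union_right
        set T := (C.erase y1).erase y2 with hT
        have h2' : y2 ∈ C.erase y1 := Finset.mem_erase.mpr ⟨hy12.symm, h2⟩
        have hTC : C = T ∪ {y1, y2} := by
          ext x
          simp only [hT, Finset.mem_union, Finset.mem_erase, Finset.mem_insert,
            Finset.mem_singleton]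
          constructor
          · intro hx
            by_cases e1 : x = y1
            · right; left; exact e1
            · by_cases e2 : x = y2
              · right; right; exact e2
              · left; exact ⟨e2, e1, hx⟩
          · rintro (⟨_, _, hx⟩ | rfl | rfl)
            · exact hx
            · exact h1
            · exact h2
        have hTL : T ⊆ L.erase 0 := by
          intro x hx
          rw [hT, Finset.mem_erase, Finset.mem_erase] at hx
          obtain ⟨e2, e1, hx⟩ := hx
          rw [Finset.mem_erase]
          refine ⟨fun h => h0 (h ▸ hx), ?_⟩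
          have := hC hx
          rw [Finset.mem_union, Finset.mem_insert, Finset.mem_singleton] at this
          tauto
        have hTcard : T.card + 2 = C.card := by
          rw [hT, Finset.card_erase_of_mem h2', Finset.card_erase_of_mem h1]
          have := hCc.three_le
          omega
        have hc1 := hCc.card_le
        have hc2 := hCc.three_le
        have hfr : Module.finrank ℝ (ℝ × ℝ) = 2 := by
          rw [Module.finrank_prod, Module.finrank_self]
        rw [hfr] at hc1
        rw [Finset.mem_image]
        have hT12 : T.card = 1 ∨ T.card = 2 := by omega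
        rcases hT12 with h | h
        · exfalso
          obtain ⟨p, hp⟩ := Finset.card_eq_one.mp h
          have hpT : p ∈ T := by rw [hp]; simp
          have hpC : p ∈ C := by rw [hTC]; exact Finset.mem_union_left _ hpT
          have hpL := hTL hpT
          rw [Finset.mem_erase] at hpL
          have hp1 : p.1 ≠ 0 := by
            intro h
            apply hpL.1
            rw [Prod.ext_iff]
            exact ⟨h, hLmem p hpL.2⟩
          have hnd := hCc.1
          unfold AffInd at hnd
          push Not at hnd
          obtain ⟨f, fs, fp, x0, hx0, hf0⟩ := hnd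
          have h3 := rel_fst fp
          rw [Finset.sum_eq_single_of_mem p hpC] at h3
          · have h4 : f p = 0 := by
              rcases mul_eq_zero.mp h3 with h | h
              · exact h
              · exact absurd h hp1
            exact hf0 (circuit_rel_ne hCc fs fp hpC h4 x0 hx0)
          · intro x hx hxp
            rw [hTC, hp, Finset.mem_union, Finset.mem_insert, Finset.mem_singleton,
              Finset.mem_singleton] at hx
            rcases hx with h | rfl | rfl
            · exact absurd h hxp
            · simp [hy1]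
            · simp [hy2]
        · exact ⟨T, Finset.mem_powersetCard.mpr ⟨hTL, h⟩, hTC.symm⟩
    · apply Finset.mem_union_left
      apply Finset.mem_union_left
      apply hF C _ hCc
      have hmem : ∀ x ∈ C, x ≠ y1 → x ≠ y2 → x ∈ L := by
        intro x hx e1 e2
        have := hC hx
        rw [Finset.mem_union, Finset.mem_insert, Finset.mem_singleton] at this
        tauto
      have n1 : y1 ∉ C := by
        intro hyC
        have hy2C : y2 ∉ C := fun h => hboth ⟨hyC, h⟩
        refine circuit_avoids hCc (y := y1) (by simp [hy1]) ?_ hyC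
        intro x hx hxy
        exact hLmem x (hmem x hx hxy (fun h => hy2C (h ▸ hx)))
      have n2 : y2 ∉ C := by
        refine circuit_avoids hCc (y := y2) (by simp [hy2]) ?_
        intro x hx hxy
        exact hLmem x (hmem x hx (fun h => n1 (h ▸ hx)) hxy)
      intro x hx
      exact hmem x hx (fun h => n1 (h ▸ hx)) (fun h => n2 (h ▸ hx))
  · refine (Finset.card_union_le _ _).trans ?_
    have c1 : (F ∪ {{0, y1, y2}}).card ≤ (n + 1).choose 3 + 1 := by
      refine (Finset.card_union_le _ _).trans ?_
      rw [Finset.card_singleton]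
      omega
    have c2 : (((L.erase 0).powersetCard 2).image (fun T => T ∪ {y1, y2})).card ≤ n.choose 2 := by
      refine Finset.card_image_le.trans ?_
      rw [Finset.card_powersetCard, Finset.card_erase_of_mem h0L, hLcard, Nat.add_sub_cancel]
    omega

end RadonMin
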