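import Pool.Agent.helper6.Radon.Planar

/-!
The six points of a complete quadrilateral have seven circuits.
-/

open Set Matroid

namespace RadonMin

/-- The area form for points with integer coordinates. -/
def det3 (p q r : ℤ × ℤ) : ℤ := (q.1 - p.1) * (r.2 - p.2) - (r.1 - p.1) * (q.2 - p.2)

/-- A point with integer coordinates as a point of the real plane. -/
def toR (p : ℤ × ℤ) : ℝ × ℝ := ((p.1 : ℝ), (p.2 : ℝ))

lemma toR_injective : Function.Injective toR := by
  intro p q h
  unfold toR at h
  rw [Prod.mk.injEq] at h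
  rw [Prod.ext_iff]
  exact ⟨by exact_mod_cast h.1, by exact_mod_cast h.2⟩

lemma affInd_of_det {p q r : ℤ × ℤ} (hpq : p ≠ q) (hqr : q ≠ r) (hpr : p ≠ r)
    (h : det3 p q r ≠ 0) : AffInd ({toR p, toR q, toR r} : Finset (ℝ × ℝ)) := by
  intro f fs fp
  have e1 : toR p ∉ ({toR q, toR r} : Finset (ℝ × ℝ)) := by
    rw [Finset.mem_insert, Finset.mem_singleton]
    rintro (h | h)
    · exact hpq (toR_injective h)
    · exact hpr (toR_injective h)
  have e2 : toR q ≠ toR r := fun h => hqr (toR_injective h)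
  have f1 := rel_fst fp
  have f2 := rel_snd fp
  rw [Finset.sum_insert e1, Finset.sum_pair e2] at fs f1 f2
  simp only [toR] at f1 f2
  have hd : (det3 p q r : ℝ) ≠ 0 := by exact_mod_cast h
  have hdet : (det3 p q r : ℝ) = ((q.1 : ℝ) - p.1) * ((r.2 : ℝ) - p.2) -
      ((r.1 : ℝ) - p.1) * ((q.2 : ℝ) - p.2) := by unfold det3; push_cast; ring
  set a := f (toR p) with ha
  set b := f (toR q) with hb
  set c := f (toR r) with hc
  have fs' : a + (b + c) = 0 := fs
  have f1' : a * (p.1 : ℝ) + (b * (q.1 : ℝ) + c * (r.1 : ℝ)) = 0 := f1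
  have f2' : a * (p.2 : ℝ) + (b * (q.2 : ℝ) + c * (r.2 : ℝ)) = 0 := f2
  have hb0 : b * (det3 p q r : ℝ) = 0 := by
    rw [hdet]
    linear_combination ((r.2 : ℝ) - p.2) * (f1' - (p.1 : ℝ) * fs') -
      ((r.1 : ℝ) - p.1) * (f2' - (p.2 : ℝ) * fs')
  have hc0 : c * (det3 p q r : ℝ) = 0 := by
    rw [hdet]
    linear_combination ((q.1 : ℝ) - p.1) * (f2' - (p.2 : ℝ) * fs') -
      ((q.2 : ℝ) - p.2) * (f1' - (p.1 : ℝ) * fs')
  have hb1 : b = 0 := by
    rcases mul_eq_zero.mp hb0 with h | h
    · exact h
    · exact absurd h hd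
  have hc1 : c = 0 := by
    rcases mul_eq_zero.mp hc0 with h | h
    · exact h
    · exact absurd h hd
  have ha1 : a = 0 := by rw [hb1, hc1] at fs'; linarith
  intro x hx
  simp only [Finset.mem_insert, Finset.mem_singleton] at hx
  rcases hx with rfl | rfl | rfl
  · exact ha1
  · exact hb1
  · exact hc1

lemma not_affInd_of_det {p q r : ℤ × ℤ} (hpq : p ≠ q) (hqr : q ≠ r) (hpr : p ≠ r)
    (h : det3 p q r = 0) : ¬ AffInd ({toR p, toR q, toR r} : Finset (ℝ × ℝ)) := by
  have e1 : toR p ≠ toR q := fun h => hpq (toR_injective h)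
  have e2 : toR q ≠ toR r := fun h => hqr (toR_injective h)
  have e3 : toR p ≠ toR r := fun h => hpr (toR_injective h)
  have e4 : toR p ∉ ({toR q, toR r} : Finset (ℝ × ℝ)) := by
    rw [Finset.mem_insert, Finset.mem_singleton]
    rintro (h | h)
    · exact e1 h
    · exact e3 h
  have hdet : ((q.1 : ℝ) - p.1) * ((r.2 : ℝ) - p.2) -
      ((r.1 : ℝ) - p.1) * ((q.2 : ℝ) - p.2) = 0 := by
    have : (det3 p q r : ℝ) = 0 := by exact_mod_cast h
    unfold det3 at this; push_cast at this; exact this
  intro hind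
  have key : ∀ a b c : ℝ, a + (b + c) = 0 → a * (p.1 : ℝ) + (b * (q.1 : ℝ) + c * (r.1 : ℝ)) = 0 →
      a * (p.2 : ℝ) + (b * (q.2 : ℝ) + c * (r.2 : ℝ)) = 0 → b = 0 ∧ c = 0 := by
    intro a b c h1 h2 h3
    have h4 := hind (fun x => if x = toR p then a else if x = toR q then b else c)
    rw [Finset.sum_insert e4, Finset.sum_pair e2, Finset.sum_insert e4, Finset.sum_pair e2] at h4
    simp only [if_true, e1.symm, if_false, e3.symm, e2.symm] at h4
    have h5 : a • toR p + (b • toR q + c • toR r) = 0 := by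
      unfold toR
      rw [Prod.ext_iff]
      constructor
      · simpa using h2
      · simpa using h3
    have h6 := h4 h1 h5
    refine ⟨?_, ?_⟩
    · simpa [e1.symm] using h6 (toR q) (by simp)
    · simpa [e3.symm, e2.symm] using h6 (toR r) (by simp)
  have k1 := key ((q.1 : ℝ) - r.1) ((r.1 : ℝ) - p.1) ((p.1 : ℝ) - q.1) (by ring) (by ring)
    (by linear_combination - hdet)
  have k2 := key ((q.2 : ℝ) - r.2) ((r.2 : ℝ) - p.2) ((p.2 : ℝ) - q.2) (by ring)
    (by linear_combination hdet) (by ring)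
  apply hpq
  rw [Prod.ext_iff]
  refine ⟨?_, ?_⟩
  · have := k1.2; have h : (p.1 : ℝ) = q.1 := by linarith
    exact_mod_cast h
  · have := k2.2; have h : (p.2 : ℝ) = q.2 := by linarith
    exact_mod_cast h

/-- The six vertices of a complete quadrilateral. -/
def quad : Finset (ℤ × ℤ) := {(0, 0), (4, 0), (0, 4), (2, 0), (0, -2), (3, 1)}

/-- The candidates for circuits in the complete quadrilateral. -/
def quadC : Finset (Finset (ℤ × ℤ)) :=
  quad.powerset.filter (fun C =>
    (C.card = 3 ∧ ∀ p ∈ C, ∀ q ∈ C, ∀ r ∈ C, p ≠ q → q ≠ r → p ≠ r → det3 p q r = 0) ∨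
    (C.card = 4 ∧ ∀ p ∈ C, ∀ q ∈ C, ∀ r ∈ C, p ≠ q → q ≠ r → p ≠ r → det3 p q r ≠ 0))

lemma quadC_card : quadC.card = 7 := by decide +kernel

lemma quad_card : quad.card = 6 := by decide +kernel

lemma quad_few : Few (quad.image toR) 7 := by
  refine ⟨quadC.image (fun C => C.image toR), ?_, ?_⟩
  · intro C hC hCc
    obtain ⟨C', hC', rfl⟩ := Finset.subset_image_iff.mp hC
    have hC'S : C' ⊆ quad := by exact_mod_cast hC'
    apply Finset.mem_image_of_mem
    unfold quadC
    rw [Finset.mem_filter, Finset.mem_powerset]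
    refine ⟨hC'S, ?_⟩
    have hfr : Module.finrank ℝ (ℝ × ℝ) = 2 := by
      rw [Module.finrank_prod, Module.finrank_self]
    have hc1 := hCc.card_le
    have hc2 := hCc.three_le
    rw [hfr, Finset.card_image_of_injective _ toR_injective] at hc1
    rw [Finset.card_image_of_injective _ toR_injective] at hc2
    have himg : ∀ p q r : ℤ × ℤ, ({toR p, toR q, toR r} : Finset (ℝ × ℝ)) =
        ({p, q, r} : Finset (ℤ × ℤ)).image toR := by
      intro p q r; simp [Finset.image_insert]
    have h34 : C'.card = 3 ∨ C'.card = 4 := by omega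
    rcases h34 with h | h
    · left
      refine ⟨h, ?_⟩
      intro p hp q hq r hr hpq hqr hpr
      by_contra hne
      have h1 := affInd_of_det hpq hqr hpr hne
      apply hCc.1
      have h2 : ({p, q, r} : Finset (ℤ × ℤ)) = C' := by
        apply Finset.eq_of_subset_of_card_le
        · intro x hx
          simp only [Finset.mem_insert, Finset.mem_singleton] at hx
          rcases hx with rfl | rfl | rfl <;> assumption
        · rw [h, Finset.card_eq_three.mpr ⟨p, q, r, hpq, hpr, hqr, rfl⟩]
      rw [← h2, ← himg]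
      exact h1
    · right
      refine ⟨h, ?_⟩
      intro p hp q hq r hr hpq hqr hpr h0
      have h1 := not_affInd_of_det hpq hqr hpr h0
      have h2 : ({toR p, toR q, toR r} : Finset (ℝ × ℝ)) = C'.image toR := by
        apply hCc.eq_of_subset _ h1
        rw [himg]
        apply Finset.image_subset_image
        intro x hx
        simp only [Finset.mem_insert, Finset.mem_singleton] at hx
        rcases hx with rfl | rfl | rfl <;> assumption
      have h3 := congrArg Finset.card h2
      rw [Finset.card_image_of_injective _ toR_injective, h] at h3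
      have h4 : ({toR p, toR q, toR r} : Finset (ℝ × ℝ)).card ≤ 3 := Finset.card_le_three
      omega
  · exact Finset.card_image_le.trans (by rw [quadC_card])

lemma choose_two_succ_nat (n : ℕ) : (n + 1).choose 2 = n + n.choose 2 := by
  have := Nat.choose_succ_succ' n 1
  rw [Nat.choose_one_right] at this
  exact this

/-- The minimum in the plane is attained. -/
lemma hasSet'_two (N : ℕ) (hN : 4 ≤ N) : HasSet' 2 N (hh N) := by
  have hfr : Module.finrank ℝ (ℝ × ℝ) = 2 := by
    rw [Module.finrank_prod, Module.finrank_self]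
  by_cases h6 : N = 6
  · subst h6
    refine ⟨ℝ × ℝ, inferInstance, inferInstance, inferInstance, inferInstance, quad.image toR, hfr,
      ?_, quad_few⟩
    rw [Finset.card_image_of_injective _ toR_injective, quad_card]
  · obtain ⟨n, rfl⟩ : ∃ n, N = n + 3 := ⟨N - 3, by omega⟩
    obtain ⟨S, hS, hfew⟩ := plane_few n
    refine ⟨ℝ × ℝ, inferInstance, inferInstance, inferInstance, inferInstance, S, hfr, hS,
      hfew.mono ?_⟩
    unfold hh corr
    have e1 : n + 3 - 1 = n + 2 := by omega
    rw [e1]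
    have e2 : (n + 2).choose 3 = (n + 1).choose 2 + (n + 1).choose 3 := Nat.choose_succ_succ' _ _
    rw [e2, choose_two_succ_nat, if_neg (by omega)]
    omega

end RadonMin
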