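import Pool.Agent.helper6.Radon.Lower

/-!
Circuits of simple matroids of rank three.
-/

open Set Matroid

namespace RadonMin

variable {α : Type*} {M : Matroid α} {e f : α}

lemma indep_of_not_circuit [M.Finite] (hs : Simp M) {X : Set α} (hX : X ⊆ M.E) (h : X.ncard ≤ 3)
    (hc : ¬ M.IsCircuit X) : M.Indep X := by
  rw [indep_iff_forall_subset_not_isCircuit hX]
  intro C hCX hC
  have h1 := hs C hC
  have hXf := finite_of_subset_ground hX
  have h2 : C = X := eq_of_subset_of_ncard_le hCX (by omega) hXf
  rw [h2] at hC
  exact hc hC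

lemma circuit_of_four [M.Finite] (hs : Simp M) (hr : rk M M.E ≤ 3) {X : Set α} (hX : X ⊆ M.E)
    (h : X.ncard = 4) (hc : ∀ x ∈ X, ¬ M.IsCircuit (X \ {x})) : M.IsCircuit X := by
  rw [isCircuit_iff_dep_forall_sdiff_singleton_indep]
  refine ⟨⟨?_, hX⟩, ?_⟩
  · intro h'
    have h1 := rk_indep h'
    have h2 := rk_mono M hX
    omega
  · intro x hx
    apply indep_of_not_circuit hs (sdiff_subset.trans hX) _ (hc x hx)
    rw [ncard_sdiff_singleton_of_mem hx]
    omega

/-- The setting: a longest line `L` in a rank three matroid. -/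
structure LineData (M : Matroid α) [DecidableEq α] (E' L : Finset α) : Prop where
  coe_E : (E' : Set α) = M.E
  simp : Simp M
  rk_E : rk M M.E = 3
  sub : L ⊆ E'
  rk_L : rk M (L : Set α) ≤ 2
  max : ∀ K : Finset α, K ⊆ E' → rk M (K : Set α) ≤ 2 → K.card ≤ L.card

section

open scoped Classical

variable [DecidableEq α] {E' L : Finset α}

lemma exists_lineData (M : Matroid α) [M.Finite] (hs : Simp M) (hr : rk M M.E = 3) :
    ∃ E' L : Finset α, LineData M E' L := by
  classical
  set E' := M.ground_finite.toFinset with hE'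
  have hcoe : (E' : Set α) = M.E := by simp [hE']
  have hne : (E'.powerset.filter (fun K : Finset α => rk M (K : Set α) ≤ 2)).Nonempty := by
    refine ⟨∅, ?_⟩
    rw [Finset.mem_filter]
    refine ⟨Finset.empty_mem_powerset _, ?_⟩
    have := rk_indep (M := M) M.empty_indep
    rw [ncard_empty] at this
    simp only [Finset.coe_empty]
    omega
  obtain ⟨L, hL, hmax⟩ := Finset.exists_max_image _ Finset.card hne
  rw [Finset.mem_filter, Finset.mem_powerset] at hL
  refine ⟨E', L, hcoe, hs, hr, hL.1, hL.2, ?_⟩
  intro K hK hK2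
  exact hmax K (by rw [Finset.mem_filter, Finset.mem_powerset]; exact ⟨hK, hK2⟩)

namespace LineData

variable (D : LineData M E' L)

include D

lemma mem_E {x : α} : x ∈ E' ↔ x ∈ M.E := by
  rw [← D.coe_E]; simp

lemma sub_E {s : Finset α} (h : s ⊆ E') : (s : Set α) ⊆ M.E := by
  rw [← D.coe_E]; exact_mod_cast h

/-- adding a point outside the line increases the rank -/
lemma rk_insert [M.Finite] {y : α} (hy : y ∈ E') (hyL : y ∉ L) :
    rk M (insert y (L : Set α)) = 3 := by
  have h1 : rk M (insert y (L : Set α)) ≤ 3 := by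
    rw [← D.rk_E]
    exact rk_mono M (insert_subset (D.mem_E.mp hy) (D.sub_E D.sub))
  by_contra h
  have h2 : rk M ((insert y L : Finset α) : Set α) ≤ 2 := by
    rw [Finset.coe_insert]; omega
  have h3 := D.max (insert y L) (Finset.insert_subset hy D.sub) h2
  rw [Finset.card_insert_of_notMem hyL] at h3
  omega

lemma circuit_in_line [M.Finite] {s : Finset α} (hs : s ⊆ L) (h3 : s.card = 3) :
    M.IsCircuit (s : Set α) := by
  apply isCircuit_of_rk_le_two D.simp (D.sub_E (hs.trans D.sub))
  · rw [ncard_coe_finset]; exact h3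
  · exact (rk_mono M (by exact_mod_cast hs)).trans D.rk_L

/-- no triangle with exactly two points on the line -/
lemma not_circuit_two_one [M.Finite] {a b y : α} (ha : a ∈ L) (hb : b ∈ L) (hab : a ≠ b)
    (hy : y ∈ E') (hyL : y ∉ L) : ¬ M.IsCircuit ({a, b, y} : Set α) := by
  intro hC
  have h1 : y ∈ M.closure (L : Set α) := by
    have h2 := hC.mem_closure_sdiff_singleton_of_mem (e := y) (by simp)
    apply M.closure_mono _ h2
    rintro z ⟨hz, hzy⟩
    simp only [mem_insert_iff, mem_singleton_iff] at hz hzy
    rcases hz with rfl | rfl | rfl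
    · exact_mod_cast ha
    · exact_mod_cast hb
    · exact absurd rfl hzy
  have h2 := rk_insert_of_mem_closure h1
  have h3 := D.rk_insert hy hyL
  have h4 := D.rk_L
  omega

/-- at most one point of the line is collinear with two outside points -/
lemma not_both [M.Finite] {a b y z : α} (ha : a ∈ L) (hb : b ∈ L) (hab : a ≠ b)
    (hy : y ∈ E') (hyL : y ∉ L) (hz : z ∈ E') (hzL : z ∉ L) (hyz : y ≠ z)
    (h1 : M.IsCircuit ({a, y, z} : Set α)) : ¬ M.IsCircuit ({b, y, z} : Set α) := by
  intro h2
  have hay : a ≠ y := fun h => hyL (h ▸ ha)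
  have haz : a ≠ z := fun h => hzL (h ▸ ha)
  have hby : b ≠ y := fun h => hyL (h ▸ hb)
  have hbz : b ≠ z := fun h => hzL (h ▸ hb)
  have ha' : a ∈ M.closure {y, z} := by
    have h3 := h1.mem_closure_sdiff_singleton_of_mem (e := a) (by simp)
    apply M.closure_mono _ h3
    rintro x ⟨hx, hxa⟩
    simp only [mem_insert_iff, mem_singleton_iff] at hx hxa ⊢
    tauto
  have hb' : b ∈ M.closure {y, z} := by
    have h3 := h2.mem_closure_sdiff_singleton_of_mem (e := b) (by simp)
    apply M.closure_mono _ h3
    rintro x ⟨hx, hxa⟩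
    simp only [mem_insert_iff, mem_singleton_iff] at hx hxa ⊢
    tauto
  have haE := D.mem_E.mp (D.sub ha)
  have hbE := D.mem_E.mp (D.sub hb)
  have hyE := D.mem_E.mp hy
  have hzE := D.mem_E.mp hz
  have hyzr : rk M ({y, z} : Set α) ≤ 2 := by
    have h5 := rk_le_ncard (M := M) (X := {y, z}) (by
      rintro x hx
      simp only [mem_insert_iff, mem_singleton_iff] at hx
      rcases hx with rfl | rfl
      · exact hyE
      · exact hzE)
    have h6 : ({y, z} : Set α).ncard = 2 := ncard_pair hyz
    omega
  have h5 : rk M (insert b (insert a ({y, z} : Set α))) ≤ 2 := by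
    rw [rk_insert_of_mem_closure (M.closure_mono (subset_insert _ _) hb'),
      rk_insert_of_mem_closure ha']
    exact hyzr
  apply D.not_circuit_two_one ha hb hab hy hyL
  apply isCircuit_of_rk_le_two D.simp
  · rintro x hx
    simp only [mem_insert_iff, mem_singleton_iff] at hx
    rcases hx with rfl | rfl | rfl
    · exact haE
    · exact hbE
    · exact hyE
  · rw [ncard_eq_three]
    exact ⟨a, b, y, hab, hay, hby, rfl⟩
  · refine (rk_mono M ?_).trans h5
    intro x hx
    simp only [mem_insert_iff, mem_singleton_iff] at hx ⊢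
    tauto

/-- four points, two on the line, two outside, form a circuit when no outside pair is collinear
with one of the line points -/
lemma circuit_two_two [M.Finite] {a b y z : α} (ha : a ∈ L) (hb : b ∈ L) (hab : a ≠ b)
    (hy : y ∈ E') (hyL : y ∉ L) (hz : z ∈ E') (hzL : z ∉ L) (hyz : y ≠ z)
    (h1 : ¬ M.IsCircuit ({a, y, z} : Set α)) (h2 : ¬ M.IsCircuit ({b, y, z} : Set α)) :
    M.IsCircuit ({a, b, y, z} : Set α) := by
  have hay : a ≠ y := fun h => hyL (h ▸ ha)
  have haz : a ≠ z := fun h => hzL (h ▸ ha)
  have hby : b ≠ y := fun h => hyL (h ▸ hb)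
  have hbz : b ≠ z := fun h => hzL (h ▸ hb)
  have haE := D.mem_E.mp (D.sub ha)
  have hbE := D.mem_E.mp (D.sub hb)
  have hyE := D.mem_E.mp hy
  have hzE := D.mem_E.mp hz
  apply circuit_of_four D.simp D.rk_E.le
  · rintro x hx
    simp only [mem_insert_iff, mem_singleton_iff] at hx
    rcases hx with rfl | rfl | rfl | rfl
    · exact haE
    · exact hbE
    · exact hyE
    · exact hzE
  · rw [ncard_insert_of_notMem (by simp [hab, hay, haz]), ncard_insert_of_notMem (by simp [hby, hbz]),
      ncard_pair hyz]
  · intro x hx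
    simp only [mem_insert_iff, mem_singleton_iff] at hx
    rcases hx with rfl | rfl | rfl | rfl
    · have : ({x, b, y, z} : Set α) \ {x} = {b, y, z} := by
        ext w; simp only [mem_sdiff, mem_insert_iff, mem_singleton_iff]
        constructor
        · rintro ⟨h | h | h | h, h'⟩
          · exact absurd h h'
          · exact Or.inl h
          · exact Or.inr (Or.inl h)
          · exact Or.inr (Or.inr h)
        · rintro (rfl | rfl | rfl)
          · exact ⟨Or.inr (Or.inl rfl), hab.symm⟩
          · exact ⟨Or.inr (Or.inr (Or.inl rfl)), hay.symm⟩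
          · exact ⟨Or.inr (Or.inr (Or.inr rfl)), haz.symm⟩
      rw [this]; exact h2
    · have : ({a, x, y, z} : Set α) \ {x} = {a, y, z} := by
        ext w; simp only [mem_sdiff, mem_insert_iff, mem_singleton_iff]
        constructor
        · rintro ⟨h | h | h | h, h'⟩
          · exact Or.inl h
          · exact absurd h h'
          · exact Or.inr (Or.inl h)
          · exact Or.inr (Or.inr h)
        · rintro (rfl | rfl | rfl)
          · exact ⟨Or.inl rfl, hab⟩
          · exact ⟨Or.inr (Or.inr (Or.inl rfl)), hby.symm⟩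
          · exact ⟨Or.inr (Or.inr (Or.inr rfl)), hbz.symm⟩
      rw [this]; exact h1
    · have : ({a, b, x, z} : Set α) \ {x} = {a, b, z} := by
        ext w; simp only [mem_sdiff, mem_insert_iff, mem_singleton_iff]
        constructor
        · rintro ⟨h | h | h | h, h'⟩
          · exact Or.inl h
          · exact Or.inr (Or.inl h)
          · exact absurd h h'
          · exact Or.inr (Or.inr h)
        · rintro (rfl | rfl | rfl)
          · exact ⟨Or.inl rfl, hay⟩
          · exact ⟨Or.inr (Or.inl rfl), hby⟩
          · exact ⟨Or.inr (Or.inr (Or.inr rfl)), hyz.symm⟩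
      rw [this]; exact D.not_circuit_two_one ha hb hab hz hzL
    · have : ({a, b, y, x} : Set α) \ {x} = {a, b, y} := by
        ext w; simp only [mem_sdiff, mem_insert_iff, mem_singleton_iff]
        constructor
        · rintro ⟨h | h | h | h, h'⟩
          · exact Or.inl h
          · exact Or.inr (Or.inl h)
          · exact Or.inr (Or.inr h)
          · exact absurd h h'
        · rintro (rfl | rfl | rfl)
          · exact ⟨Or.inl rfl, haz⟩
          · exact ⟨Or.inr (Or.inl rfl), hbz⟩
          · exact ⟨Or.inr (Or.inr (Or.inl rfl)), hyz⟩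
      rw [this]; exact D.not_circuit_two_one ha hb hab hy hyL

/-- `b` in the line is bad for `Y` when `b` together with `Y` is a circuit -/
lemma card_bad_le [M.Finite] {Y : Finset α} (hY : Y ∈ (E' \ L).powersetCard 2) :
    (L.filter (fun b => M.IsCircuit ((insert b Y : Finset α) : Set α))).card ≤ 1 := by
  rw [Finset.card_le_one]
  intro a ha b hb
  rw [Finset.mem_filter] at ha hb
  by_contra hab
  rw [Finset.mem_powersetCard] at hY
  obtain ⟨y, z, hyz, rfl⟩ := Finset.card_eq_two.mp hY.2
  have hy := hY.1 (Finset.mem_insert_self y _)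
  have hz := hY.1 (Finset.mem_insert_of_mem (Finset.mem_singleton_self z))
  rw [Finset.mem_sdiff] at hy hz
  have h1 : M.IsCircuit ({a, y, z} : Set α) := by simpa using ha.2
  have h2 : M.IsCircuit ({b, y, z} : Set α) := by simpa using hb.2
  exact D.not_both ha.1 hb.1 hab hy.1 hy.2 hz.1 hz.2 hyz h1 h2

lemma circuit_pair_pair [M.Finite] {Y : Finset α} (hY : Y ∈ (E' \ L).powersetCard 2) {a b : α}
    (ha : a ∈ L) (hb : b ∈ L) (hab : a ≠ b)
    (h1 : ¬ M.IsCircuit ((insert a Y : Finset α) : Set α))
    (h2 : ¬ M.IsCircuit ((insert b Y : Finset α) : Set α)) :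
    M.IsCircuit ((insert a (insert b Y) : Finset α) : Set α) := by
  rw [Finset.mem_powersetCard] at hY
  obtain ⟨y, z, hyz, rfl⟩ := Finset.card_eq_two.mp hY.2
  have hy := hY.1 (Finset.mem_insert_self y _)
  have hz := hY.1 (Finset.mem_insert_of_mem (Finset.mem_singleton_self z))
  rw [Finset.mem_sdiff] at hy hz
  have h1 : ¬ M.IsCircuit ({a, y, z} : Set α) := by simpa using h1
  have h2 : ¬ M.IsCircuit ({b, y, z} : Set α) := by simpa using h2
  have := D.circuit_two_two ha hb hab hy.1 hy.2 hz.1 hz.2 hyz h1 h2
  simpa using this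

/-- Lower bound for the number of circuits through a point of the longest line. -/
lemma ce_ge [M.Finite] (hf : f ∈ L) :
    (L.card - 1).choose 2 + ∑ Y ∈ (E' \ L).powersetCard 2,
      (if M.IsCircuit ((insert f Y : Finset α) : Set α) then 1 else L.card - 2) ≤ ce M f := by
  classical
  set 𝒞 : Finset (Finset α) :=
    E'.powerset.filter (fun s : Finset α => M.IsCircuit (s : Set α) ∧ f ∈ s) with h𝒞
  set T : Finset (Finset α) := insert ∅ ((E' \ L).powersetCard 2) with hT
  set 𝒞' := 𝒞.filter (fun s => s \ L ∈ T) with h𝒞'
  have h1 : 𝒞'.card ≤ ce M f := by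
    apply card_le_ce
    · intro s hs
      rw [h𝒞', Finset.mem_filter, h𝒞, Finset.mem_filter] at hs
      exact hs.1.2.1
    · intro s hs
      rw [h𝒞', Finset.mem_filter, h𝒞, Finset.mem_filter] at hs
      exact hs.1.2.2
  have h2 : 𝒞'.card = ∑ Y ∈ T, (𝒞'.filter (fun s => s \ L = Y)).card := by
    apply Finset.card_eq_sum_card_fiberwise
    intro s hs
    rw [Finset.mem_coe, h𝒞', Finset.mem_filter] at hs
    exact hs.2
  have hnotin : (∅ : Finset α) ∉ (E' \ L).powersetCard 2 := by
    rw [Finset.mem_powersetCard]; simp
  rw [hT, Finset.sum_insert hnotin] at h2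
  refine le_trans ?_ h1
  rw [h2]
  apply Nat.add_le_add
  · -- circuits inside the line
    have hcard : (((L.erase f).powersetCard 2).image (insert f)).card = (L.card - 1).choose 2 := by
      rw [Finset.card_image_of_injOn, Finset.card_powersetCard, Finset.card_erase_of_mem hf]
      intro s hs t ht hst
      rw [Finset.mem_coe, Finset.mem_powersetCard] at hs ht
      have hfs : f ∉ s := fun h => Finset.notMem_erase f L (hs.1 h)
      have hft : f ∉ t := fun h => Finset.notMem_erase f L (ht.1 h)
      have := congrArg (fun u => Finset.erase u f) hst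
      simpa [Finset.erase_insert hfs, Finset.erase_insert hft] using this
    rw [← hcard]
    apply Finset.card_le_card
    intro s hs
    rw [Finset.mem_image] at hs
    obtain ⟨P, hP, rfl⟩ := hs
    rw [Finset.mem_powersetCard] at hP
    have hfP : f ∉ P := fun h => Finset.notMem_erase f L (hP.1 h)
    have hsub : insert f P ⊆ L := Finset.insert_subset hf (hP.1.trans (Finset.erase_subset _ _))
    have hsd : insert f P \ L = ∅ := Finset.sdiff_eq_empty_iff_subset.mpr hsub
    rw [Finset.mem_filter, h𝒞', Finset.mem_filter, h𝒞, Finset.mem_filter, Finset.mem_powerset]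
    refine ⟨⟨⟨hsub.trans D.sub, D.circuit_in_line hsub ?_, Finset.mem_insert_self _ _⟩, ?_⟩, hsd⟩
    · rw [Finset.card_insert_of_notMem hfP, hP.2]
    · rw [hsd, hT]; exact Finset.mem_insert_self _ _
  · apply Finset.sum_le_sum
    intro Y hY
    have hY' := hY
    rw [Finset.mem_powersetCard] at hY'
    have hYE : Y ⊆ E' := hY'.1.trans Finset.sdiff_subset
    have hYL : Disjoint Y L := by
      rw [Finset.disjoint_left]
      intro y hy
      exact (Finset.mem_sdiff.mp (hY'.1 hy)).2
    have hYsd : Y \ L = Y := Finset.sdiff_eq_self_of_disjoint hYL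
    have htr : ∀ s : Finset α, s ⊆ L → (s ∪ Y) \ L = Y := by
      intro s hs
      rw [Finset.union_sdiff_distrib, hYsd, Finset.sdiff_eq_empty_iff_subset.mpr hs,
        Finset.empty_union]
    have hfE : f ∈ E' := D.sub hf
    split_ifs with hc
    · rw [Nat.succ_le_iff, Finset.card_pos]
      refine ⟨insert f Y, ?_⟩
      have h3 : insert f Y \ L = Y := by
        have := htr {f} (Finset.singleton_subset_iff.mpr hf)
        rwa [← Finset.insert_eq] at this
      rw [Finset.mem_filter, h𝒞', Finset.mem_filter, h𝒞, Finset.mem_filter, Finset.mem_powerset]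
      exact ⟨⟨⟨Finset.insert_subset hfE hYE, hc, Finset.mem_insert_self _ _⟩,
        by rw [h3, hT]; exact Finset.mem_insert_of_mem hY⟩, h3⟩
    · -- two further points
      set G := (L.erase f).filter (fun b => ¬ M.IsCircuit ((insert b Y : Finset α) : Set α)) with hG
      have hGcard : L.card - 2 ≤ G.card := by
        have hb := D.card_bad_le hY
        have h3 : (L.erase f).card ≤ G.card +
            (L.filter (fun b => M.IsCircuit ((insert b Y : Finset α) : Set α))).card := by
          rw [← Finset.card_filter_add_card_filter_not (s := L.erase f)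
            (fun b => ¬ M.IsCircuit ((insert b Y : Finset α) : Set α))]
          apply Nat.add_le_add_left
          apply Finset.card_le_card
          intro b hb
          rw [Finset.mem_filter] at hb ⊢
          exact ⟨Finset.mem_of_mem_erase hb.1, not_not.mp hb.2⟩
        rw [Finset.card_erase_of_mem hf] at h3
        omega
      refine hGcard.trans ?_
      have himg : (G.image (fun b => insert f (insert b Y))).card = G.card := by
        apply Finset.card_image_of_injOn
        intro a ha b hb hab
        rw [Finset.mem_coe, hG, Finset.mem_filter, Finset.mem_erase] at ha hb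
        have haY : a ∉ Y := fun h => Finset.disjoint_left.mp hYL h ha.1.2
        have : a ∈ insert f (insert b Y) := by
          have h4 : a ∈ insert f (insert a Y) := by simp
          have h5 : insert f (insert a Y) = insert f (insert b Y) := hab
          rwa [h5] at h4
        simp only [Finset.mem_insert] at this
        rcases this with h | h | h
        · exact absurd h ha.1.1
        · exact h
        · exact absurd h haY
      rw [← himg]
      apply Finset.card_le_card
      intro s hs
      rw [Finset.mem_image] at hs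
      obtain ⟨b, hb, rfl⟩ := hs
      rw [hG, Finset.mem_filter, Finset.mem_erase] at hb
      have hbE : b ∈ E' := D.sub hb.1.2
      have h3 : insert f (insert b Y) \ L = Y := by
        have := htr {f, b} (by
          intro x hx
          simp only [Finset.mem_insert, Finset.mem_singleton] at hx
          rcases hx with rfl | rfl
          · exact hf
          · exact hb.1.2)
        rwa [show ({f, b} : Finset α) ∪ Y = insert f (insert b Y) by
          ext x; simp] at this
      rw [Finset.mem_filter, h𝒞', Finset.mem_filter, h𝒞, Finset.mem_filter, Finset.mem_powerset]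
      exact ⟨⟨⟨Finset.insert_subset hfE (Finset.insert_subset hbE hYE),
        D.circuit_pair_pair hY hf hb.1.2 (fun h => hb.1.1 h.symm) hc hb.2,
        Finset.mem_insert_self _ _⟩, by rw [h3, hT]; exact Finset.mem_insert_of_mem hY⟩, h3⟩

/-- There is a point on the line that is collinear with few outside pairs. -/
lemma exists_few [M.Finite] (hL : L.Nonempty) : ∃ f ∈ L,
    L.card * (((E' \ L).powersetCard 2).filter
      (fun Y => M.IsCircuit ((insert f Y : Finset α) : Set α))).card ≤ (E' \ L).card.choose 2 := by
  classical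
  by_contra hcon
  push Not at hcon
  have h1 : ∑ f ∈ L, (((E' \ L).powersetCard 2).filter
      (fun Y => M.IsCircuit ((insert f Y : Finset α) : Set α))).card ≤ (E' \ L).card.choose 2 := by
    rw [← Finset.card_powersetCard]
    simp_rw [Finset.card_filter]
    rw [Finset.sum_comm, Finset.card_eq_sum_ones]
    apply Finset.sum_le_sum
    intro Y hY
    rw [← Finset.card_filter]
    exact D.card_bad_le hY
  obtain ⟨f0, hf0, hmin⟩ := Finset.exists_min_image L (fun f => (((E' \ L).powersetCard 2).filter
      (fun Y => M.IsCircuit ((insert f Y : Finset α) : Set α))).card) hL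
  have h2 := Finset.card_nsmul_le_sum L _ _ (fun f hf => hmin f hf)
  rw [smul_eq_mul] at h2
  have h3 := hcon f0 hf0
  omega

/-- rank of an explicit set spanned by two elements -/
lemma rk_le_two_of_subset_closure [M.Finite] {a b : α} {X : Set α} (ha : a ∈ E') (hb : b ∈ E')
    (hX : X ⊆ M.closure {a, b}) : rk M X ≤ 2 := by
  have h1 : M.eRk X ≤ M.eRk {a, b} := by
    rw [← M.eRk_closure_eq {a, b}]
    exact M.eRk_mono hX
  have h2 : M.eRk ({a, b} : Set α) ≤ ({a, b} : Set α).encard := M.eRk_le_encard _
  have h3 : ({a, b} : Set α).encard ≤ 2 := by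
    refine (encard_insert_le _ _).trans ?_
    rw [encard_singleton, one_add_one_eq_two]
  have h4 := h1.trans (h2.trans h3)
  rw [← coe_rk] at h4
  exact_mod_cast h4

/-- If the longest line has at most three points, two triangles share at most one point. -/
lemma triangles_unique [M.Finite] (hL : L.card ≤ 3) {C C' : Finset α} (hC : C ⊆ E')
    (hC' : C' ⊆ E') (h3 : C.card = 3) (h3' : C'.card = 3) (hc : M.IsCircuit (C : Set α))
    (hc' : M.IsCircuit (C' : Set α)) {P : Finset α} (hP : P.card = 2) (hPC : P ⊆ C)
    (hPC' : P ⊆ C') : C = C' := by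
  obtain ⟨a, b, hab, rfl⟩ := Finset.card_eq_two.mp hP
  have haC := hPC (Finset.mem_insert_self a _)
  have hbC := hPC (Finset.mem_insert_of_mem (Finset.mem_singleton_self b))
  have key : ∀ K : Finset α, K ⊆ E' → K.card = 3 → M.IsCircuit (K : Set α) → {a, b} ⊆ K →
      (K : Set α) ⊆ M.closure {a, b} := by
    intro K hKE hK hKc hPK x hx
    by_cases hxab : x ∈ ({a, b} : Set α)
    · refine M.mem_closure_of_mem hxab ?_
      rintro y hy
      simp only [mem_insert_iff, mem_singleton_iff] at hy
      rcases hy with rfl | rfl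
      · exact D.mem_E.mp (hC haC)
      · exact D.mem_E.mp (hC hbC)
    · have h1 := hKc.mem_closure_sdiff_singleton_of_mem hx
      apply M.closure_mono _ h1
      have h2 : K = insert x {a, b} := by
        symm
        apply Finset.eq_of_subset_of_card_le
        · exact Finset.insert_subset (by exact_mod_cast hx) hPK
        · rw [hK, Finset.card_insert_of_notMem (by simpa using hxab), hP]
      rw [h2]
      intro y hy
      simp only [Finset.coe_insert, Finset.coe_singleton, mem_sdiff, mem_insert_iff,
        mem_singleton_iff] at hy ⊢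
      rcases hy.1 with h | h
      · exact absurd h hy.2
      · exact h
  have h1 : rk M ((C ∪ C' : Finset α) : Set α) ≤ 2 := by
    apply D.rk_le_two_of_subset_closure (hC haC) (hC hbC)
    rw [Finset.coe_union]
    exact union_subset (key C hC h3 hc hPC) (key C' hC' h3' hc' hPC')
  have h2 := D.max (C ∪ C') (Finset.union_subset hC hC') h1
  have h4 : C = C ∪ C' := Finset.eq_of_subset_of_card_le Finset.subset_union_left (by omega)
  have h5 : C' = C ∪ C' := Finset.eq_of_subset_of_card_le Finset.subset_union_right (by omega)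
  rw [h4, ← h5]

lemma three_mul_triangles_le [M.Finite] (hL : L.card ≤ 3) :
    3 * ((E'.powersetCard 3).filter (fun C : Finset α => M.IsCircuit (C : Set α))).card ≤
      E'.card.choose 2 := by
  set 𝒯 := (E'.powersetCard 3).filter (fun C : Finset α => M.IsCircuit (C : Set α)) with h𝒯
  have h1 : (𝒯.biUnion (fun C => C.powersetCard 2)).card = ∑ C ∈ 𝒯, (C.powersetCard 2).card := by
    apply Finset.card_biUnion
    intro C hC C' hC' hne
    rw [Finset.mem_coe, h𝒯, Finset.mem_filter, Finset.mem_powersetCard] at hC hC'
    rw [Function.onFun, Finset.disjoint_left]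
    intro P hP hP'
    rw [Finset.mem_powersetCard] at hP hP'
    exact hne (D.triangles_unique hL hC.1.1 hC'.1.1 hC.1.2 hC'.1.2 hC.2 hC'.2 hP.2 hP.1 hP'.1)
  have h2 : ∑ C ∈ 𝒯, (C.powersetCard 2).card = 3 * 𝒯.card := by
    rw [mul_comm, ← smul_eq_mul, ← Finset.sum_const]
    apply Finset.sum_congr rfl
    intro C hC
    rw [h𝒯, Finset.mem_filter, Finset.mem_powersetCard] at hC
    rw [Finset.card_powersetCard, hC.1.2]
    rfl
  rw [← h2, ← h1, ← Finset.card_powersetCard]
  apply Finset.card_le_card
  intro P hP
  rw [Finset.mem_biUnion] at hP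
  obtain ⟨C, hC, hP⟩ := hP
  rw [h𝒯, Finset.mem_filter, Finset.mem_powersetCard] at hC
  rw [Finset.mem_powersetCard] at hP ⊢
  exact ⟨hP.1.trans hC.1.1, hP.2⟩

lemma cc_ge_short [M.Finite] :
    E'.card.choose 4 + ((E'.powersetCard 3).filter
      (fun C : Finset α => M.IsCircuit (C : Set α))).card ≤
    cc M + ((E'.powersetCard 3).filter
      (fun C : Finset α => M.IsCircuit (C : Set α))).card * (E'.card - 3) := by
  set 𝒯 := (E'.powersetCard 3).filter (fun C : Finset α => M.IsCircuit (C : Set α)) with h𝒯
  set 𝒬 := (E'.powersetCard 4).filter (fun C : Finset α => M.IsCircuit (C : Set α)) with h𝒬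
  have h1 : 𝒯.card + 𝒬.card ≤ cc M := by
    have hdisj : Disjoint 𝒯 𝒬 := by
      rw [Finset.disjoint_left]
      intro C hC hC'
      rw [h𝒯, Finset.mem_filter, Finset.mem_powersetCard] at hC
      rw [h𝒬, Finset.mem_filter, Finset.mem_powersetCard] at hC'
      omega
    rw [← Finset.card_union_of_disjoint hdisj]
    apply card_le_cc
    intro C hC
    rw [Finset.mem_union] at hC
    rcases hC with hC | hC
    · rw [h𝒯, Finset.mem_filter] at hC; exact hC.2
    · rw [h𝒬, Finset.mem_filter] at hC; exact hC.2
  have h2 : ((E'.powersetCard 4).filter (fun C : Finset α => ¬ M.IsCircuit (C : Set α))).card ≤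
      𝒯.card * (E'.card - 3) := by
    have h3 : ((E'.powersetCard 4).filter (fun C : Finset α => ¬ M.IsCircuit (C : Set α))) ⊆
        𝒯.biUnion (fun C => (E' \ C).image (fun x => insert x C)) := by
      intro X hX
      rw [Finset.mem_filter, Finset.mem_powersetCard] at hX
      obtain ⟨⟨hXE, hX4⟩, hXc⟩ := hX
      have h4 : ∃ x ∈ X, M.IsCircuit ((X.erase x : Finset α) : Set α) := by
        by_contra hcon
        push Not at hcon
        apply hXc
        apply circuit_of_four D.simp D.rk_E.le (D.sub_E hXE)
        · rw [ncard_coe_finset]; exact hX4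
        · intro x hx
          have := hcon x (by exact_mod_cast hx)
          rwa [Finset.coe_erase] at this
      obtain ⟨x, hx, hxc⟩ := h4
      rw [Finset.mem_biUnion]
      refine ⟨X.erase x, ?_, ?_⟩
      · rw [h𝒯, Finset.mem_filter, Finset.mem_powersetCard]
        refine ⟨⟨(Finset.erase_subset _ _).trans hXE, ?_⟩, hxc⟩
        rw [Finset.card_erase_of_mem hx, hX4]
      · rw [Finset.mem_image]
        exact ⟨x, Finset.mem_sdiff.mpr ⟨hXE hx, Finset.notMem_erase x X⟩, Finset.insert_erase hx⟩
    refine (Finset.card_le_card h3).trans ?_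
    refine Finset.card_biUnion_le.trans ?_
    rw [← smul_eq_mul, ← Finset.sum_const]
    apply Finset.sum_le_sum
    intro C hC
    rw [h𝒯, Finset.mem_filter, Finset.mem_powersetCard] at hC
    refine Finset.card_image_le.trans ?_
    rw [Finset.card_sdiff_of_subset hC.1.1, hC.1.2]
  have h3 := Finset.card_filter_add_card_filter_not (s := E'.powersetCard 4)
    (fun C : Finset α => M.IsCircuit (C : Set α))
  rw [Finset.card_powersetCard, ← h𝒬] at h3
  omega

end LineData

end

end RadonMin
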