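import Pool.Agent.helper6.Radon.Rank3

/-!
The lower bound for simple matroids of rank three.
-/

open Set Matroid

namespace RadonMin

variable {α : Type*} {M : Matroid α} {e f : α}

lemma num_long (l u g : ℤ) (hl : 4 ≤ l) (hu : 2 ≤ u) (hn : 8 ≤ l + u) (hg0 : 0 ≤ g)
    (hg : 2 * (l * g) ≤ u * (u - 1)) : 0 ≤ (u - 2) * ((l - 3) * (u - 1) - 2) - 2 * g * (l - 3) := by
  rcases lt_trichotomy u 3 with h | h | h
  · have hu2 : u = 2 := by omega
    subst hu2
    have hg' : g = 0 := by
      by_contra hne
      have : 1 ≤ g := by omega
      nlinarith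
    subst hg'; norm_num
  · subst h
    have hg' : g = 0 := by
      by_contra hne
      have : 1 ≤ g := by omega
      nlinarith
    subst hg'
    nlinarith
  · rcases lt_or_ge 4 u with h4 | h4
    · -- u ≥ 5
      have h5 : 5 ≤ u := by omega
      obtain ⟨x, rfl⟩ : ∃ x, l = x + 4 := ⟨l - 4, by ring⟩
      obtain ⟨y, rfl⟩ : ∃ y, u = y + 5 := ⟨u - 5, by ring⟩
      have hx : 0 ≤ x := by linarith
      have hy : 0 ≤ y := by linarith
      have hP : 0 ≤ (x + 4) * ((y + 5 - 2) * ((x + 4 - 3) * (y + 5 - 1) - 2))
          - (y + 5) * (y + 5 - 1) * (x + 4 - 3) := by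
        have : (x + 4) * ((y + 5 - 2) * ((x + 4 - 3) * (y + 5 - 1) - 2))
          - (y + 5) * (y + 5 - 1) * (x + 4 - 3) =
          x * x * y * y + 7 * (x * x * y) + 12 * (x * x) + 4 * (x * y * y) + 24 * (x * y)
            + 34 * x + 3 * (y * y) + 11 * y + 4 := by ring
        rw [this]; positivity
      have h6 : (2 * ((x + 4) * g)) * (x + 4 - 3) ≤ ((y + 5) * (y + 5 - 1)) * (x + 4 - 3) :=
        mul_le_mul_of_nonneg_right hg (by linarith)
      have h7 : 0 ≤ (x + 4) * ((y + 5 - 2) * ((x + 4 - 3) * (y + 5 - 1) - 2)
          - 2 * g * (x + 4 - 3)) := by linarith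
      exact nonneg_of_mul_nonneg_right h7 (by linarith)
    · have hu4 : u = 4 := by omega
      subst hu4
      have hg' : g ≤ 1 := by
        by_contra hne
        have : 2 ≤ g := by omega
        nlinarith
      nlinarith

lemma choose_four_cast (n : ℕ) : (24 : ℤ) * (n.choose 4 : ℤ) = n * (n - 1) * (n - 2) * (n - 3) := by
  induction n with
  | zero => simp
  | succ n ih =>
    have h : ((n + 1).choose 4 : ℤ) = n.choose 3 + n.choose 4 := by
      rw [Nat.choose_succ_succ' n 3]; simp
    have h2 := six_mul_choose_three n
    rw [h]; push_cast; linarith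

lemma hh_cast_big (n : ℕ) (hn : 8 ≤ n) :
    6 * (hh n : ℤ) = (n - 1) * (n - 2) * (n - 3) - 6 * (n - 4) := by
  rw [hh_cast]
  have h1 := six_mul_choose_three (n - 1)
  have h2 : corr (n - 1) = n - 4 := by
    unfold corr
    rw [if_neg (by omega)]; omega
  rw [h2]
  have h3 : ((n - 1 : ℕ) : ℤ) = n - 1 := by
    rw [Nat.cast_sub (by omega)]; simp
  have h4 : ((n - 4 : ℕ) : ℤ) = n - 4 := by
    rw [Nat.cast_sub (by omega)]; simp
  rw [h3] at h1
  rw [h4]
  linarith

lemma num_short (n t c : ℕ) (hn : 8 ≤ n) (ht : 3 * t ≤ n.choose 2)
    (hc : n.choose 4 + t ≤ c + t * (n - 3)) : hh n ≤ c := by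
  have h1 := hh_cast_big n hn
  have h2 := choose_four_cast n
  have h3 := two_mul_choose_two n
  have h4 : ((n - 3 : ℕ) : ℤ) = n - 3 := by
    rw [Nat.cast_sub (by omega)]; simp
  zify at ht hc ⊢
  rw [h4] at hc
  have hn' : (8 : ℤ) ≤ n := by exact_mod_cast hn
  obtain ⟨x, hx⟩ : ∃ x : ℤ, (n : ℤ) = x + 8 := ⟨n - 8, by ring⟩
  have hx0 : 0 ≤ x := by linarith
  have ht' : 6 * (t : ℤ) ≤ n * (n - 1) := by linarith
  have h5 : 6 * (t : ℤ) * (n - 4) ≤ n * (n - 1) * (n - 4) :=
    mul_le_mul_of_nonneg_right ht' (by linarith)
  have h6 : (24 : ℤ) * c ≥ n * (n - 1) * (n - 2) * (n - 3) - 4 * (n * (n - 1) * (n - 4)) := by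
    nlinarith
  rw [hx] at h6 h1
  nlinarith [mul_nonneg hx0 hx0, mul_nonneg (mul_nonneg hx0 hx0) hx0,
    mul_nonneg (mul_nonneg hx0 hx0) (mul_nonneg hx0 hx0)]

/-- The hypothesis on seven element restrictions. -/
def Seven (M : Matroid α) : Prop := ∀ X ⊆ M.E, rk M X = 3 → X.ncard = 7 → 17 ≤ cc (M ↾ X)

lemma Seven.restrict (h : Seven M) {R : Set α} (hR : R ⊆ M.E) : Seven (M ↾ R) := by
  intro X hX hr h7
  rw [restrict_ground_eq] at hX
  rw [rk_restrict M hX] at hr
  rw [restrict_restrict_eq M hX]
  exact h X (hX.trans hR) hr h7

lemma Seven.delete (h : Seven M) (D : Set α) : Seven (M ＼ D) := by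
  rw [delete_eq_restrict]
  exact h.restrict sdiff_subset

lemma hh_le_choose (n : ℕ) : hh n ≤ (n - 1).choose 3 := Nat.sub_le _ _

theorem rank_three_aux (n : ℕ) : ∀ (M : Matroid α) [M.Finite], Simp M → Seven M → rk M M.E = 3 →
    M.E.ncard = n → hh n ≤ cc M := by
  classical
  induction n using Nat.strong_induction_on with
  | _ n ih =>
  intro M _ hs h7 hr hn
  have hEfin : M.E.Finite := M.ground_finite
  have hn3 : 3 ≤ n := by
    rw [← hn, ← hr]; exact rk_le_ncard le_rfl
  by_cases hc : Conn M
  · rcases Nat.lt_or_ge n 7 with hsmall | hbig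
    · -- small cases
      rcases Nat.eq_or_lt_of_le hn3 with h3 | h4
      · rw [← h3]
        have : hh 3 = 0 := by decide
        omega
      obtain ⟨X, hX, hX2⟩ := exists_subset_card_eq (s := M.E) (n := 2) (by omega)
      obtain ⟨e, g, heg, hXeg⟩ := ncard_eq_two.mp hX2
      have heE : e ∈ M.E := hX (by rw [hXeg]; simp)
      have hgE : g ∈ M.E := hX (by rw [hXeg]; simp)
      obtain ⟨C0, hC0, he0, -⟩ := hc.exists_common_circuit heE hgE heg
      have hrk := rk_sdiff_singleton_of_circuit hC0 he0
      have h1 := ih (n - 1) (by omega) (M ＼ {e}) (hs.delete _) (h7.delete _)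
        (by rw [delete_ground, rk_delete M le_rfl, hrk, hr])
        (by rw [delete_ground, ncard_sdiff_singleton_of_mem heE, hn])
      have h2 := cc_eq_delete_add_ce M e
      have l1 := ce_lower hs hc heE 1
      have l2 := ce_lower hs hc heE 2
      rw [hn, hr] at l1 l2
      have e1 : (1 + 1).choose 2 = 1 := by decide
      have e2 : (2 + 1).choose 2 = 3 := by decide
      rw [e1] at l1
      rw [e2] at l2
      push_cast at l1 l2
      have e3 : hh 3 = 0 := by decide
      have e4 : hh 4 = 1 := by decide
      have e5 : hh 5 = 3 := by decide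
      have e6 : hh 6 = 7 := by decide
      have : n = 4 ∨ n = 5 ∨ n = 6 := by omega
      rcases this with rfl | rfl | rfl
      · rw [e4]; norm_num at l1 l2; omega
      · rw [e5]; rw [e4] at h1; norm_num at l1 l2; omega
      · rw [e6]; rw [e5] at h1; norm_num at l1 l2; omega
    rcases Nat.eq_or_lt_of_le hbig with h77 | hbig'
    · have := h7 M.E le_rfl hr (by rw [hn, ← h77])
      rw [restrict_ground_eq_self] at this
      have h17 : hh 7 = 17 := by decide
      rw [← h77, h17]; exact this
    · have hn8 : 8 ≤ n := hbig'
      obtain ⟨E', L, D⟩ := exists_lineData M hs hr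
      have hE'card : E'.card = n := by
        rw [← ncard_coe_finset, D.coe_E, hn]
      rcases Nat.lt_or_ge L.card 4 with hL | hL
      · -- only short lines
        have h1 := D.cc_ge_short
        have h2 := D.three_mul_triangles_le (by omega)
        rw [hE'card] at h1 h2
        exact num_short n _ _ hn8 h2 h1
      · -- a long line
        set u := (E' \ L).card with hu
        have hlu : L.card + u = n := by
          rw [hu, Finset.card_sdiff_of_subset D.sub, hE'card]
          have := Finset.card_le_card D.sub
          omega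
        rcases Nat.lt_or_ge u 2 with hu2 | hu2
        · -- near pencil
          have h1 : (L.powersetCard 3).card ≤ cc M := by
            apply card_le_cc
            intro s hs'
            rw [Finset.mem_powersetCard] at hs'
            exact D.circuit_in_line hs'.1 hs'.2
          rw [Finset.card_powersetCard] at h1
          have h2 : (n - 1).choose 3 ≤ L.card.choose 3 := Nat.choose_le_choose 3 (by omega)
          exact (hh_le_choose n).trans (h2.trans h1)
        · obtain ⟨f, hf, hfew⟩ := D.exists_few (Finset.card_pos.mp (by omega))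
          have hce := D.ce_ge hf
          have hfE : f ∈ M.E := D.mem_E.mp (D.sub hf)
          -- `f` lies in a circuit
          have hcirc : ∃ C, M.IsCircuit C ∧ f ∈ C := by
            obtain ⟨P, hP, hP2⟩ := Finset.exists_subset_card_eq (s := L.erase f) (n := 2) (by
              rw [Finset.card_erase_of_mem hf]; omega)
            have hfP : f ∉ P := fun h => Finset.notMem_erase f L (hP h)
            refine ⟨((insert f P : Finset α) : Set α), D.circuit_in_line
              (Finset.insert_subset hf (hP.trans (Finset.erase_subset _ _))) ?_, by simp⟩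
            rw [Finset.card_insert_of_notMem hfP, hP2]
          obtain ⟨C0, hC0, hf0⟩ := hcirc
          have hrk := rk_sdiff_singleton_of_circuit hC0 hf0
          have h1 := ih (n - 1) (by omega) (M ＼ {f}) (hs.delete _) (h7.delete _)
            (by rw [delete_ground, rk_delete M le_rfl, hrk, hr])
            (by rw [delete_ground, ncard_sdiff_singleton_of_mem hfE, hn])
          have h2 := cc_eq_delete_add_ce M f
          -- evaluate the sum
          set g := (((E' \ L).powersetCard 2).filter
            (fun Y => M.IsCircuit ((insert f Y : Finset α) : Set α))).card with hg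
          have hsum : ∑ Y ∈ (E' \ L).powersetCard 2,
              (if M.IsCircuit ((insert f Y : Finset α) : Set α) then 1 else L.card - 2) =
              g + (u.choose 2 - g) * (L.card - 2) := by
            rw [Finset.sum_ite, Finset.sum_const, Finset.sum_const, smul_eq_mul, smul_eq_mul,
              mul_one]
            have h3 := Finset.card_filter_add_card_filter_not (s := (E' \ L).powersetCard 2)
              (fun Y => M.IsCircuit ((insert f Y : Finset α) : Set α))
            rw [Finset.card_powersetCard, ← hu] at h3
            congr 2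
            omega
          rw [hsum] at hce
          have hgle : g ≤ u.choose 2 := by
            rw [hu, ← Finset.card_powersetCard]
            exact Finset.card_filter_le _ _
          have c1 := two_mul_choose_two (L.card - 1)
          have c2 := two_mul_choose_two u
          have hLc : ((L.card - 1 : ℕ) : ℤ) = L.card - 1 := by
            rw [Nat.cast_sub (by omega)]; simp
          have hLc2 : ((L.card - 2 : ℕ) : ℤ) = L.card - 2 := by
            rw [Nat.cast_sub (by omega)]; simp
          rw [hLc] at c1
          have hkey := num_long (L.card : ℤ) (u : ℤ) (g : ℤ) (by exact_mod_cast hL)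
            (by exact_mod_cast hu2) (by exact_mod_cast (by omega : 8 ≤ L.card + u)) (by positivity)
            (by
              have : ((L.card * g : ℕ) : ℤ) ≤ ((u.choose 2 : ℕ) : ℤ) := by exact_mod_cast hfew
              push_cast at this
              linarith)
          have h3 : ((L.card - 1).choose 2 : ℤ) + (g + ((u.choose 2 : ℤ) - g) * ((L.card : ℤ) - 2))
              ≤ ce M f := by
            have h4 : (((L.card - 1).choose 2 + (g + (u.choose 2 - g) * (L.card - 2)) : ℕ) : ℤ) ≤
              (ce M f : ℤ) := by exact_mod_cast hce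
            push_cast [Nat.cast_sub hgle] at h4
            rw [hLc2] at h4
            exact h4
          have b1 := hh_cast_big n hn8
          have h5 : (cc M : ℤ) = cc (M ＼ {f}) + ce M f := by exact_mod_cast h2
          have hnn : (n : ℤ) = L.card + u := by exact_mod_cast hlu.symm
          have b2 := hh_succ (n - 1) (by omega)
          rw [show n - 1 + 1 = n by omega] at b2
          have c3 : (corr (n - 1) : ℤ) - corr (n - 1 - 1) = 1 := by
            have e1 : corr (n - 1) = n - 4 := by
              unfold corr; rw [if_neg (by omega)]; omega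
            have e2 : corr (n - 1 - 1) = n - 5 := by
              unfold corr; rw [if_neg (by omega)]; omega
            rw [e1, e2, Nat.cast_sub (by omega), Nat.cast_sub (by omega)]
            push_cast; ring
          have c4 := two_mul_choose_two (n - 1 - 1)
          have hn2 : ((n - 1 - 1 : ℕ) : ℤ) = n - 2 := by
            rw [show n - 1 - 1 = n - 2 by omega, Nat.cast_sub (by omega)]; simp
          rw [hn2] at c4
          rw [c3] at b2
          have h1' : (hh (n - 1) : ℤ) ≤ cc (M ＼ {f}) := by exact_mod_cast h1
          have goal : (hh n : ℤ) ≤ cc M := by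
            rw [h5, b2]
            rw [hnn] at c4
            nlinarith
          exact_mod_cast goal
  · -- disconnected
    unfold Conn at hc
    push Not at hc
    obtain ⟨A, hA, hA1, hB1, hAB⟩ := hc
    -- one of the two sides has rank two and `n - 1` elements
    have key : ∀ A B : Set α, A ⊆ M.E → B ⊆ M.E → A.Nonempty → B.Nonempty →
        A.ncard + B.ncard = n → rk M A + rk M B ≤ 3 → rk M A ≤ rk M B → hh n ≤ cc M := by
      intro A B hA hB hA1 hB1 hcard hAB hle
      have hfA := finite_restrict hA
      have hfB := finite_restrict hB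
      obtain ⟨a, ha⟩ := hA1
      have h1 : 1 ≤ rk M A := by
        have := rk_ground_pos (M := M ↾ A) (hs.restrict hA) (e := a) ha
        rwa [restrict_ground_eq, rk_restrict M le_rfl] at this
      have h2 : A.ncard ≤ 1 := by
        have := ncard_le_one_of_rk (M := M ↾ A) (hs.restrict hA)
          (by rw [restrict_ground_eq, rk_restrict M le_rfl]; omega)
        rwa [restrict_ground_eq] at this
      have h3 := choose_three_le_cc (M := M ↾ B) (hs.restrict hB)
          (by rw [restrict_ground_eq, rk_restrict M le_rfl]; omega)
      rw [restrict_ground_eq] at h3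
      have h4 := cc_add_le (M := M) (A := ∅) (B := B) (empty_subset _) hB (empty_disjoint B)
      have h5 : (n - 1).choose 3 ≤ B.ncard.choose 3 := Nat.choose_le_choose 3 (by omega)
      have h6 := hh_le_choose n
      omega
    have hcard : A.ncard + (M.E \ A).ncard = n := by
      rw [← hn]
      have := ncard_sdiff_add_ncard_of_subset hA hEfin
      omega
    rw [hr] at hAB
    rcases Nat.le_total (rk M A) (rk M (M.E \ A)) with h | h
    · exact key A (M.E \ A) hA sdiff_subset hA1 hB1 hcard hAB h
    · exact key (M.E \ A) A sdiff_subset hA hB1 hA1 (by omega) (by omega) h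

theorem Good_of_seven [M.Finite] (hs : Simp M) (h7 : Seven M) : Good M := by
  intro X hX hr
  have := finite_restrict hX
  exact rank_three_aux X.ncard (M ↾ X) (hs.restrict hX) (h7.restrict hX)
    (by rw [restrict_ground_eq, rk_restrict M le_rfl, hr]) rfl

end RadonMin
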