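import Pool.Agent.helper6.Radon.Rank3b

/-!
Seven points in rank three: at least seventeen circuits unless the Fano configuration appears.
-/

open Set Matroid

namespace RadonMin

variable {α : Type*} {M : Matroid α} {e f : α}

section

open scoped Classical

variable [DecidableEq α] {E' L : Finset α}

namespace LineData

variable (D : LineData M E' L)

include D

/-- Counting all circuits by their trace outside the longest line. -/
lemma cc_ge_trace [M.Finite] (hL4 : 4 ≤ L.card) :
    L.card.choose 3 + (E' \ L).card.choose 2 * (1 + (L.card - 1).choose 2)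
      + (E' \ L).card.choose 3 ≤ cc M := by
  set 𝒞 : Finset (Finset α) :=
    E'.powerset.filter (fun s : Finset α => M.IsCircuit (s : Set α)) with h𝒞
  set T1 : Finset (Finset α) := {∅} with hT1
  set T2 : Finset (Finset α) := (E' \ L).powersetCard 2 with hT2
  set T3 : Finset (Finset α) := (E' \ L).powersetCard 3 with hT3
  have hcount : ∀ T : Finset (Finset α), (𝒞.filter (fun s => s \ L ∈ T)).card =
      ∑ Y ∈ T, (𝒞.filter (fun s => s \ L = Y)).card := by
    intro T
    rw [Finset.card_eq_sum_card_fiberwise (f := fun s => s \ L) (t := T)]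
    · apply Finset.sum_congr rfl
      intro Y hY
      congr 1
      ext s
      simp only [Finset.mem_filter]
      constructor
      · rintro ⟨⟨h1, -⟩, h3⟩; exact ⟨h1, h3⟩
      · rintro ⟨h1, h3⟩; exact ⟨⟨h1, by rw [h3]; exact hY⟩, h3⟩
    · intro s hs
      rw [Finset.mem_coe, Finset.mem_filter] at hs
      exact hs.2
  have h1 : (𝒞.filter (fun s => s \ L ∈ T1)).card + (𝒞.filter (fun s => s \ L ∈ T2)).card
      + (𝒞.filter (fun s => s \ L ∈ T3)).card ≤ cc M := by
    have hd1 : Disjoint (𝒞.filter (fun s => s \ L ∈ T1)) (𝒞.filter (fun s => s \ L ∈ T2)) := by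
      rw [Finset.disjoint_filter]
      intro s _ h1 h2
      rw [hT1, Finset.mem_singleton] at h1
      rw [hT2, Finset.mem_powersetCard, h1] at h2
      simp at h2
    have hd2 : Disjoint (𝒞.filter (fun s => s \ L ∈ T1) ∪ 𝒞.filter (fun s => s \ L ∈ T2))
        (𝒞.filter (fun s => s \ L ∈ T3)) := by
      rw [Finset.disjoint_union_left]
      constructor
      · rw [Finset.disjoint_filter]
        intro s _ h1 h2
        rw [hT1, Finset.mem_singleton] at h1
        rw [hT3, Finset.mem_powersetCard, h1] at h2
        simp at h2
      · rw [Finset.disjoint_filter]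
        intro s _ h1 h2
        rw [hT2, Finset.mem_powersetCard] at h1
        rw [hT3, Finset.mem_powersetCard] at h2
        omega
    rw [← Finset.card_union_of_disjoint hd1, ← Finset.card_union_of_disjoint hd2]
    apply card_le_cc
    intro s hs
    simp only [Finset.mem_union, Finset.mem_filter, h𝒞] at hs
    rcases hs with (hs | hs) | hs
    · exact hs.1.2
    · exact hs.1.2
    · exact hs.1.2
  have hout : ∀ (j : ℕ) (Y : Finset α), Y ∈ (E' \ L).powersetCard j →
      Y ⊆ E' ∧ Disjoint Y L ∧ Y.card = j ∧ ∀ s : Finset α, s ⊆ L → (s ∪ Y) \ L = Y := by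
    intro j Y hY
    rw [Finset.mem_powersetCard] at hY
    have hYL : Disjoint Y L := by
      rw [Finset.disjoint_left]
      intro y hy
      exact (Finset.mem_sdiff.mp (hY.1 hy)).2
    refine ⟨hY.1.trans Finset.sdiff_subset, hYL, hY.2, ?_⟩
    intro s hs
    rw [Finset.union_sdiff_distrib, Finset.sdiff_eq_self_of_disjoint hYL,
      Finset.sdiff_eq_empty_iff_subset.mpr hs, Finset.empty_union]
  -- circuits in the line
  have f1 : L.card.choose 3 ≤ (𝒞.filter (fun s => s \ L ∈ T1)).card := by
    rw [← Finset.card_powersetCard]
    apply Finset.card_le_card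
    intro s hs
    rw [Finset.mem_powersetCard] at hs
    rw [Finset.mem_filter, h𝒞, Finset.mem_filter, Finset.mem_powerset]
    refine ⟨⟨hs.1.trans D.sub, D.circuit_in_line hs.1 hs.2⟩, ?_⟩
    rw [hT1, Finset.mem_singleton]
    exact Finset.sdiff_eq_empty_iff_subset.mpr hs.1
  -- circuits with two outside points
  have f2 : (E' \ L).card.choose 2 * (1 + (L.card - 1).choose 2) ≤
      (𝒞.filter (fun s => s \ L ∈ T2)).card := by
    rw [hcount, ← Finset.card_powersetCard, ← smul_eq_mul, ← Finset.sum_const]
    apply Finset.sum_le_sum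
    intro Y hY
    obtain ⟨hYE, hYL, hYc, htr⟩ := hout 2 Y hY
    have hmem : ∀ P : Finset α, P ⊆ L → M.IsCircuit ((P ∪ Y : Finset α) : Set α) →
        P ∪ Y ∈ 𝒞.filter (fun s => s \ L = Y) := by
      intro P hP hPc
      rw [Finset.mem_filter, h𝒞, Finset.mem_filter, Finset.mem_powerset]
      exact ⟨⟨Finset.union_subset (hP.trans D.sub) hYE, hPc⟩, htr P hP⟩
    have hinj : ∀ P Q : Finset α, P ⊆ L → Q ⊆ L → P ∪ Y = Q ∪ Y → P = Q := by
      intro P Q hP hQ hPQ
      have h1 : (P ∪ Y) ∩ L = P := by
        rw [Finset.union_inter_distrib_right, Finset.disjoint_iff_inter_eq_empty.mp hYL,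
          Finset.union_empty, Finset.inter_eq_left.mpr hP]
      have h2 : (Q ∪ Y) ∩ L = Q := by
        rw [Finset.union_inter_distrib_right, Finset.disjoint_iff_inter_eq_empty.mp hYL,
          Finset.union_empty, Finset.inter_eq_left.mpr hQ]
      rw [← h1, hPQ, h2]
    by_cases hbad : ∃ p ∈ L, M.IsCircuit ((insert p Y : Finset α) : Set α)
    · obtain ⟨p, hp, hpc⟩ := hbad
      have hgood : ∀ b ∈ L.erase p, ¬ M.IsCircuit ((insert b Y : Finset α) : Set α) := by
        intro b hb hbc
        have h3 := D.card_bad_le hY
        rw [Finset.card_le_one] at h3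
        have := h3 b (Finset.mem_filter.mpr ⟨Finset.mem_of_mem_erase hb, hbc⟩) p
          (Finset.mem_filter.mpr ⟨hp, hpc⟩)
        rw [this] at hb
        exact Finset.notMem_erase p L hb
      have hcard : (insert {p} ((L.erase p).powersetCard 2)).card = 1 + (L.card - 1).choose 2 := by
        rw [Finset.card_insert_of_notMem, Finset.card_powersetCard, Finset.card_erase_of_mem hp,
          add_comm]
        rw [Finset.mem_powersetCard]
        simp
      rw [← hcard]
      apply Finset.card_le_card_of_injOn (fun P => P ∪ Y)
      · intro P hP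
        rw [Finset.mem_coe, Finset.mem_insert] at hP
        rcases hP with rfl | hP
        · apply hmem _ (Finset.singleton_subset_iff.mpr hp)
          rw [← Finset.insert_eq]; exact hpc
        · rw [Finset.mem_powersetCard] at hP
          apply hmem _ (hP.1.trans (Finset.erase_subset _ _))
          obtain ⟨x, y, hxy, rfl⟩ := Finset.card_eq_two.mp hP.2
          have hx := hP.1 (Finset.mem_insert_self x _)
          have hy := hP.1 (Finset.mem_insert_of_mem (Finset.mem_singleton_self y))
          have := D.circuit_pair_pair hY (Finset.mem_of_mem_erase hx) (Finset.mem_of_mem_erase hy)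
            hxy (hgood x hx) (hgood y hy)
          rwa [show ({x, y} : Finset α) ∪ Y = insert x (insert y Y) by ext z; simp]
      · intro P hP Q hQ hPQ
        have hsub : ∀ P ∈ insert {p} ((L.erase p).powersetCard 2), P ⊆ L := by
          intro P hP
          rw [Finset.mem_insert] at hP
          rcases hP with rfl | hP
          · exact Finset.singleton_subset_iff.mpr hp
          · exact (Finset.mem_powersetCard.mp hP).1.trans (Finset.erase_subset _ _)
        exact hinj P Q (hsub P hP) (hsub Q hQ) hPQ
    · push Not at hbad
      have hcard : 1 + (L.card - 1).choose 2 ≤ (L.powersetCard 2).card := by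
        rw [Finset.card_powersetCard]
        obtain ⟨m, hm⟩ : ∃ m, L.card = m + 1 := ⟨L.card - 1, by omega⟩
        rw [hm, show (m + 1).choose 2 = m.choose 1 + m.choose 2 from Nat.choose_succ_succ' m 1]
        simp only [Nat.add_sub_cancel, Nat.choose_one_right]
        omega
      refine hcard.trans ?_
      apply Finset.card_le_card_of_injOn (fun P => P ∪ Y)
      · intro P hP
        rw [Finset.mem_coe, Finset.mem_powersetCard] at hP
        apply hmem _ hP.1
        obtain ⟨x, y, hxy, rfl⟩ := Finset.card_eq_two.mp hP.2
        have hx := hP.1 (Finset.mem_insert_self x _)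
        have hy := hP.1 (Finset.mem_insert_of_mem (Finset.mem_singleton_self y))
        have := D.circuit_pair_pair hY hx hy hxy (hbad x hx) (hbad y hy)
        rwa [show ({x, y} : Finset α) ∪ Y = insert x (insert y Y) by ext z; simp]
      · intro P hP Q hQ hPQ
        rw [Finset.mem_coe, Finset.mem_powersetCard] at hP hQ
        exact hinj P Q hP.1 hQ.1 hPQ
  -- circuits with three outside points
  have f3 : (E' \ L).card.choose 3 ≤ (𝒞.filter (fun s => s \ L ∈ T3)).card := by
    rw [hcount, ← Finset.card_powersetCard, Finset.card_eq_sum_ones]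
    apply Finset.sum_le_sum
    intro W hW
    obtain ⟨hWE, hWL, hWc, htr⟩ := hout 3 W hW
    rw [Nat.succ_le_iff, Finset.card_pos]
    by_cases hc : M.IsCircuit (W : Set α)
    · refine ⟨W, ?_⟩
      rw [Finset.mem_filter, h𝒞, Finset.mem_filter, Finset.mem_powerset]
      refine ⟨⟨hWE, hc⟩, ?_⟩
      have := htr ∅ (Finset.empty_subset _)
      rwa [Finset.empty_union] at this
    · -- a good point of the line
      have hex : ∃ b ∈ L, ∀ w ∈ W, ¬ M.IsCircuit ((insert b (W.erase w) : Finset α) : Set α) := by
        by_contra hcon
        push Not at hcon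
        have h2 : L ⊆ W.biUnion (fun w =>
            L.filter (fun b => M.IsCircuit ((insert b (W.erase w) : Finset α) : Set α))) := by
          intro b hb
          obtain ⟨w, hw, hbw⟩ := hcon b hb
          rw [Finset.mem_biUnion]
          exact ⟨w, hw, Finset.mem_filter.mpr ⟨hb, hbw⟩⟩
        have h3 := Finset.card_le_card h2
        have h4 : (W.biUnion (fun w => L.filter
            (fun b => M.IsCircuit ((insert b (W.erase w) : Finset α) : Set α)))).card ≤ 3 := by
          refine Finset.card_biUnion_le.trans ?_
          rw [← hWc, Finset.card_eq_sum_ones]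
          apply Finset.sum_le_sum
          intro w hw
          apply D.card_bad_le
          rw [Finset.mem_powersetCard]
          refine ⟨(Finset.erase_subset _ _).trans (Finset.mem_powersetCard.mp hW).1, ?_⟩
          rw [Finset.card_erase_of_mem hw, hWc]
        omega
      obtain ⟨b, hb, hbW⟩ := hex
      have hbW' : b ∉ W := fun h => Finset.disjoint_left.mp hWL h hb
      refine ⟨insert b W, ?_⟩
      rw [Finset.mem_filter, h𝒞, Finset.mem_filter, Finset.mem_powerset]
      refine ⟨⟨Finset.insert_subset (D.sub hb) hWE, ?_⟩, ?_⟩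
      · apply circuit_of_four D.simp D.rk_E.le (D.sub_E (Finset.insert_subset (D.sub hb) hWE))
        · rw [ncard_coe_finset, Finset.card_insert_of_notMem hbW', hWc]
        · intro x hx
          rw [← Finset.coe_erase]
          have hx' : x ∈ insert b W := by exact_mod_cast hx
          rw [Finset.mem_insert] at hx'
          rcases hx' with rfl | hx'
          · rw [Finset.erase_insert hbW']; exact hc
          · have hne : x ≠ b := fun h => hbW' (h ▸ hx')
            rw [Finset.erase_insert_of_ne hne.symm]
            exact hbW x hx'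
      · have := htr {b} (Finset.singleton_subset_iff.mpr hb)
        rwa [← Finset.insert_eq] at this
  omega

end LineData

/-- Collinear triple. -/
def Tri (M : Matroid α) (x y z : α) : Prop := M.IsCircuit ({x, y, z} : Set α)

lemma Tri.rot {x y z : α} (h : Tri M x y z) : Tri M y z x := by
  unfold Tri at *
  rwa [show ({y, z, x} : Set α) = {x, y, z} by ext w; simp; tauto]

lemma Tri.swap {x y z : α} (h : Tri M x y z) : Tri M y x z := by
  unfold Tri at *
  rwa [show ({y, x, z} : Set α) = {x, y, z} by ext w; simp; tauto]

lemma Tri.flip {x y z : α} (h : Tri M x y z) : Tri M x z y := by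
  unfold Tri at *
  rwa [show ({x, z, y} : Set α) = {x, y, z} by ext w; simp; tauto]

lemma Tri.ne (hs : Simp M) {x y z : α} (h : Tri M x y z) : x ≠ y ∧ y ≠ z ∧ x ≠ z := by
  have h3 := hs _ h
  have key : ∀ a b : α, ({a, b} : Set α).ncard ≤ 2 := by
    intro a b
    have h9 := ncard_insert_le a {b}
    rw [ncard_singleton] at h9
    exact h9
  refine ⟨?_, ?_, ?_⟩
  · rintro rfl
    rw [show ({x, x, z} : Set α) = {x, z} by simp] at h3
    have := key x z
    omega
  · rintro rfl
    rw [show ({x, y, y} : Set α) = {x, y} by simp] at h3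
    have := key x y
    omega
  · rintro rfl
    rw [show ({x, y, x} : Set α) = {x, y} by ext w; simp; tauto] at h3
    have := key x y
    omega

/-- The Fano configuration. -/
def FanoConf (M : Matroid α) : Prop := ∃ p a a' b b' c c' : α,
  p ≠ a ∧ p ≠ b ∧ a ≠ b ∧ p ∈ M.E ∧ a ∈ M.E ∧ b ∈ M.E ∧ ¬ Tri M p a b ∧
  Tri M p a a' ∧ Tri M p b b' ∧ Tri M p c c' ∧ Tri M a b c ∧ Tri M a b' c' ∧ Tri M a' b c' ∧
  Tri M a' b' c

theorem seven_or_fano (M : Matroid α) [M.Finite] (hs : Simp M) (hr : rk M M.E = 3)
    (hn : M.E.ncard = 7) : 17 ≤ cc M ∨ FanoConf M := by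
  obtain ⟨E', L, D⟩ := exists_lineData M hs hr
  have hE'card : E'.card = 7 := by
    rw [← ncard_coe_finset, D.coe_E, hn]
  have hLE := Finset.card_le_card D.sub
  have hsd : (E' \ L).card = 7 - L.card := by
    rw [Finset.card_sdiff_of_subset D.sub, hE'card]
  have hL7 : L.card ≠ 7 := by
    intro h
    have h1 : L = E' := Finset.eq_of_subset_of_card_le D.sub (by omega)
    have h2 := D.rk_L
    rw [h1, D.coe_E, hr] at h2
    omega
  rcases Nat.lt_or_ge L.card 4 with hL | hL
  · have h1 := D.cc_ge_short
    have h2 := D.three_mul_triangles_le (by omega)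
    rw [hE'card] at h1 h2
    have c1 : Nat.choose 7 4 = 35 := by decide
    have c2 : Nat.choose 7 2 = 21 := by decide
    rw [c1] at h1
    rw [c2] at h2
    set 𝒯 := (E'.powersetCard 3).filter (fun C : Finset α => M.IsCircuit (C : Set α)) with h𝒯
    by_cases ht : 𝒯.card ≤ 6
    · left; omega
    · right
      have ht7 : 𝒯.card = 7 := by omega
      -- each pair lies in a triangle
      have huniq : ∀ C ∈ 𝒯, ∀ C' ∈ 𝒯, ∀ P : Finset α, P.card = 2 → P ⊆ C → P ⊆ C' → C = C' := by
        intro C hC C' hC' P hP hPC hPC'
        rw [h𝒯, Finset.mem_filter, Finset.mem_powersetCard] at hC hC'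
        exact D.triangles_unique (by omega) hC.1.1 hC'.1.1 hC.1.2 hC'.1.2 hC.2 hC'.2 hP hPC hPC'
      have hcover : ∀ P ∈ E'.powersetCard 2, ∃ C ∈ 𝒯, P ⊆ C := by
        have h3 : (𝒯.biUnion (fun C => C.powersetCard 2)).card = 21 := by
          rw [Finset.card_biUnion]
          · have : ∀ C ∈ 𝒯, (C.powersetCard 2).card = 3 := by
              intro C hC
              rw [h𝒯, Finset.mem_filter, Finset.mem_powersetCard] at hC
              rw [Finset.card_powersetCard, hC.1.2]; rfl
            rw [Finset.sum_congr rfl this, Finset.sum_const, ht7]; rfl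
          · intro C hC C' hC' hne
            rw [Function.onFun, Finset.disjoint_left]
            intro P hP hP'
            rw [Finset.mem_powersetCard] at hP hP'
            exact hne (huniq C hC C' hC' P hP.2 hP.1 hP'.1)
        have h4 : 𝒯.biUnion (fun C => C.powersetCard 2) = E'.powersetCard 2 := by
          apply Finset.eq_of_subset_of_card_le
          · intro P hP
            rw [Finset.mem_biUnion] at hP
            obtain ⟨C, hC, hP⟩ := hP
            rw [h𝒯, Finset.mem_filter, Finset.mem_powersetCard] at hC
            rw [Finset.mem_powersetCard] at hP ⊢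
            exact ⟨hP.1.trans hC.1.1, hP.2⟩
          · rw [h3, Finset.card_powersetCard, hE'card]; decide
        intro P hP
        rw [← h4, Finset.mem_biUnion] at hP
        obtain ⟨C, hC, hP⟩ := hP
        exact ⟨C, hC, (Finset.mem_powersetCard.mp hP).1⟩
      -- third point
      have hthird : ∀ x ∈ E', ∀ y ∈ E', x ≠ y → ∃ z ∈ E', Tri M x y z := by
        intro x hx y hy hxy
        obtain ⟨C, hC, hP⟩ := hcover {x, y} (by
          rw [Finset.mem_powersetCard]
          refine ⟨?_, Finset.card_pair hxy⟩
          intro w hw
          simp only [Finset.mem_insert, Finset.mem_singleton] at hw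
          rcases hw with rfl | rfl
          · exact hx
          · exact hy)
        rw [h𝒯, Finset.mem_filter, Finset.mem_powersetCard] at hC
        have h3 : (C \ {x, y}).card = 1 := by
          rw [Finset.card_sdiff_of_subset hP, hC.1.2, Finset.card_pair hxy]
        obtain ⟨z, hz⟩ := Finset.card_eq_one.mp h3
        have hzC : z ∈ C \ {x, y} := by rw [hz]; simp
        rw [Finset.mem_sdiff] at hzC
        refine ⟨z, hC.1.1 hzC.1, ?_⟩
        have h5 : C = {x, y, z} := by
          rw [← Finset.sdiff_union_of_subset hP, hz]
          ext w; simp; tauto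
        have h6 := hC.2
        rw [h5] at h6
        unfold Tri
        simpa using h6
      have hTE : ∀ x y z, Tri M x y z → x ∈ E' ∧ y ∈ E' ∧ z ∈ E' := by
        intro x y z h
        have h3 := h.subset_ground
        refine ⟨?_, ?_, ?_⟩ <;> rw [D.mem_E] <;> apply h3 <;> simp
      have huniqT : ∀ x y z w, Tri M x y z → Tri M x y w → z = w := by
        intro x y z w h1 h2
        obtain ⟨n1, n2, n3⟩ := h1.ne hs
        obtain ⟨m1, m2, m3⟩ := h2.ne hs
        obtain ⟨e1, e2, e3⟩ := hTE _ _ _ h1
        obtain ⟨-, -, e4⟩ := hTE _ _ _ h2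
        have hC : ∀ z, z ∈ E' → y ≠ z → x ≠ z → Tri M x y z → ({x, y, z} : Finset α) ∈ 𝒯 := by
          intro z hz n2 n3 h
          rw [h𝒯, Finset.mem_filter, Finset.mem_powersetCard]
          refine ⟨⟨?_, ?_⟩, ?_⟩
          · intro w hw
            simp only [Finset.mem_insert, Finset.mem_singleton] at hw
            rcases hw with rfl | rfl | rfl <;> assumption
          · rw [Finset.card_eq_three]
            exact ⟨x, y, z, n1, n3, n2, rfl⟩
          · unfold Tri at h; simpa using h
        have h3 := huniq _ (hC z e3 n2 n3 h1) _ (hC w e4 m2 m3 h2) {x, y} (Finset.card_pair n1)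
          (by intro v hv; simp at hv ⊢; tauto) (by intro v hv; simp at hv ⊢; tauto)
        have h4 : z ∈ ({x, y, w} : Finset α) := by rw [← h3]; simp
        simp only [Finset.mem_insert, Finset.mem_singleton] at h4
        rcases h4 with h4 | h4 | h4
        · exact absurd h4.symm n3
        · exact absurd h4.symm n2
        · exact h4
      -- start
      obtain ⟨p, hp⟩ : E'.Nonempty := Finset.card_pos.mp (by omega)
      obtain ⟨a, ha⟩ : (E'.erase p).Nonempty := Finset.card_pos.mp (by
        rw [Finset.card_erase_of_mem hp]; omega)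
      rw [Finset.mem_erase] at ha
      obtain ⟨a', ha', t1⟩ := hthird p hp a ha.2 ha.1.symm
      have hcard3 : ({p, a, a'} : Finset α).card ≤ 3 := Finset.card_le_three
      obtain ⟨b, hb⟩ : (E' \ {p, a, a'}).Nonempty := by
        apply Finset.card_pos.mp
        have := Finset.le_card_sdiff ({p, a, a'} : Finset α) E'
        omega
      rw [Finset.mem_sdiff] at hb
      simp only [Finset.mem_insert, Finset.mem_singleton, not_or] at hb
      obtain ⟨hbE, hbp, hba, hba'⟩ := hb
      obtain ⟨b', hb', t2⟩ := hthird p hp b hbE (fun h => hbp h.symm)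
      obtain ⟨c, hcE, t3⟩ := hthird a ha.2 b hbE (fun h => hba h.symm)
      -- distinctness of `c`
      obtain ⟨n1, n2, n3⟩ := t1.ne hs
      obtain ⟨n4, n5, n6⟩ := t2.ne hs
      obtain ⟨n7, n8, n9⟩ := t3.ne hs
      have hpab : ¬ Tri M p a b := fun h => hba' (huniqT _ _ _ _ t1 h).symm
      have hb'a : b' ≠ a := by
        rintro rfl; exact hpab t2.flip
      have hb'a' : b' ≠ a' := by
        rintro rfl; exact hba (huniqT _ _ _ _ t1.flip t2.flip).symm
      have hcp : c ≠ p := by
        rintro rfl; exact hpab t3.rot.rot
      have hca' : c ≠ a' := by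
        rintro rfl; exact hbp (huniqT _ _ _ _ t1.rot t3.flip).symm
      have hcb' : c ≠ b' := by
        rintro rfl; exact ha.1 (huniqT _ _ _ _ t3.swap.flip t2.rot)
      obtain ⟨c', hc'E, t4⟩ := hthird p hp c hcE hcp.symm
      obtain ⟨n10, n11, n12⟩ := t4.ne hs
      have hc'a : c' ≠ a := by
        rintro rfl; exact hca' (huniqT _ _ _ _ t4.flip t1)
      have hc'a' : c' ≠ a' := by
        rintro rfl; exact n9 (huniqT _ _ _ _ t4.flip t1.flip).symm
      have hc'b : c' ≠ b := by
        rintro rfl; exact hcb' (huniqT _ _ _ _ t4.flip t2)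
      have hc'b' : c' ≠ b' := by
        rintro rfl; exact n8 (huniqT _ _ _ _ t4.flip t2.flip).symm
      have hall : ∀ z ∈ E', z = p ∨ z = a ∨ z = a' ∨ z = b ∨ z = b' ∨ z = c ∨ z = c' := by
        have h5 : ({p, a, a', b, b', c, c'} : Finset α) = E' := by
          apply Finset.eq_of_subset_of_card_le
          · intro w hw
            simp only [Finset.mem_insert, Finset.mem_singleton] at hw
            rcases hw with rfl | rfl | rfl | rfl | rfl | rfl | rfl
            · exact hp
            · exact ha.2
            · exact ha'
            · exact hbE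
            · exact hb'
            · exact hcE
            · exact hc'E
          · rw [hE'card]
            have h6 : ({p, a, a', b, b', c, c'} : Finset α).card = 7 := by
              rw [Finset.card_insert_of_notMem, Finset.card_insert_of_notMem,
                Finset.card_insert_of_notMem, Finset.card_insert_of_notMem,
                Finset.card_insert_of_notMem, Finset.card_insert_of_notMem, Finset.card_singleton]
              · simp only [Finset.mem_singleton]; exact n11
              · simp only [Finset.mem_insert, Finset.mem_singleton, not_or]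
                exact ⟨hcb'.symm, hc'b'.symm⟩
              · simp only [Finset.mem_insert, Finset.mem_singleton, not_or]
                exact ⟨n5, n8, hc'b.symm⟩
              · simp only [Finset.mem_insert, Finset.mem_singleton, not_or]
                exact ⟨fun h => hba' h.symm, hb'a'.symm, hca'.symm, hc'a'.symm⟩
              · simp only [Finset.mem_insert, Finset.mem_singleton, not_or]
                exact ⟨n2, fun h => hba h.symm, hb'a.symm, n9, hc'a.symm⟩
              · simp only [Finset.mem_insert, Finset.mem_singleton, not_or]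
                exact ⟨n1, n3, fun h => hbp h.symm, n6, hcp.symm, n12⟩
            omega
        intro z hz
        rw [← h5] at hz
        simpa using hz
      obtain ⟨d5, hd5, t5⟩ := hthird a ha.2 b' hb' hb'a.symm
      have e5 : d5 = c' := by
        obtain ⟨m1, m2, m3⟩ := t5.ne hs
        rcases hall d5 hd5 with h | h | h | h | h | h | h
        · rw [h] at t5
          exact absurd (huniqT _ _ _ _ t5.rot.rot t1) hb'a'
        · exact absurd h.symm m3
        · rw [h] at t5
          exact absurd (huniqT _ _ _ _ t5.flip t1.rot).symm n6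
        · rw [h] at t5
          exact absurd (huniqT _ _ _ _ t5.flip t3).symm hcb'
        · exact absurd h.symm m2
        · rw [h] at t5
          exact absurd (huniqT _ _ _ _ t5.flip t3.flip).symm n5
        · exact h
      rw [e5] at t5
      obtain ⟨d6, hd6, t6⟩ := hthird a' ha' b hbE (fun h => hba' h.symm)
      have e6 : d6 = c' := by
        obtain ⟨m1, m2, m3⟩ := t6.ne hs
        rcases hall d6 hd6 with h | h | h | h | h | h | h
        · rw [h] at t6
          exact absurd (huniqT _ _ _ _ t6.rot.rot t1.flip) hba
        · rw [h] at t6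
          exact absurd (huniqT _ _ _ _ t6.rot.rot t1.rot) hbp
        · exact absurd h.symm m3
        · exact absurd h.symm m2
        · rw [h] at t6
          exact absurd (huniqT _ _ _ _ t6.rot t2.rot).symm n3
        · rw [h] at t6
          exact absurd (huniqT _ _ _ _ t6.rot t3.rot).symm n2
        · exact h
      rw [e6] at t6
      obtain ⟨d7, hd7, t7⟩ := hthird a' ha' b' hb' hb'a'.symm
      have e7 : d7 = c := by
        obtain ⟨m1, m2, m3⟩ := t7.ne hs
        rcases hall d7 hd7 with h | h | h | h | h | h | h
        · rw [h] at t7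
          exact absurd (huniqT _ _ _ _ t7.rot.rot t1.flip) hb'a
        · rw [h] at t7
          exact absurd (huniqT _ _ _ _ t7.rot.rot t1.rot).symm n6
        · exact absurd h.symm m3
        · rw [h] at t7
          exact absurd (huniqT _ _ _ _ t7.rot.swap t2.rot).symm n3
        · exact absurd h.symm m2
        · exact h
        · rw [h] at t7
          exact absurd (huniqT _ _ _ _ t6.flip t7.flip) n5
      rw [e7] at t7
      exact ⟨p, a, a', b, b', c, c', n1, fun h => hbp h.symm, fun h => hba h.symm,
        D.mem_E.mp hp, D.mem_E.mp ha.2, D.mem_E.mp hbE, hpab, t1, t2, t4, t3, t5, t6, t7⟩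
  · left
    have h1 := D.cc_ge_trace hL
    rw [hsd] at h1
    have : L.card = 4 ∨ L.card = 5 ∨ L.card = 6 := by omega
    rcases this with h | h | h
    · rw [h] at h1
      have : Nat.choose 4 3 + Nat.choose (7 - 4) 2 * (1 + Nat.choose (4 - 1) 2) +
        Nat.choose (7 - 4) 3 = 17 := by decide
      omega
    · rw [h] at h1
      have : Nat.choose 5 3 + Nat.choose (7 - 5) 2 * (1 + Nat.choose (5 - 1) 2) +
        Nat.choose (7 - 5) 3 = 17 := by decide
      omega
    · rw [h] at h1
      have : Nat.choose 6 3 + Nat.choose (7 - 6) 2 * (1 + Nat.choose (6 - 1) 2) +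
        Nat.choose (7 - 6) 3 = 20 := by decide
      omega

end

end RadonMin
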