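import Pool.Agent.helper6.Radon.Link

/-!
Constructions of point sets with few circuits.
-/

open Set Matroid

namespace RadonMin

variable {V W : Type*} [AddCommGroup V] [Module ℝ V] [DecidableEq V] [AddCommGroup W] [Module ℝ W]
  [DecidableEq W]

/-- The set `S` has at most `m` circuits. -/
def Few (S : Finset V) (m : ℕ) : Prop :=
  ∃ F : Finset (Finset V), (∀ C ⊆ S, FCircuit C → C ∈ F) ∧ F.card ≤ m

lemma Few.mono {S : Finset V} {m n : ℕ} (h : Few S m) (hmn : m ≤ n) : Few S n := by
  obtain ⟨F, hF, hc⟩ := h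
  exact ⟨F, hF, hc.trans hmn⟩

lemma Few.cc_le {S : Finset V} {m : ℕ} (h : Few S m) : cc (affMat S) ≤ m := by
  obtain ⟨F, hF, hc⟩ := h
  refine le_trans ?_ hc
  unfold cc
  have hsub : {C : Set V | (affMat S).IsCircuit C} ⊆
      ((fun C : Finset V => (C : Set V)) '' (F : Set (Finset V))) := by
    intro C hC
    have hC' : (affMat S).IsCircuit C := hC
    have hCS := hC'.subset_ground
    rw [affMat_E] at hCS
    have hfin : C.Finite := (Finset.finite_toSet S).subset hCS
    obtain ⟨C', rfl⟩ : ∃ C' : Finset V, (C' : Set V) = C := ⟨hfin.toFinset, by simp⟩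
    have hC'S : C' ⊆ S := by exact_mod_cast hCS
    exact ⟨C', by exact_mod_cast hF C' hC'S ((fcircuit_iff hC'S).mp hC'), rfl⟩
  calc {C : Set V | (affMat S).IsCircuit C}.ncard
      ≤ ((fun C : Finset V => (C : Set V)) '' (F : Set (Finset V))).ncard :=
        ncard_le_ncard hsub ((Finset.finite_toSet F).image _)
    _ ≤ (F : Set (Finset V)).ncard := ncard_image_le (Finset.finite_toSet F)
    _ = F.card := ncard_coe_finset F

omit [DecidableEq V] in
lemma affInd_image (φ : V →ₗ[ℝ] W) (c : W) (hφ : Function.Injective φ) (I : Finset V) :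
    AffInd (I.image (fun x => φ x + c)) ↔ AffInd I := by
  have hg : Function.Injective (fun x => φ x + c) := fun a b h => hφ (add_right_cancel h)
  have key : ∀ f : V → ℝ, ∑ x ∈ I, f x • (φ x + c) = φ (∑ x ∈ I, f x • x) + (∑ x ∈ I, f x) • c := by
    intro f
    rw [map_sum, Finset.sum_smul, ← Finset.sum_add_distrib]
    apply Finset.sum_congr rfl
    intro x _
    rw [map_smul, smul_add]
  constructor
  · intro h f h1 h2 x hx
    have h3 := h (fun w => f (Function.invFun (fun x => φ x + c) w))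
    rw [Finset.sum_image (fun a _ b _ h => hg h), Finset.sum_image (fun a _ b _ h => hg h)] at h3
    have hinv : ∀ a : V, Function.invFun (fun x => φ x + c) (φ a + c) = a :=
      fun a => Function.leftInverse_invFun hg a
    simp only [hinv] at h3
    rw [key, h1, h2, map_zero, zero_smul, add_zero] at h3
    have h4 := h3 rfl rfl (φ x + c) (Finset.mem_image_of_mem _ hx)
    rwa [hinv] at h4
  · intro h f h1 h2 w hw
    rw [Finset.sum_image (fun a _ b _ h => hg h)] at h1 h2
    rw [key (fun x => f (φ x + c)), h1, zero_smul, add_zero] at h2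
    obtain ⟨x, hx, rfl⟩ := Finset.mem_image.mp hw
    have h3 : ∑ x ∈ I, f (φ x + c) • x = 0 := by
      apply hφ
      rw [h2, map_zero]
    exact h (fun x => f (φ x + c)) h1 h3 x hx

lemma fcircuit_image (φ : V →ₗ[ℝ] W) (c : W) (hφ : Function.Injective φ) (I : Finset V) :
    FCircuit (I.image (fun x => φ x + c)) ↔ FCircuit I := by
  have hg : Function.Injective (fun x => φ x + c) := fun a b h => hφ (add_right_cancel h)
  unfold FCircuit
  rw [affInd_image φ c hφ]
  constructor
  · rintro ⟨h1, h2⟩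
    refine ⟨h1, fun x hx => ?_⟩
    have h3 := h2 (φ x + c) (Finset.mem_image_of_mem _ hx)
    rw [← Finset.image_erase hg, affInd_image φ c hφ] at h3
    exact h3
  · rintro ⟨h1, h2⟩
    refine ⟨h1, fun w hw => ?_⟩
    obtain ⟨x, hx, rfl⟩ := Finset.mem_image.mp hw
    rw [← Finset.image_erase hg, affInd_image φ c hφ]
    exact h2 x hx

lemma Few.image {S : Finset V} {m : ℕ} (h : Few S m) (φ : V →ₗ[ℝ] W) (c : W)
    (hφ : Function.Injective φ) : Few (S.image (fun x => φ x + c)) m := by
  obtain ⟨F, hF, hc⟩ := h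
  refine ⟨F.image (fun C => C.image (fun x => φ x + c)), ?_, Finset.card_image_le.trans hc⟩
  intro C hC hCc
  obtain ⟨C', hC', rfl⟩ := Finset.subset_image_iff.mp hC
  have hC'S : C' ⊆ S := by exact_mod_cast hC'
  rw [fcircuit_image φ c hφ] at hCc
  exact Finset.mem_image_of_mem _ (hF C' hC'S hCc)

lemma AffInd.card_le [FiniteDimensional ℝ V] {I : Finset V} (h : AffInd I) :
    I.card ≤ Module.finrank ℝ V + 1 := by
  rw [affInd_iff] at h
  have h2 : LinearIndependent ℝ (fun x : (I : Set V) => lift1 (x : V)) := h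
  have h3 := h2.fintype_card_le_finrank
  have h4 : Fintype.card (I : Set V) = I.card := by simp
  rw [h4, Module.finrank_prod, Module.finrank_self] at h3
  omega

lemma FCircuit.nonempty {C : Finset V} (h : FCircuit C) : C.Nonempty := by
  rw [Finset.nonempty_iff_ne_empty]
  rintro rfl
  exact h.1 (by intro f _ _ x hx; simp at hx)

lemma FCircuit.card_le [FiniteDimensional ℝ V] {C : Finset V} (h : FCircuit C) :
    C.card ≤ Module.finrank ℝ V + 2 := by
  obtain ⟨x, hx⟩ := h.nonempty
  have h1 := (h.2 x hx).card_le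
  rw [Finset.card_erase_of_mem hx] at h1
  omega

lemma FCircuit.three_le {C : Finset V} (h : FCircuit C) : 3 ≤ C.card := by
  have h1 := (fcircuit_iff (Finset.Subset.refl C)).mpr h
  have h2 := affMat_simp C _ h1
  rwa [ncard_coe_finset] at h2

lemma FCircuit.eq_of_subset {C D : Finset V} (h : FCircuit C) (hD : D ⊆ C) (hn : ¬ AffInd D) :
    D = C := by
  by_contra hne
  obtain ⟨x, hxC, hxD⟩ := Finset.exists_of_ssubset (hD.ssubset_of_ne hne)
  exact hn ((h.2 x hxC).subset (fun y hy => Finset.mem_erase.mpr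
    ⟨fun hyx => hxD (hyx ▸ hy), hD hy⟩))

/-- Every affine relation on `A ∪ B` restricts to a relation on `A`. -/
def Splits (A B : Finset V) : Prop :=
  ∀ f : V → ℝ, ∑ x ∈ A ∪ B, f x = 0 → ∑ x ∈ A ∪ B, f x • x = 0 →
    ∑ x ∈ A, f x = 0 ∧ ∑ x ∈ A, f x • x = 0

lemma Few.union {A B : Finset V} (hd : Disjoint A B) (hs : Splits A B) {a b : ℕ}
    (hA : Few A a) (hB : Few B b) : Few (A ∪ B) (a + b) := by
  obtain ⟨FA, hFA, hca⟩ := hA
  obtain ⟨FB, hFB, hcb⟩ := hB
  refine ⟨FA ∪ FB, ?_, (Finset.card_union_le _ _).trans (by omega)⟩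
  intro C hC hCc
  by_cases hCA : C ⊆ A
  · exact Finset.mem_union_left _ (hFA C hCA hCc)
  by_cases hCB : C ⊆ B
  · exact Finset.mem_union_right _ (hFB C hCB hCc)
  exfalso
  obtain ⟨u, huC, huA⟩ := Finset.not_subset.mp hCA
  obtain ⟨v, hvC, hvB⟩ := Finset.not_subset.mp hCB
  have hnd := hCc.1
  unfold AffInd at hnd
  push Not at hnd
  obtain ⟨f, fs, fp, x0, hx0, hf0⟩ := hnd
  set g : V → ℝ := fun x => if x ∈ C then f x else 0 with hg
  have e : ∀ T : Finset V, ∑ x ∈ T, g x = ∑ x ∈ T ∩ C, f x := by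
    intro T
    rw [← Finset.filter_mem_eq_inter, Finset.sum_filter]
  have e' : ∀ T : Finset V, ∑ x ∈ T, g x • x = ∑ x ∈ T ∩ C, f x • x := by
    intro T
    rw [← Finset.filter_mem_eq_inter, Finset.sum_filter]
    apply Finset.sum_congr rfl
    intro x _
    simp only [hg]
    split_ifs
    · rfl
    · rw [zero_smul]
  have hint : (A ∪ B) ∩ C = C := Finset.inter_eq_right.mpr hC
  have g1 : ∑ x ∈ A ∪ B, g x = 0 := by rw [e, hint, fs]
  have g2 : ∑ x ∈ A ∪ B, g x • x = 0 := by rw [e', hint, fp]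
  obtain ⟨a1, a2⟩ := hs g g1 g2
  have b1 : ∑ x ∈ B, g x = 0 := by
    rw [Finset.sum_union hd, a1, zero_add] at g1; exact g1
  have b2 : ∑ x ∈ B, g x • x = 0 := by
    rw [Finset.sum_union hd, a2, zero_add] at g2; exact g2
  rw [e] at a1 b1
  rw [e'] at a2 b2
  have hAi : AffInd (A ∩ C) := (hCc.2 u huC).subset (fun y hy => by
    rw [Finset.mem_inter] at hy
    exact Finset.mem_erase.mpr ⟨fun h => huA (h ▸ hy.1), hy.2⟩)
  have hBi : AffInd (B ∩ C) := (hCc.2 v hvC).subset (fun y hy => by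
    rw [Finset.mem_inter] at hy
    exact Finset.mem_erase.mpr ⟨fun h => hvB (h ▸ hy.1), hy.2⟩)
  rcases Finset.mem_union.mp (hC hx0) with h | h
  · exact hf0 (hAi f a1 a2 x0 (Finset.mem_inter.mpr ⟨h, hx0⟩))
  · exact hf0 (hBi f b1 b2 x0 (Finset.mem_inter.mpr ⟨h, hx0⟩))

/-- points on a line -/
lemma few_line (s : ℕ) :
    Few ((Finset.range s).image (fun i : ℕ => (i : ℝ))) (s.choose 3) := by
  refine ⟨((Finset.range s).image (fun i : ℕ => (i : ℝ))).powersetCard 3, ?_, ?_⟩
  · intro C hC hCc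
    rw [Finset.mem_powersetCard]
    refine ⟨hC, ?_⟩
    have h1 := hCc.card_le
    have h2 := hCc.three_le
    rw [Module.finrank_self] at h1
    omega
  · rw [Finset.card_powersetCard, Finset.card_image_of_injective _ Nat.cast_injective,
      Finset.card_range]

lemma card_line (s : ℕ) : ((Finset.range s).image (fun i : ℕ => (i : ℝ))).card = s := by
  rw [Finset.card_image_of_injective _ Nat.cast_injective, Finset.card_range]

/-- There is a set of `s` points in some space of dimension `d` with at most `m` circuits. -/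
def HasSet' (d s m : ℕ) : Prop :=
  ∃ (V : Type) (_ : AddCommGroup V) (_ : Module ℝ V) (_ : DecidableEq V)
    (_ : FiniteDimensional ℝ V) (S : Finset V), Module.finrank ℝ V = d ∧ S.card = s ∧ Few S m

lemma HasSet'.mono {d s m n : ℕ} (h : HasSet' d s m) (hmn : m ≤ n) : HasSet' d s n := by
  obtain ⟨V, i1, i2, i3, i4, S, h1, h2, h3⟩ := h
  exact ⟨V, i1, i2, i3, i4, S, h1, h2, h3.mono hmn⟩

open Classical in
lemma HasSet'.hasSet {d s m : ℕ} (h : HasSet' d s m) :
    ∃ S : Finset (EuclideanSpace ℝ (Fin d)), S.card = s ∧ cc (affMat S) ≤ m := by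
  obtain ⟨V, i1, i2, i3, i4, S, h1, h2, h3⟩ := h
  have hfr : Module.finrank ℝ V = Module.finrank ℝ (EuclideanSpace ℝ (Fin d)) := by
    rw [h1, finrank_euclideanSpace_fin]
  let φ := LinearEquiv.ofFinrankEq V (EuclideanSpace ℝ (Fin d)) hfr
  have hφ : Function.Injective φ.toLinearMap := φ.injective
  have h4 := h3.image φ.toLinearMap 0 hφ
  refine ⟨_, ?_, h4.cc_le⟩
  rw [Finset.card_image_of_injective _ (fun a b h => hφ (add_right_cancel h)), h2]

lemma hasSet'_one (s : ℕ) : HasSet' 1 s (s.choose 3) :=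
  ⟨ℝ, inferInstance, inferInstance, inferInstance, inferInstance, _, Module.finrank_self ℝ,
    card_line s, few_line s⟩

/-- The recursive step: add a line in general position. -/
lemma HasSet'.step {d s m : ℕ} (h : HasSet' d s m) (q : ℕ) :
    HasSet' (d + 2) (s + q) (m + q.choose 3) := by
  obtain ⟨V, i1, i2, i3, i4, S, h1, h2, h3⟩ := h
  let φ : V →ₗ[ℝ] V × (ℝ × ℝ) := LinearMap.inl ℝ V (ℝ × ℝ)
  let ψ : ℝ →ₗ[ℝ] V × (ℝ × ℝ) := (LinearMap.inr ℝ V (ℝ × ℝ)).comp (LinearMap.inl ℝ ℝ ℝ)
  let c : V × (ℝ × ℝ) := (0, (0, 1))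
  have hφ : Function.Injective φ := LinearMap.inl_injective
  have hψ : Function.Injective ψ := LinearMap.inr_injective.comp LinearMap.inl_injective
  have hA := h3.image φ 0 hφ
  have hB := (few_line q).image ψ c hψ
  set A := S.image (fun x => φ x + 0) with hAdef
  set B := ((Finset.range q).image (fun i : ℕ => (i : ℝ))).image (fun x => ψ x + c) with hBdef
  have hAmem : ∀ y ∈ A, y.2 = 0 := by
    intro y hy
    obtain ⟨x, _, rfl⟩ := Finset.mem_image.mp hy
    simp [φ]
  have hBmem : ∀ y ∈ B, y.1 = 0 ∧ y.2.2 = 1 := by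
    intro y hy
    obtain ⟨x, _, rfl⟩ := Finset.mem_image.mp hy
    simp [ψ, c]
  have hdisj : Disjoint A B := by
    rw [Finset.disjoint_left]
    intro y hyA hyB
    have e1 := hAmem y hyA
    have e2 := (hBmem y hyB).2
    rw [e1] at e2
    simp at e2
  have hsplit : Splits A B := by
    intro f fs fp
    rw [Finset.sum_union hdisj] at fs fp
    have fp2 := congrArg (fun y : V × (ℝ × ℝ) => y.2.2) fp
    have fp1 := congrArg (fun y : V × (ℝ × ℝ) => y.1) fp
    simp only [Prod.fst_add, Prod.snd_add, Prod.fst_sum, Prod.snd_sum, Prod.smul_fst,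
      Prod.smul_snd, Prod.fst_zero, Prod.snd_zero] at fp1 fp2
    have z1 : ∑ x ∈ A, f x • x.2.2 = 0 := Finset.sum_eq_zero (fun x hx => by
      rw [hAmem x hx]; simp)
    have z2 : ∑ x ∈ B, f x • x.2.2 = ∑ x ∈ B, f x := Finset.sum_congr rfl (fun x hx => by
      rw [(hBmem x hx).2]; simp)
    have z3 : ∑ x ∈ B, f x • x.1 = 0 := Finset.sum_eq_zero (fun x hx => by
      rw [(hBmem x hx).1]; simp)
    rw [z1, z2, zero_add] at fp2
    rw [z3, add_zero] at fp1
    rw [fp2, add_zero] at fs
    refine ⟨fs, ?_⟩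
    rw [Prod.ext_iff]
    constructor
    · rw [Prod.fst_sum]
      simpa using fp1
    · rw [Prod.snd_sum]
      apply Finset.sum_eq_zero
      intro x hx
      rw [Prod.smul_snd, hAmem x hx, smul_zero]
  refine ⟨V × (ℝ × ℝ), inferInstance, inferInstance, inferInstance, inferInstance, A ∪ B, ?_, ?_,
    hA.union hdisj hsplit hB⟩
  · rw [Module.finrank_prod, Module.finrank_prod, Module.finrank_self, h1]
  · rw [Finset.card_union_of_disjoint hdisj, hAdef, hBdef,
      Finset.card_image_of_injective _ (fun a b h => hφ (add_right_cancel h)),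
      Finset.card_image_of_injective _ (fun a b h => hψ (add_right_cancel h)), card_line, h2]

end RadonMin
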